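import Mathlib
import Pool.Agent.FewGroups.Small
import Pool.Agent.Results.MP_bbc1fa_nt.AlgIndepNearOne

/-!
# The field of germs and the subfield of polynomially bounded rational germs
-/

set_option autoImplicit false

namespace Pool.Agent.ExScale

open Filter Topology

/-- The ultrafilter. -/
noncomputable abbrev U : Filter ℕ := (hyperfilter ℕ : Filter ℕ)

/-- The germ of a sequence. -/
noncomputable def gm (x : ℕ → ℝ) : Hyperreal := Hyperreal.ofSeq x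

lemma gm_eq_iff (x y : ℕ → ℝ) : gm x = gm y ↔ ∀ᶠ n in U, x n = y n := Germ.coe_eq

lemma gm_add (x y : ℕ → ℝ) : gm (fun n => x n + y n) = gm x + gm y := rfl
lemma gm_mul (x y : ℕ → ℝ) : gm (fun n => x n * y n) = gm x * gm y := rfl
lemma gm_neg (x : ℕ → ℝ) : gm (fun n => -x n) = -gm x := rfl
lemma gm_inv (x : ℕ → ℝ) : gm (fun n => (x n)⁻¹) = (gm x)⁻¹ := rfl
lemma gm_div (x y : ℕ → ℝ) : gm (fun n => x n / y n) = gm x / gm y := rfl
lemma gm_const (c : ℝ) : gm (fun _ => c) = (c : Hyperreal) := rfl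
lemma gm_zero : gm (fun _ => 0) = 0 := rfl
lemma gm_one : gm (fun _ => 1) = 1 := rfl

lemma gm_pow (x : ℕ → ℝ) (k : ℕ) : gm (fun n => x n ^ k) = gm x ^ k := by
  induction k with
  | zero => simp only [pow_zero]; exact gm_one
  | succ k ih => simp only [pow_succ]; rw [gm_mul, ih]

lemma gm_sum {ι : Type*} (s : Finset ι) (f : ι → ℕ → ℝ) :
    gm (fun n => ∑ i ∈ s, f i n) = ∑ i ∈ s, gm (f i) := by
  classical
  induction s using Finset.induction_on with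
  | empty => simp only [Finset.sum_empty]; exact gm_zero
  | insert a s ha ih =>
    simp only [Finset.sum_insert ha]
    rw [gm_add, ih]

lemma gm_prod {ι : Type*} (s : Finset ι) (f : ι → ℕ → ℝ) :
    gm (fun n => ∏ i ∈ s, f i n) = ∏ i ∈ s, gm (f i) := by
  classical
  induction s using Finset.induction_on with
  | empty => simp only [Finset.prod_empty]; exact gm_one
  | insert a s ha ih =>
    simp only [Finset.prod_insert ha]
    rw [gm_mul, ih]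

/-- Polynomially bounded sequences of integers. -/
def Bdd (Ω : ℕ → ℝ) (a : ℕ → ℤ) : Prop := ∃ m : ℕ, ∀ᶠ n in U, |(a n : ℝ)| ≤ Ω n ^ m

lemma Bdd.mul {Ω : ℕ → ℝ} {a b : ℕ → ℤ} (ha : Bdd Ω a) (hb : Bdd Ω b) :
    Bdd Ω (fun n => a n * b n) := by
  obtain ⟨m, hm⟩ := ha
  obtain ⟨k, hk⟩ := hb
  refine ⟨m + k, ?_⟩
  filter_upwards [hm, hk] with n h1 h2
  push_cast
  rw [abs_mul, pow_add]
  exact mul_le_mul h1 h2 (abs_nonneg _) ((abs_nonneg _).trans h1)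

lemma Bdd.add {Ω : ℕ → ℝ} (hΩ : ∀ n, 2 ≤ Ω n) {a b : ℕ → ℤ} (ha : Bdd Ω a) (hb : Bdd Ω b) :
    Bdd Ω (fun n => a n + b n) := by
  obtain ⟨m, hm⟩ := ha
  obtain ⟨k, hk⟩ := hb
  refine ⟨m + k + 1, ?_⟩
  filter_upwards [hm, hk] with n h1 h2
  push_cast
  have hΩ1 : 1 ≤ Ω n := by linarith [hΩ n]
  have h3 : Ω n ^ m ≤ Ω n ^ (m + k) := pow_le_pow_right₀ hΩ1 (by omega)
  have h4 : Ω n ^ k ≤ Ω n ^ (m + k) := pow_le_pow_right₀ hΩ1 (by omega)
  have h5 : (2:ℝ) * Ω n ^ (m + k) ≤ Ω n ^ (m + k + 1) := by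
    rw [pow_succ, mul_comm]
    exact mul_le_mul_of_nonneg_left (hΩ n) (by positivity)
  refine (abs_add_le _ _).trans ?_
  linarith

lemma Bdd.neg {Ω : ℕ → ℝ} {a : ℕ → ℤ} (ha : Bdd Ω a) : Bdd Ω (fun n => -a n) := by
  obtain ⟨m, hm⟩ := ha
  refine ⟨m, ?_⟩
  filter_upwards [hm] with n h1
  push_cast
  rwa [abs_neg]

lemma Bdd.zero {Ω : ℕ → ℝ} : Bdd Ω (fun _ => 0) :=
  ⟨0, Eventually.of_forall (fun n => by simp)⟩

lemma Bdd.one {Ω : ℕ → ℝ} : Bdd Ω (fun _ => 1) :=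
  ⟨0, Eventually.of_forall (fun n => by simp)⟩

lemma Bdd.prod {Ω : ℕ → ℝ} {ι : Type*} (s : Finset ι) {a : ι → ℕ → ℤ}
    (ha : ∀ i, Bdd Ω (a i)) : Bdd Ω (fun n => ∏ i ∈ s, a i n) := by
  classical
  induction s using Finset.induction_on with
  | empty => simpa using Bdd.one
  | insert i s hi ih =>
    simp only [Finset.prod_insert hi]
    exact (ha i).mul ih

/-- The subfield of germs of polynomially bounded rationals. -/
noncomputable def K0 (Ω : ℕ → ℝ) (hΩ : ∀ n, 2 ≤ Ω n) : Subfield Hyperreal where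
  carrier := {x | ∃ a b : ℕ → ℤ, Bdd Ω a ∧ Bdd Ω b ∧ (∀ᶠ n in U, b n ≠ 0) ∧
    x = gm (fun n => (a n : ℝ) / (b n : ℝ))}
  mul_mem' := by
    rintro x y ⟨a, b, ha, hb, hb0, rfl⟩ ⟨c, d, hc, hd, hd0, rfl⟩
    refine ⟨fun n => a n * c n, fun n => b n * d n, ha.mul hc, hb.mul hd, ?_, ?_⟩
    · filter_upwards [hb0, hd0] with n h1 h2
      exact mul_ne_zero h1 h2
    · rw [← gm_mul]
      congr 1
      funext n
      push_cast
      rw [div_mul_div_comm]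
  one_mem' := ⟨fun _ => 1, fun _ => 1, Bdd.one, Bdd.one, by simp, by
    simp only [Int.cast_one, div_one]; exact gm_one.symm⟩
  add_mem' := by
    rintro x y ⟨a, b, ha, hb, hb0, rfl⟩ ⟨c, d, hc, hd, hd0, rfl⟩
    refine ⟨fun n => a n * d n + b n * c n, fun n => b n * d n,
      (ha.mul hd).add hΩ (hb.mul hc), hb.mul hd, ?_, ?_⟩
    · filter_upwards [hb0, hd0] with n h1 h2
      exact mul_ne_zero h1 h2
    · rw [← gm_add, gm_eq_iff]
      filter_upwards [hb0, hd0] with n h1 h2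
      have h3 : (b n : ℝ) ≠ 0 := by exact_mod_cast h1
      have h4 : (d n : ℝ) ≠ 0 := by exact_mod_cast h2
      push_cast
      rw [div_add_div _ _ h3 h4]
  zero_mem' := ⟨fun _ => 0, fun _ => 1, Bdd.zero, Bdd.one, by simp, by
    simp only [Int.cast_zero, zero_div]; exact gm_zero.symm⟩
  neg_mem' := by
    rintro x ⟨a, b, ha, hb, hb0, rfl⟩
    refine ⟨fun n => -a n, b, ha.neg, hb, hb0, ?_⟩
    rw [← gm_neg]
    congr 1
    funext n
    push_cast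
    rw [neg_div]
  inv_mem' := by
    rintro x ⟨a, b, ha, hb, hb0, rfl⟩
    by_cases h0 : ∀ᶠ n in U, a n ≠ 0
    · refine ⟨b, a, hb, ha, h0, ?_⟩
      rw [← gm_inv]
      congr 1
      funext n
      rw [inv_div]
    · rw [← Ultrafilter.eventually_not] at h0
      refine ⟨fun _ => 0, fun _ => 1, Bdd.zero, Bdd.one, by simp, ?_⟩
      rw [← gm_inv, gm_eq_iff]
      filter_upwards [h0] with n h1
      push Not at h1
      simp [h1]

lemma int_mem_K0 {Ω : ℕ → ℝ} (hΩ : ∀ n, 2 ≤ Ω n) {a : ℕ → ℤ} (ha : Bdd Ω a) :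
    gm (fun n => (a n : ℝ)) ∈ K0 Ω hΩ :=
  ⟨a, fun _ => 1, ha, Bdd.one, by simp, by simp⟩

lemma div_mem_K0 {Ω : ℕ → ℝ} (hΩ : ∀ n, 2 ≤ Ω n) {a b : ℕ → ℤ} (ha : Bdd Ω a) (hb : Bdd Ω b)
    (hb0 : ∀ᶠ n in U, b n ≠ 0) :
    gm (fun n => (a n : ℝ) / (b n : ℝ)) ∈ K0 Ω hΩ :=
  ⟨a, b, ha, hb, hb0, rfl⟩

end Pool.Agent.ExScale
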