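import Mathlib
import Pool.Agent.OneClass.Forms

/-!
# Proportionality of the formal determinants, with a free variable in place of the base

The proof follows `Pool.Agent.OneClass.equiv_of_generic`; the conclusion is stated before the base
is specialised.
-/

set_option autoImplicit false

namespace Pool.Agent.ExScale

open MvPolynomial Pool.Agent.OneClass

variable {r : ℕ}

/-- Main step, formal version: genericity of the point `lam` for the polynomials of degree at most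
four with bounded coefficients. If `M'` is singular and `M` is nearly singular, both with independent
rows and columns, then their determinants are proportional, even with `ℓ` replaced by a free
variable `τ` and `lam` by its images under the `ℚ`-linear maps. -/
theorem formal_of_generic (c c' : Fin 2 → Fin 2 → ℤ) (m m' : Fin 2 → Fin 2 → Fin r → ℤ)
    (T : ℝ) (hT : 1 ≤ T)
    (hc : ∀ i j, |(c i j : ℝ)| ≤ T) (hm : ∀ i j k, |(m i j k : ℝ)| ≤ T)
    (hc' : ∀ i j, |(c' i j : ℝ)| ≤ T) (hm' : ∀ i j k, |(m' i j k : ℝ)| ≤ T)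
    (lam : Fin r → ℝ) (hlam : ∀ k, |lam k| ≤ 1) (ℓ : ℝ) (η : ℝ) (hη1 : η ≤ 1)
    (hgen : ∀ F : MvPolynomial (Fin r) ℤ, F.totalDegree ≤ 4 → L1 F ≤ 320 * ((r + 1) * T) ^ 8 →
      |aeval lam F| ≤ 500 * ((r + 1) * T) ^ 8 * η →
      ∀ θ : ℝ →ₗ[ℚ] ℝ, aeval (fun k => θ (lam k)) F = 0)
    (M M' : Matrix (Fin 2) (Fin 2) ℝ)
    (hM : ∀ i j, M i j = (c i j : ℝ) * ℓ + ∑ k, (m i j k : ℝ) * lam k)
    (hM' : ∀ i j, M' i j = (c' i j : ℝ) * ℓ + ∑ k, (m' i j k : ℝ) * lam k)
    (hd : |M.det| ≤ η) (hd' : M'.det = 0)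
    (hr : RowsIndep M) (hcol : RowsIndep M.transpose) (hr' : RowsIndep M')
    (hcol' : RowsIndep M'.transpose) :
    ∃ κ : ℚ, κ ≠ 0 ∧ ∀ (τ : ℝ) (θ : ℝ →ₗ[ℚ] ℝ),
      (pA c : ℝ) * τ ^ 2 + aeval (fun k => θ (lam k)) (pB c m) * τ +
        aeval (fun k => θ (lam k)) (pC m) =
      κ * ((pA c' : ℝ) * τ ^ 2 + aeval (fun k => θ (lam k)) (pB c' m') * τ +
        aeval (fun k => θ (lam k)) (pC m')) := by
  classical
  have hr0 : (0:ℝ) ≤ r := Nat.cast_nonneg r
  have hη0 : 0 ≤ η := (abs_nonneg _).trans hd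
  set U : ℝ := (r + 1) * T with hU
  have hU1 : 1 ≤ U := by rw [hU]; nlinarith
  -- a basis of the span of the `lam k`
  let V : Submodule ℚ ℝ := Submodule.span ℚ (Set.range lam)
  have hfin : FiniteDimensional ℚ V := FiniteDimensional.span_of_finite ℚ (Set.finite_range _)
  have hmem : ∀ k, lam k ∈ V := fun k => Submodule.subset_span ⟨k, rfl⟩
  let w := Module.finBasis ℚ V
  set s := Module.finrank ℚ V with hs
  let b : Fin s → ℝ := fun j => (w j : ℝ)
  let u : Fin r → MvPolynomial (Fin s) ℚ := fun k =>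
    ∑ j, C (w.repr ⟨lam k, hmem k⟩ j) * X j
  have hu_hom : ∀ k, (u k).IsHomogeneous 1 := fun k =>
    IsHomogeneous.sum _ _ _ fun _ _ => isHomogeneous_C_mul_X _ _
  have hu_b : ∀ k, aeval b (u k) = lam k := by
    intro k
    have h1 := congrArg (Subtype.val) (w.sum_repr ⟨lam k, hmem k⟩)
    refine Eq.trans ?_ h1
    simp only [u, b, map_sum, map_mul, aeval_C, aeval_X, AddSubmonoidClass.coe_finsetSum,
      SetLike.val_smul, Rat.smul_def, eq_ratCast]
  have hb : ∀ x : Fin s → ℚ, ∃ θ : ℝ →ₗ[ℚ] ℝ, ∀ j, θ (b j) = x j := by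
    intro x
    obtain ⟨θ, hθ⟩ := LinearMap.exists_extend
      (w.constr ℚ (fun k => ((x k : ℚ) : ℝ)) : V →ₗ[ℚ] ℝ)
    refine ⟨θ, fun j => ?_⟩
    have h1 := congrArg (fun g => g (w j)) hθ
    simp only [LinearMap.comp_apply, Submodule.subtype_apply, Module.Basis.constr_basis] at h1
    exact h1
  let Φ : MvPolynomial (Fin r) ℤ →ₐ[ℤ] MvPolynomial (Fin s) ℚ := aeval u
  have hΦ : ∀ (y : Fin s → ℝ) (F : MvPolynomial (Fin r) ℤ),
      aeval y (Φ F) = aeval (fun k => aeval y (u k)) F := by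
    intro y F
    induction F using MvPolynomial.induction_on with
    | C a => simp [Φ]
    | add p q hp hq => rw [map_add, map_add, hp, hq, map_add]
    | mul_X p k hp => rw [map_mul, map_mul, hp, map_mul, aeval_X, aeval_X]
  have hΦb : ∀ F, aeval b (Φ F) = aeval lam F := by
    intro F
    rw [hΦ]
    simp only [hu_b]
  have hΦθ : ∀ (θ : ℝ →ₗ[ℚ] ℝ) F, aeval (fun j => θ (b j)) (Φ F) =
      aeval (fun k => θ (lam k)) F := by
    intro θ F
    rw [hΦ]
    congr 2
    funext k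
    rw [linear_aeval (hu_hom k), hu_b]
  have hzero : ∀ F : MvPolynomial (Fin r) ℤ, F.totalDegree ≤ 4 → L1 F ≤ 320 * U ^ 8 →
      |aeval lam F| ≤ 500 * U ^ 8 * η → Φ F = 0 := by
    intro F h1 h2 h3
    apply MvPolynomial.funext
    intro x
    obtain ⟨θ, hθ⟩ := hb x
    have h4 := hgen F h1 h2 h3 θ
    rw [← hΦθ] at h4
    have h5 : aeval (fun j => θ (b j)) (Φ F) = ((eval x (Φ F) : ℚ) : ℝ) := by
      have h6 : (fun j => θ (b j)) = (algebraMap ℚ ℝ) ∘ x := by
        funext j; rw [Function.comp, hθ]; rfl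
      rw [h6, MvPolynomial.aeval_algebraMap_apply]
      simp [MvPolynomial.aeval_eq_eval]
    rw [h5] at h4
    rw [map_zero]
    exact_mod_cast h4
  have hΦhom : ∀ (F : MvPolynomial (Fin r) ℤ) (n : ℕ), F.IsHomogeneous n →
      (Φ F).IsHomogeneous n := by
    intro F n h
    have := h.aeval u hu_hom
    rwa [one_mul] at this
  have hΦC : ∀ a : ℤ, Φ (C a) = C (a : ℚ) := by
    intro a
    simp [Φ]
  have hdetid : ∀ N : Matrix (Fin 2) (Fin 2) ℝ, N.map (LinearMap.id : ℝ →ₗ[ℚ] ℝ) = N := by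
    intro N; ext i j; simp
  have e1 := det_formal c m lam ℓ M hM LinearMap.id
  have e1' := det_formal c' m' lam ℓ M' hM' LinearMap.id
  rw [hdetid] at e1
  rw [hdetid, hd'] at e1'
  simp only [LinearMap.id_coe, id_eq] at e1 e1'
  have hU2 : U ^ 2 ≤ U ^ 8 := pow_le_pow_right₀ hU1 (by norm_num)
  have hU4 : U ^ 4 ≤ U ^ 8 := pow_le_pow_right₀ hU1 (by norm_num)
  have hUnn : 0 ≤ U ^ 8 := by positivity
  have hU8 : 1 ≤ U ^ 8 := one_le_pow₀ hU1
  -- the evaluations and their sizes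
  have bA := pA_le (r := r) c T hT hc
  have bA' := pA_le (r := r) c' T hT hc'
  have bβ := (abs_aeval_le _ lam hlam).trans (L1_pB_le c m T hT hc hm)
  have bβ' := (abs_aeval_le _ lam hlam).trans (L1_pB_le c' m' T hT hc' hm')
  have bγ' := (abs_aeval_le _ lam hlam).trans (L1_pC_le m' T hT hm')
  rw [← hU] at bA bA' bβ bβ' bγ'
  have hAint : (pA c' : ℝ) ≠ 0 → 1 ≤ |(pA c' : ℝ)| := by
    intro h
    have h1 : pA c' ≠ 0 := by exact_mod_cast h
    rw [← Int.cast_abs]
    exact_mod_cast Int.one_le_abs h1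
  set A : ℝ := (pA c : ℝ) with hA
  set A' : ℝ := (pA c' : ℝ) with hA'
  set β := aeval lam (pB c m) with hβ
  set β' := aeval lam (pB c' m') with hβ'
  set γ := aeval lam (pC m) with hγ
  set γ' := aeval lam (pC m') with hγ'
  set f := M.det with hf
  have hf1 : |f| ≤ 1 := hd.trans hη1
  have hS : aeval lam (pS c c' m m') = β * γ' - β' * γ := by
    simp only [pS, map_sub, map_mul, hβ, hβ', hγ, hγ']
  have hR : aeval lam (pR c c' m m') =
      (A * γ' - A' * γ) ^ 2 - (A * β' - A' * β) * (β * γ' - β' * γ) := by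
    simp only [pR, map_sub, map_mul, map_pow, aeval_Cint, hβ, hβ', hγ, hγ', hA, hA']
  have hR0 : |aeval lam (pR c c' m m')| ≤ 500 * U ^ 8 * η := by
    rw [hR]
    exact res_bound U A A' β β' γ γ' ℓ f η hU1 hη0 bA bA' bβ bβ' bγ' hAint hd hf1 e1 e1'
  have hRz := hzero _ ((pR_hom c c' m m').totalDegree_le)
    (L1_pR_le c c' m m' T hT hc hm hc' hm') hR0
  have h1 : (C (pA c : ℚ) * Φ (pC m') - C (pA c' : ℚ) * Φ (pC m)) ^ 2 =
      (C (pA c : ℚ) * Φ (pB c' m') - C (pA c' : ℚ) * Φ (pB c m)) *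
        (Φ (pB c m) * Φ (pC m') - Φ (pB c' m') * Φ (pC m)) := by
    simp only [pR, map_sub, map_mul, map_pow, hΦC] at hRz
    exact sub_eq_zero.mp hRz
  have h2 : (pA c : ℚ) = 0 → (pA c' : ℚ) = 0 →
      Φ (pB c m) * Φ (pC m') = Φ (pB c' m') * Φ (pC m) := by
    intro hA0 hA0'
    have hA0r : A = 0 := by rw [hA]; exact_mod_cast hA0
    have hA0r' : A' = 0 := by rw [hA']; exact_mod_cast hA0'
    rw [hA0r] at e1
    rw [hA0r'] at e1'
    have hS0 : |aeval lam (pS c c' m m')| ≤ 500 * U ^ 8 * η := by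
      have h5 : aeval lam (pS c c' m m') = -(β' * f) := by
        rw [hS]
        linear_combination β' * e1 - β * e1'
      rw [h5, abs_neg, abs_mul]
      have h6 := mul_le_mul bβ' hd (abs_nonneg _) (by positivity)
      have h7 : 4 * U ^ 2 * η ≤ 500 * U ^ 8 * η :=
        mul_le_mul_of_nonneg_right (by linarith) hη0
      linarith
    have hSz := hzero _ ((pS_hom c c' m m').totalDegree_le.trans (by norm_num))
      ((L1_pS_le c c' m m' T hT hc hm hc' hm').trans (by rw [← hU]; linarith)) hS0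
    simp only [pS, map_sub, map_mul] at hSz
    exact sub_eq_zero.mp hSz
  have hη500 : η ≤ 500 * U ^ 8 * η := by nlinarith
  have h3 : (pA c : ℚ) = 0 → Φ (pB c m) = 0 → Φ (pC m) = 0 := by
    intro hA0 hB0
    have hA0r : A = 0 := by rw [hA]; exact_mod_cast hA0
    have hβ0 : β = 0 := by rw [hβ, ← hΦb, hB0, map_zero]
    rw [hA0r, hβ0, zero_mul, zero_mul, zero_add, zero_add] at e1
    have hγ0 : |aeval lam (pC m)| ≤ 500 * U ^ 8 * η := by
      rw [← hγ, ← e1]; exact hd.trans hη500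
    exact hzero _ ((pC_hom m).totalDegree_le.trans (by norm_num))
      ((L1_pC_le m T hT hm).trans (by rw [← hU]; linarith)) hγ0
  have h3' : (pA c' : ℚ) = 0 → Φ (pB c' m') = 0 → Φ (pC m') = 0 := by
    intro hA0 hB0
    have hA0r : A' = 0 := by rw [hA']; exact_mod_cast hA0
    have hβ0 : β' = 0 := by rw [hβ', ← hΦb, hB0, map_zero]
    rw [hA0r, hβ0, zero_mul, zero_mul, zero_add, zero_add] at e1'
    have hγ0 : |aeval lam (pC m')| ≤ 500 * U ^ 8 * η := by
      rw [← hγ', ← e1', abs_zero]; exact hη0.trans hη500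
    exact hzero _ ((pC_hom m').totalDegree_le.trans (by norm_num))
      ((L1_pC_le m' T hT hm').trans (by rw [← hU]; linarith)) hγ0
  have hcore := core (A := (pA c : ℚ)) (A' := (pA c' : ℚ)) (B := Φ (pB c m)) (C := Φ (pC m))
    (B' := Φ (pB c' m')) (C' := Φ (pC m')) (b := b) (ℓ := ℓ) hb
    (hΦhom _ _ (pB_hom c m)) (hΦhom _ _ (pC_hom m)) (hΦhom _ _ (pB_hom c' m'))
    (hΦhom _ _ (pC_hom m'))
    (by rw [hΦb, hΦb, Rat.cast_intCast]; exact e1'.symm) h1 h2 h3 h3'
  rcases hcore with ⟨κ, hκ, k1, k2, k3⟩ | ⟨z1, z2, z3⟩ | hbad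
  · refine ⟨κ, hκ, fun τ θ => ?_⟩
    rw [← hΦθ, ← hΦθ, ← hΦθ, ← hΦθ, k2, k3, map_mul, map_mul, aeval_C, eq_ratCast]
    have k1' : A = (κ : ℝ) * A' := by rw [hA, hA']; exact_mod_cast k1
    rw [k1']
    ring
  · exfalso
    obtain ⟨θ, hθ⟩ := exists_formal_ne M hr hcol
    apply hθ
    rw [det_formal c m lam ℓ M hM θ, ← hΦθ, ← hΦθ, z2, z3]
    have z1' : (pA c : ℝ) = 0 := by exact_mod_cast z1
    rw [z1']
    simp
  · exfalso
    obtain ⟨θ, hθ⟩ := exists_formal_ne M' hr' hcol'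
    apply hθ
    rw [det_formal c' m' lam ℓ M' hM' θ, ← hΦθ, ← hΦθ]
    have := hbad θ
    rwa [Rat.cast_intCast] at this

end Pool.Agent.ExScale
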