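import Mathlib
import Pool.Agent.ExScale.Formal

/-!
# Functionals killing one matrix kill the other one
-/

set_option autoImplicit false

namespace Pool.Agent.ExScale

open MvPolynomial Pool.Agent.OneClass

variable {r : ℕ}

/-- The formal matrix: `ℓ` replaced by `τ` and the logarithms by their images. -/
noncomputable def fm (c : Fin 2 → Fin 2 → ℤ) (m : Fin 2 → Fin 2 → Fin r → ℤ) (lam : Fin r → ℝ)
    (τ : ℝ) (θ : ℝ →ₗ[ℚ] ℝ) : Matrix (Fin 2) (Fin 2) ℝ :=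
  fun i j => (c i j : ℝ) * τ + ∑ k, (m i j k : ℝ) * θ (lam k)

lemma det_fm (c : Fin 2 → Fin 2 → ℤ) (m : Fin 2 → Fin 2 → Fin r → ℤ) (lam : Fin r → ℝ)
    (τ : ℝ) (θ : ℝ →ₗ[ℚ] ℝ) :
    (fm c m lam τ θ).det = (pA c : ℝ) * τ ^ 2 + aeval (fun k => θ (lam k)) (pB c m) * τ +
      aeval (fun k => θ (lam k)) (pC m) := by
  rw [Matrix.det_fin_two]
  simp only [fm, pB, pC, map_sub, map_add, map_mul, aeval_lin, aeval_Cint, pA]
  push_cast
  ring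

/-- A rational functional killing the near-one parts of the second matrix kills those of the
first one. -/
lemma kill (c₁ c₂ : Fin 2 → Fin 2 → ℤ) (m₁ m₂ : Fin 2 → Fin 2 → Fin r → ℤ) (lam : Fin r → ℝ)
    (ℓ : ℝ) (M₁ : Matrix (Fin 2) (Fin 2) ℝ)
    (hM₁ : ∀ i j, M₁ i j = (c₁ i j : ℝ) * ℓ + ∑ k, (m₁ i j k : ℝ) * lam k)
    (hd : M₁.det = 0) (hr : RowsIndep M₁) (hc : RowsIndep M₁.transpose)
    (κ : ℚ)
    (h : ∀ (τ : ℝ) (θ : ℝ →ₗ[ℚ] ℝ),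
      (fm c₂ m₂ lam τ θ).det = κ * (fm c₁ m₁ lam τ θ).det) (hκ : κ ≠ 0)
    (θ : ℝ →ₗ[ℚ] ℝ) (hθ : ∀ i j, ∑ k, (m₂ i j k : ℝ) * θ (lam k) = 0)
    (x : Fin r → ℚ) (hx : ∀ k, θ (lam k) = x k) :
    ∀ i j, ∑ k, (m₁ i j k : ℝ) * θ (lam k) = 0 := by
  have hκ' : (κ : ℝ) ≠ 0 := by exact_mod_cast hκ
  let X : Matrix (Fin 2) (Fin 2) ℚ := fun i j => ∑ k, (m₁ i j k : ℚ) * x k
  have hX : ∀ i j, toR X i j = ∑ k, (m₁ i j k : ℝ) * θ (lam k) := by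
    intro i j
    change ((∑ k, (m₁ i j k : ℚ) * x k : ℚ) : ℝ) = _
    simp only [hx]
    push_cast
    rfl
  have e1 : ∀ (τ : ℝ) (ψ : ℝ →ₗ[ℚ] ℝ), fm c₁ m₁ lam τ (ψ + θ) = fm c₁ m₁ lam τ ψ + toR X := by
    intro τ ψ
    ext i j
    rw [Matrix.add_apply, hX]
    simp only [fm, LinearMap.add_apply, mul_add, Finset.sum_add_distrib]
    ring
  have e2 : ∀ (τ : ℝ) (ψ : ℝ →ₗ[ℚ] ℝ), fm c₂ m₂ lam τ (ψ + θ) = fm c₂ m₂ lam τ ψ := by
    intro τ ψ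
    ext i j
    simp only [fm, LinearMap.add_apply, mul_add, Finset.sum_add_distrib, hθ]
    ring
  have key : ∀ (τ : ℝ) (ψ : ℝ →ₗ[ℚ] ℝ),
      (fm c₁ m₁ lam τ ψ + toR X).det = (fm c₁ m₁ lam τ ψ).det := by
    intro τ ψ
    have h1 := h τ (ψ + θ)
    rw [e1, e2, h τ ψ] at h1
    exact (mul_left_cancel₀ hκ' h1).symm
  have k0 : (fm c₁ m₁ lam 0 0) = 0 := by
    ext i j
    simp [fm]
  have kX : X.det = 0 := by
    have h1 := key 0 0
    rw [k0, zero_add, Matrix.det_zero] at h1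
    simp only [Matrix.det_fin_two, toR, Matrix.map_apply] at h1 ⊢
    exact_mod_cast h1
  have kM : fm c₁ m₁ lam ℓ LinearMap.id = M₁ := by
    ext i j
    rw [hM₁]
    simp [fm]
  have hXz : X = 0 := by
    apply isotropic_zero M₁ hd hr hc X kX
    have h1 := key ℓ LinearMap.id
    rw [kM, det_add_two, hd] at h1
    have h2 : (toR X).det = 0 := by
      have h3 := key 0 0
      rwa [k0, zero_add, Matrix.det_zero] at h3
    rw [h2, pol_comm] at h1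
    linarith
  intro i j
  rw [← hX, hXz]
  simp [toR]

end Pool.Agent.ExScale
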