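import Mathlib
import Pool.Agent.ExScale.Kill
import Pool.Agent.Results.MP_bbc1fa_nt.AlgIndepNearOne

/-!
# Formal proportionality at one scale
-/

set_option autoImplicit false

namespace Pool.Agent.ExScale

open MvPolynomial Pool.Agent.OneClass Pool.Agent.Results.MP_bbc1fa_nt

/-- At one scale: a singular matrix and a nearly singular one have proportional formal
determinants, with a free variable in place of `ℓ`. -/
theorem formal_at_scale (r : ℕ) (δ A : ℝ) (hδ : 0 < δ) :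
    ∃ C H₀ : ℝ, ∀ H : ℝ, H₀ ≤ H → ∀ (g : Fin r → ℚ) (ℓ : ℝ),
      (∀ k, 0 < g k) →
      (∀ k, ((g k).den : ℝ) ≤ H) →
      (∀ k, |(g k : ℝ) - 1| ≤ H ^ (-δ)) →
      ∀ (c c' : Fin 2 → Fin 2 → ℤ) (m m' : Fin 2 → Fin 2 → Fin r → ℤ)
        (M M' : Matrix (Fin 2) (Fin 2) ℝ),
      (∀ i j, |(c i j : ℝ)| ≤ H ^ A) → (∀ i j k, |(m i j k : ℝ)| ≤ H ^ A) →
      (∀ i j, |(c' i j : ℝ)| ≤ H ^ A) → (∀ i j k, |(m' i j k : ℝ)| ≤ H ^ A) →
      (∀ i j, M i j = (c i j : ℝ) * ℓ + ∑ k, (m i j k : ℝ) * Real.log (g k)) →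
      (∀ i j, M' i j = (c' i j : ℝ) * ℓ + ∑ k, (m' i j k : ℝ) * Real.log (g k)) →
      RowsIndep M → RowsIndep M.transpose → RowsIndep M' → RowsIndep M'.transpose →
      M'.det = 0 → |M.det| < H ^ (-C) →
      ∃ κ : ℚ, κ ≠ 0 ∧ ∀ (τ : ℝ) (θ : ℝ →ₗ[ℚ] ℝ),
        (fm c m (fun k => Real.log (g k)) τ θ).det =
          κ * (fm c' m' (fun k => Real.log (g k)) τ θ).det := by
  set B : ℝ := max A 0 with hB
  have hB0 : 0 ≤ B := le_max_right _ _
  obtain ⟨C₀, H₁, hmain⟩ := AlgIndepNearOne.result r 4 δ (8 * B + 1) hδ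
  refine ⟨max C₀ 0 + (8 * B + 1), max H₁ (max (500 * ((r:ℝ) + 1) ^ 8) (2 ^ (1 / δ))),
    fun H hH g ℓ hg hden hclose c c' m m' M M' hc hm hc' hm'
    hM hM' hr hcol hr' hcol' hd' hsmall => ?_⟩
  have hH1 : H₁ ≤ H := (le_max_left _ _).trans hH
  have hH2 : 500 * ((r:ℝ) + 1) ^ 8 ≤ H := ((le_max_left _ _).trans (le_max_right _ _)).trans hH
  have hH3 : (2:ℝ) ^ (1 / δ) ≤ H := ((le_max_right _ _).trans (le_max_right _ _)).trans hH
  have hr0 : (0:ℝ) ≤ r := Nat.cast_nonneg r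
  have hHone : 1 ≤ H := by
    have : (1:ℝ) ≤ ((r:ℝ) + 1) ^ 8 := one_le_pow₀ (by linarith)
    linarith
  have hHpos : 0 < H := by linarith
  have hHδ : H ^ (-δ) ≤ 1 / 2 := by
    have h2 : ((2:ℝ) ^ (1 / δ)) ^ δ ≤ H ^ δ := by
      apply Real.rpow_le_rpow (by positivity) hH3 hδ.le
    rw [← Real.rpow_mul (by norm_num), one_div_mul_cancel hδ.ne', Real.rpow_one] at h2
    rw [Real.rpow_neg hHpos.le, one_div]
    exact inv_anti₀ (by norm_num) h2
  have hlam : ∀ k, |Real.log (g k)| ≤ 1 := by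
    intro k
    have h1 := (hclose k).trans hHδ
    rw [abs_le] at h1
    have hgpos : (0:ℝ) < g k := by exact_mod_cast hg k
    rw [abs_le]
    constructor
    · have h3 := Real.one_sub_inv_le_log_of_pos hgpos
      have h4 : ((g k : ℝ))⁻¹ ≤ 2 := by
        rw [inv_le_comm₀ hgpos (by norm_num)]
        linarith
      linarith
    · have := Real.log_le_sub_one_of_pos hgpos
      linarith
  have hT : 1 ≤ H ^ B := Real.one_le_rpow hHone hB0
  have hAB : H ^ A ≤ H ^ B := Real.rpow_le_rpow_of_exponent_le hHone (le_max_left _ _)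
  have hU8 : 500 * (((r:ℝ) + 1) * H ^ B) ^ 8 ≤ H ^ (8 * B + 1) := by
    rw [mul_pow, Real.rpow_add hHpos, Real.rpow_one, ← Real.rpow_natCast (H ^ B) 8,
      ← Real.rpow_mul hHpos.le]
    have h1 : H ^ (B * ((8:ℕ) : ℝ)) = H ^ (8 * B) := by
      congr 1
      push_cast
      ring
    rw [h1, ← mul_assoc, mul_comm (H ^ (8 * B)) H]
    exact mul_le_mul_of_nonneg_right hH2 (Real.rpow_nonneg hHpos.le _)
  have hη1 : |M.det| ≤ 1 := by
    refine hsmall.le.trans ?_
    apply Real.rpow_le_one_of_one_le_of_nonpos hHone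
    have := le_max_right C₀ 0
    linarith
  simp only [det_fm]
  refine formal_of_generic c c' m m' (H ^ B) hT (fun i j => (hc i j).trans hAB)
    (fun i j k => (hm i j k).trans hAB) (fun i j => (hc' i j).trans hAB)
    (fun i j k => (hm' i j k).trans hAB) (fun k => Real.log (g k)) hlam ℓ |M.det| hη1 ?_ M M'
    hM hM' le_rfl hd' hr hcol hr' hcol'
  intro F hF1 hF2 hF3 θ
  refine hmain H hH1 g F hg hden hclose hF1 (fun α => ?_) ?_ (fun k => θ (Real.log (g k))) ?_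
  · refine (coeff_le_L1 F α).trans (hF2.trans (le_trans ?_ hU8))
    have : (0:ℝ) ≤ (((r:ℝ) + 1) * H ^ B) ^ 8 := by positivity
    linarith
  · refine lt_of_le_of_lt (hF3.trans (mul_le_mul_of_nonneg_right hU8 (abs_nonneg _))) ?_
    have h1 : H ^ (8 * B + 1) * |M.det| <
        H ^ (8 * B + 1) * H ^ (-(max C₀ 0 + (8 * B + 1))) :=
      mul_lt_mul_of_pos_left hsmall (Real.rpow_pos_of_pos hHpos _)
    refine lt_of_lt_of_le h1 ?_
    rw [← Real.rpow_add hHpos]
    apply Real.rpow_le_rpow_of_exponent_le hHone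
    have := le_max_left C₀ 0
    linarith
  · intro n hn
    have hg0 : ∀ k, (g k : ℝ) ≠ 0 := fun k => by exact_mod_cast (hg k).ne'
    have h1 : ∑ k, (n k : ℝ) * Real.log (g k) = 0 := by
      have h2 : Real.log ((∏ k, g k ^ n k : ℚ) : ℝ) = Real.log ((1 : ℚ) : ℝ) := by rw [hn]
      push_cast at h2
      rw [Real.log_prod (fun k _ => zpow_ne_zero _ (hg0 k)), Real.log_one] at h2
      rw [← h2]
      apply Finset.sum_congr rfl
      intro k _
      rw [Real.log_zpow]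
    have h3 := congrArg θ h1
    rw [map_zero, map_sum] at h3
    rw [← h3]
    apply Finset.sum_congr rfl
    intro k _
    have : ((n k : ℝ) * Real.log (g k)) = (n k : ℤ) • Real.log (g k) := by simp
    rw [this, map_zsmul]
    simp

end Pool.Agent.ExScale
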