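import Mathlib
import Pool.Agent.FewGroups.Small

/-!
# A logarithm in the span of small logarithms is small
-/

set_option autoImplicit false

namespace Pool.Agent.ExScale

open Pool.Agent.FewGroups

/-- If `log a` is a rational combination of the `log (t k)`, which are at most `ε` in absolute
value, then `|log a|` is at most `ε` times a polynomial in the valuations. -/
lemma small_of_mem {r : ℕ} (t : Fin r → ℚ) (ht : ∀ k, 0 < t k) (a : ℚ) (ha : 0 < a)
    (Λ : ℝ) (hΛ : 1 ≤ Λ) (ε : ℝ) (hε : 0 ≤ ε)
    (hbt : ∀ k (p : ℕ), p.Prime → |((padicValRat p (t k) : ℤ) : ℝ)| ≤ Λ)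
    (hba : ∀ (p : ℕ), p.Prime → |((padicValRat p a : ℤ) : ℝ)| ≤ Λ)
    (hlog : ∀ k, |Real.log (t k)| ≤ ε)
    (hmem : Real.log a ∈ logSpan t) :
    |Real.log a| ≤ (r : ℝ) * ((r.factorial : ℝ) * Λ ^ r) * ε := by
  classical
  have hmemv : val a ∈ Submodule.span ℚ (Set.range fun s => val (t s)) := by
    have h := mem_logSpan_iff t ht (fun _ : Unit => a) (fun _ => ha) (fun _ => (1 : ℤ))
    simp only [Finset.univ_unique, Int.cast_one, one_mul, Finset.sum_const, Finset.card_singleton,
      one_smul] at h
    exact h.mp hmem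
  obtain ⟨b, hb1, hb2, hb3⟩ := exists_linearIndependent ℚ (Set.range fun s => val (t s))
  have hbfin : b.Finite := (Set.finite_range _).subset hb1
  let _ : Fintype b := hbfin.fintype
  have hcard : Fintype.card b ≤ r := by
    have h1 : Function.Surjective
        (fun s : {s : Fin r // val (t s) ∈ b} => (⟨val (t s), s.2⟩ : b)) := by
      rintro ⟨x, hx⟩
      obtain ⟨s, hs⟩ := hb1 hx
      simp only at hs
      exact ⟨⟨s, by rw [hs]; exact hx⟩, by simp [hs]⟩
    refine (Fintype.card_le_of_surjective _ h1).trans ?_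
    have := Fintype.card_subtype_le (fun s : Fin r => val (t s) ∈ b)
    simpa using this
  have hpre : ∀ j : b, ∃ s, val (t s) = (j : Nat.Primes → ℚ) := fun j => hb1 j.2
  choose s hs using hpre
  have hli : LinearIndependent ℚ (fun j : b => val (t (s j))) := by
    have h1 : (fun j : b => val (t (s j))) = (fun x : b => (x : Nat.Primes → ℚ)) := by
      funext j
      rw [hs j]
    rw [h1]
    exact hb3
  have hspan : val a ∈ Submodule.span ℚ (Set.range fun j : b => val (t (s j))) := by
    have h1 : (Set.range fun j : b => val (t (s j))) = b := by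
      ext x
      constructor
      · rintro ⟨j, rfl⟩
        simp only [hs j]
        exact j.2
      · intro hx
        exact ⟨⟨x, hx⟩, by simp only [hs]⟩
    rw [h1, hb2]
    exact hmemv
  obtain ⟨D, c, hD, hDle, hcle, hrel⟩ := cramer_val (fun j : b => t (s j)) hli Λ
    (fun j p hp => hbt (s j) p hp) a hba hspan
  have h1 := (log_zero_iff (Sum.elim (fun _ : Unit => a) (fun j : b => t (s j)))
    (by rintro (u | j); exacts [ha, ht (s j)])
    (Sum.elim (fun _ => -(D : ℚ)) (fun j => (c j : ℚ)))).mpr (by
      simp only [Fintype.sum_sum_type, Sum.elim_inl, Sum.elim_inr, Finset.univ_unique,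
        Finset.sum_const, Finset.card_singleton, one_smul, neg_smul]
      rw [← hrel, neg_add_cancel])
  simp only [Fintype.sum_sum_type, Sum.elim_inl, Sum.elim_inr, Finset.univ_unique,
    Finset.sum_const, Finset.card_singleton, one_smul] at h1
  push_cast at h1
  have h2 : (D : ℝ) * Real.log a = ∑ j : b, (c j : ℝ) * Real.log (t (s j)) := by linarith
  have h3 : (1:ℝ) ≤ |(D : ℝ)| := by
    rw [← Int.cast_abs]
    exact_mod_cast Int.one_le_abs hD
  have h4 : |Real.log a| ≤ |(D : ℝ) * Real.log a| := by
    rw [abs_mul]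
    exact le_mul_of_one_le_left (abs_nonneg _) h3
  refine h4.trans ?_
  rw [h2]
  refine (Finset.abs_sum_le_sum_abs _ _).trans ?_
  have h5 : ∀ j ∈ (Finset.univ : Finset b), |(c j : ℝ) * Real.log (t (s j))| ≤
      ((r.factorial : ℝ) * Λ ^ r) * ε := by
    intro j _
    rw [abs_mul]
    refine mul_le_mul ((hcle j).trans ?_) (hlog _) (abs_nonneg _) (by positivity)
    refine mul_le_mul (by exact_mod_cast Nat.factorial_le hcard)
      (pow_le_pow_right₀ hΛ hcard) (by positivity) (by positivity)
  refine (Finset.sum_le_sum h5).trans ?_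
  rw [Finset.sum_const, nsmul_eq_mul, Finset.card_univ, mul_assoc (r : ℝ)]
  have h6 : ((Fintype.card b : ℕ) : ℝ) ≤ (r : ℝ) := by exact_mod_cast hcard
  exact mul_le_mul_of_nonneg_right h6 (by positivity)

end Pool.Agent.ExScale
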