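import Mathlib
import Pool.Agent.ExScale.Scale
import Pool.Agent.ExScale.SmallRel

/-!
# A singular matrix at one scale repels all matrices at the later scales
-/

set_option autoImplicit false

namespace Pool.Agent.ExScale

open MvPolynomial Pool.Agent.OneClass Pool.Agent.FewGroups Pool.Agent.Results.MP_bbc1fa_nt

/-- A singular matrix with independent rows is not proportional to an integer matrix. -/
lemma exists_near_ne (c : Fin 2 → Fin 2 → ℤ) (w : Fin 2 → Fin 2 → ℝ) (ℓ : ℝ)
    (M : Matrix (Fin 2) (Fin 2) ℝ) (hM : ∀ i j, M i j = (c i j : ℝ) * ℓ + w i j)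
    (hd : M.det = 0) (hr : RowsIndep M) : ∃ i j, w i j ≠ 0 := by
  by_contra hcon
  push Not at hcon
  have hM' : ∀ i j, M i j = (c i j : ℝ) * ℓ := by
    intro i j
    rw [hM, hcon, add_zero]
  rw [Matrix.det_fin_two] at hd
  simp only [hM'] at hd
  by_cases hℓ : ℓ = 0
  · have := hr 1 0 (fun j => by rw [hM', hM', hℓ]; simp)
    exact one_ne_zero this.1
  have hdet : (c 0 0 : ℝ) * c 1 1 - c 0 1 * c 1 0 = 0 := by
    have h1 : ℓ ^ 2 * ((c 0 0 : ℝ) * c 1 1 - c 0 1 * c 1 0) = 0 := by linear_combination hd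
    exact (mul_eq_zero.mp h1).resolve_left (pow_ne_zero 2 hℓ)
  have h1 := hr (c 1 0) (-(c 0 0)) (fun j => by
    rw [hM', hM']
    push_cast
    fin_cases j <;> simp only [Fin.zero_eta, Fin.mk_one, Fin.isValue]
    · ring
    · linear_combination (-ℓ) * hdet)
  have h2 := hr (c 1 1) (-(c 0 1)) (fun j => by
    rw [hM', hM']
    push_cast
    fin_cases j <;> simp only [Fin.zero_eta, Fin.mk_one, Fin.isValue]
    · linear_combination ℓ * hdet
    · ring)
  have e10 : (c 1 0 : ℝ) = 0 := by exact_mod_cast h1.1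
  have e00 : (c 0 0 : ℝ) = 0 := by
    have := h1.2
    rw [neg_eq_zero] at this
    exact_mod_cast this
  have := hr 1 0 (fun j => by
    rw [hM', hM']
    have e01 : (c 0 1 : ℝ) = 0 := by
      have := h2.2
      rw [neg_eq_zero] at this
      exact_mod_cast this
    fin_cases j <;> simp [e00, e01])
  exact one_ne_zero this.1

/-- If every functional with rational values killing the logarithms of the `g'` kills `w`, then
`w` is in their span. -/
lemma mem_logSpan_of_functional {r : ℕ} (g' : Fin r → ℚ) (w : ℝ)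
    (h : ∀ f : ℝ →ₗ[ℚ] ℚ, (∀ k, f (Real.log (g' k)) = 0) → f w = 0) : w ∈ logSpan g' := by
  by_contra hw
  obtain ⟨f, hf, hle⟩ := Submodule.exists_le_ker_of_notMem hw
  exact hf (h f (fun k => LinearMap.mem_ker.mp (hle (log_mem_logSpan g' k))))

/-- The near-one parts of a singular matrix at one scale lie in the span of the logarithms at the
other scale. -/
lemma near_mem {r : ℕ} (g g' : Fin r → ℚ) (ℓ : ℝ) (c c' : Fin 2 → Fin 2 → ℤ)
    (m m' : Fin 2 → Fin 2 → Fin r → ℤ) (M : Matrix (Fin 2) (Fin 2) ℝ)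
    (hM : ∀ i j, M i j = (c i j : ℝ) * ℓ + ∑ k, (m i j k : ℝ) * Real.log (g k))
    (hd : M.det = 0) (hr : RowsIndep M) (hc : RowsIndep M.transpose) (κ : ℚ) (hκ : κ ≠ 0)
    (h : ∀ (τ : ℝ) (θ : ℝ →ₗ[ℚ] ℝ),
      (fm c' (fun i j => Fin.append (fun _ => (0 : ℤ)) (m' i j))
        (fun k => Real.log (Fin.append g g' k : ℚ)) τ θ).det =
      κ * (fm c (fun i j => Fin.append (m i j) (fun _ => (0 : ℤ)))
        (fun k => Real.log (Fin.append g g' k : ℚ)) τ θ).det) (i j : Fin 2) :
    ∑ k, (m i j k : ℝ) * Real.log (g k) ∈ logSpan g' := by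
  apply mem_logSpan_of_functional
  intro f hf
  let θ : ℝ →ₗ[ℚ] ℝ := (Algebra.linearMap ℚ ℝ).comp f
  have hθ : ∀ x, θ x = ((f x : ℚ) : ℝ) := fun x => rfl
  have h1 := kill c c' (fun i j => Fin.append (m i j) (fun _ => (0 : ℤ)))
    (fun i j => Fin.append (fun _ => (0 : ℤ)) (m' i j))
    (fun k => Real.log (Fin.append g g' k : ℚ)) ℓ M (by
      intro i j
      rw [hM, Fin.sum_univ_add]
      simp only [Fin.append_left, Fin.append_right, Int.cast_zero, zero_mul,
        Finset.sum_const_zero, add_zero]) hd hr hc κ h hκ θ (by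
      intro i j
      rw [Fin.sum_univ_add]
      simp only [Fin.append_left, Fin.append_right, Int.cast_zero, zero_mul,
        Finset.sum_const_zero, zero_add, hθ, hf, Rat.cast_zero, mul_zero]) (fun k => f (Real.log (Fin.append g g' k : ℚ))) (fun k => hθ _) i j
  rw [Fin.sum_univ_add] at h1
  simp only [Fin.append_left, Fin.append_right, Int.cast_zero, zero_mul, Finset.sum_const_zero,
    add_zero] at h1
  have h2 : θ (∑ k, (m i j k : ℝ) * Real.log (g k)) = 0 := by
    rw [map_sum, ← h1]
    apply Finset.sum_congr rfl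
    intro k _
    have : ((m i j k : ℝ) * Real.log (g k)) = (m i j k : ℤ) • Real.log (g k) := by simp
    rw [this, map_zsmul]
    simp
  rw [hθ] at h2
  exact_mod_cast h2

end Pool.Agent.ExScale
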