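import Mathlib
import Pool.Agent.ExScale.Main

/-!
# The quantitative statement for two scales
-/

set_option autoImplicit false

namespace Pool.Agent.ExScale

open MvPolynomial Pool.Agent.OneClass Pool.Agent.FewGroups Pool.Agent.Results.MP_bbc1fa_nt

lemma abs_log_le_two (x : ℝ) (h : |x - 1| ≤ 1 / 2) : |Real.log x| ≤ 2 * |x - 1| := by
  have h1 := abs_le.mp h
  have hx : 0 < x := by linarith
  rw [abs_le]
  constructor
  · have h3 := Real.one_sub_inv_le_log_of_pos hx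
    have h4 : -(2 * |x - 1|) ≤ 1 - x⁻¹ := by
      have h5 : 1 - x⁻¹ = (x - 1) * x⁻¹ := by field_simp
      have h6 : x⁻¹ ≤ 2 := by
        rw [inv_le_comm₀ hx (by norm_num)]
        linarith
      have h7 : 0 < x⁻¹ := inv_pos.mpr hx
      have h8 : |(x - 1) * x⁻¹| ≤ |x - 1| * 2 := by
        rw [abs_mul, abs_of_pos h7]
        exact mul_le_mul_of_nonneg_left h6 (abs_nonneg _)
      have h9 := neg_abs_le ((x - 1) * x⁻¹)
      rw [h5]
      linarith
    linarith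
  · have h3 := Real.log_le_sub_one_of_pos hx
    have h4 := le_abs_self (x - 1)
    have h5 := abs_nonneg (x - 1)
    linarith

lemma val_le (q : ℚ) (hq : 0 < q) (H : ℝ) (hden : (q.den : ℝ) ≤ H) (hH : 1 ≤ H)
    (hclose : |(q : ℝ) - 1| ≤ 1 / 2) (p : ℕ) (hp : p.Prime) :
    |((padicValRat p q : ℤ) : ℝ)| ≤ Real.log (2 * H) / Real.log 2 := by
  apply padic_bound p hp q hq
  · have h1 := (abs_le.mp hclose).2
    have h2 : (q.num : ℝ) = (q : ℝ) * q.den := by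
      have := Rat.mul_den_eq_num q
      exact_mod_cast this.symm
    rw [h2]
    have h3 : (q : ℝ) ≤ 2 := by linarith
    exact mul_le_mul h3 hden (Nat.cast_nonneg _) (by norm_num)
  · linarith

/-- Lower bound for a linear form at one scale. -/
lemma lower (r : ℕ) (δ A : ℝ) (hδ : 0 < δ) (hA : 0 ≤ A) :
    ∃ C H₀ : ℝ, ∀ H : ℝ, H₀ ≤ H → ∀ (g : Fin r → ℚ), (∀ k, 0 < g k) →
      (∀ k, ((g k).den : ℝ) ≤ H) → (∀ k, |(g k : ℝ) - 1| ≤ H ^ (-δ)) →
      ∀ n : Fin r → ℤ, (∀ k, |(n k : ℝ)| ≤ H ^ A) →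
      ∑ k, (n k : ℝ) * Real.log (g k) ≠ 0 →
      H ^ (-C) ≤ |∑ k, (n k : ℝ) * Real.log (g k)| := by
  obtain ⟨C, H₁, hmain⟩ := AlgIndepNearOne.result r 1 δ (A + 1) hδ
  refine ⟨C, max H₁ ((r:ℝ) + 1), fun H hH g hg hden hclose n hn hne => ?_⟩
  have hH1 : H₁ ≤ H := (le_max_left _ _).trans hH
  have hH2 : (r:ℝ) + 1 ≤ H := (le_max_right _ _).trans hH
  have hr0 : (0:ℝ) ≤ r := Nat.cast_nonneg r
  have hHpos : 0 < H := by linarith
  by_contra hcon
  push Not at hcon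
  apply hne
  have h1 := hmain H hH1 g (lin n) hg hden hclose ((lin_hom n).totalDegree_le)
    (fun α => ?_) (by rw [aeval_lin]; exact hcon) (fun k => Real.log (g k)) (fun e he => ?_)
  · rwa [aeval_lin] at h1
  · refine (coeff_le_L1 _ α).trans ((L1_lin_le n (H ^ A) (by positivity) hn).trans ?_)
    rw [Real.rpow_add hHpos, Real.rpow_one, mul_comm]
    exact mul_le_mul_of_nonneg_left hH2 (by positivity)
  · rw [← log_comb g hg e, he]
    simp

/-- Upper bound for a linear form in the span at the later scale. -/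
lemma upper (r : ℕ) (δ A : ℝ) (hδ : 0 < δ) (hA : 0 ≤ A) :
    ∃ K : ℝ, ∀ H H' : ℝ, 1 ≤ H → H ≤ H' → H ^ (-δ) ≤ 1 / 2 →
      ∀ (g g' : Fin r → ℚ), (∀ k, 0 < g k) → (∀ k, ((g k).den : ℝ) ≤ H) →
      (∀ k, |(g k : ℝ) - 1| ≤ H ^ (-δ)) → (∀ k, 0 < g' k) → (∀ k, ((g' k).den : ℝ) ≤ H') →
      (∀ k, |(g' k : ℝ) - 1| ≤ H' ^ (-δ)) →
      ∀ n : Fin r → ℤ, (∀ k, |(n k : ℝ)| ≤ H ^ A) →
      ∑ k, (n k : ℝ) * Real.log (g k) ∈ logSpan g' →
      |∑ k, (n k : ℝ) * Real.log (g k)| ≤ K * H ^ (A * r) * H' ^ (-(δ / 2)) := by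
  have hr0 : (0:ℝ) ≤ r := Nat.cast_nonneg r
  set η : ℝ := δ / (2 * ((r:ℝ) + 1)) with hη
  have hη0 : 0 < η := by positivity
  have hlog2 : 0 < Real.log 2 := Real.log_pos (by norm_num)
  set K₁ : ℝ := 2 ^ η / η / Real.log 2 with hK₁
  have hK₁0 : 0 < K₁ := by positivity
  refine ⟨(r:ℝ) * ((r.factorial : ℝ) * ((r:ℝ) + 1) ^ r * K₁ ^ r) * 2,
    fun H H' hH hHH' hhalf g g' hg hden hclose hg' hden' hclose' n hn hmem => ?_⟩
  have hHpos : 0 < H := by linarith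
  have hH'1 : 1 ≤ H' := hH.trans hHH'
  have hH'pos : 0 < H' := by linarith
  have hhalf' : H' ^ (-δ) ≤ 1 / 2 := by
    refine le_trans ?_ hhalf
    exact Real.rpow_le_rpow_of_nonpos hHpos hHH' (by linarith)
  set a : ℚ := ∏ k, g k ^ n k with ha
  have ha0 : 0 < a := Finset.prod_pos (fun k _ => zpow_pos (hg k) _)
  have hlog : Real.log a = ∑ k, (n k : ℝ) * Real.log (g k) := log_comb g hg n
  rw [← hlog] at hmem ⊢
  set L : ℝ := Real.log (2 * H') / Real.log 2 with hL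
  have hL1 : 1 ≤ L := by
    rw [hL, le_div_iff₀ hlog2, one_mul]
    exact Real.log_le_log (by norm_num) (by linarith)
  have hHA : 1 ≤ H ^ A := Real.one_le_rpow hH hA
  set Λ : ℝ := ((r:ℝ) + 1) * H ^ A * L with hΛ
  have hΛ1 : 1 ≤ Λ := by
    rw [hΛ]
    have h1 : 1 ≤ ((r:ℝ) + 1) * H ^ A := by nlinarith
    nlinarith
  have hLΛ : L ≤ Λ := by
    rw [hΛ]
    have h1 : 1 ≤ ((r:ℝ) + 1) * H ^ A := by nlinarith
    nlinarith
  have hbt : ∀ k (p : ℕ), p.Prime → |((padicValRat p (g' k) : ℤ) : ℝ)| ≤ Λ := fun k p hp =>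
    (val_le (g' k) (hg' k) H' (hden' k) hH'1 ((hclose' k).trans hhalf') p hp).trans hLΛ
  have hba : ∀ (p : ℕ), p.Prime → |((padicValRat p a : ℤ) : ℝ)| ≤ Λ := by
    intro p hp
    haveI : Fact p.Prime := ⟨hp⟩
    rw [ha, padic_finset Finset.univ g hg n p]
    push_cast
    refine (Finset.abs_sum_le_sum_abs _ _).trans ?_
    have h1 : ∀ k ∈ (Finset.univ : Finset (Fin r)),
        |(n k : ℝ) * ((padicValRat p (g k) : ℤ) : ℝ)| ≤ H ^ A * L := by
      intro k _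
      rw [abs_mul]
      refine mul_le_mul (hn k) ?_ (abs_nonneg _) (by positivity)
      refine (val_le (g k) (hg k) H (hden k) hH ((hclose k).trans hhalf) p hp).trans ?_
      rw [hL]
      exact div_le_div_of_nonneg_right (Real.log_le_log (by linarith) (by linarith)) hlog2.le
    refine (Finset.sum_le_sum h1).trans ?_
    rw [Finset.sum_const, nsmul_eq_mul, Finset.card_univ, Fintype.card_fin, hΛ, mul_assoc]
    have h2 : 0 ≤ H ^ A * L := by positivity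
    nlinarith
  have hsm := small_of_mem g' hg' a ha0 Λ hΛ1 (2 * H' ^ (-δ)) (by positivity) hbt hba
    (fun k => (abs_log_le_two _ ((hclose' k).trans hhalf')).trans
      (mul_le_mul_of_nonneg_left (hclose' k) (by norm_num))) hmem
  refine hsm.trans ?_
  -- bound `Λ ^ r`
  have hLle : L ≤ K₁ * H' ^ η := by
    rw [hL, hK₁]
    have h1 := Real.log_le_rpow_div (x := 2 * H') (by positivity) hη0
    rw [Real.mul_rpow (by norm_num) hH'pos.le] at h1
    rw [div_le_iff₀ hlog2]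
    refine h1.trans (le_of_eq ?_)
    field_simp
  have hLr : L ^ r ≤ K₁ ^ r * H' ^ (δ / 2) := by
    calc L ^ r ≤ (K₁ * H' ^ η) ^ r := pow_le_pow_left₀ (by linarith) hLle r
      _ = K₁ ^ r * H' ^ (η * r) := by
        rw [mul_pow, ← Real.rpow_natCast (H' ^ η) r, ← Real.rpow_mul hH'pos.le]
      _ ≤ K₁ ^ r * H' ^ (δ / 2) := by
        apply mul_le_mul_of_nonneg_left _ (by positivity)
        apply Real.rpow_le_rpow_of_exponent_le hH'1
        rw [hη, div_mul_eq_mul_div, div_le_div_iff₀ (by positivity) (by norm_num)]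
        nlinarith
  have hΛr : Λ ^ r ≤ (((r:ℝ) + 1) ^ r * K₁ ^ r) * (H ^ (A * r) * H' ^ (δ / 2)) := by
    rw [hΛ, mul_pow, mul_pow]
    have h1 : (H ^ A) ^ r = H ^ (A * r) := by
      rw [← Real.rpow_natCast (H ^ A) r, ← Real.rpow_mul hHpos.le]
    rw [h1]
    calc ((r:ℝ) + 1) ^ r * H ^ (A * r) * L ^ r
        ≤ ((r:ℝ) + 1) ^ r * H ^ (A * r) * (K₁ ^ r * H' ^ (δ / 2)) :=
          mul_le_mul_of_nonneg_left hLr (by positivity)
      _ = _ := by ring
  have hexp : H' ^ (δ / 2) * H' ^ (-δ) = H' ^ (-(δ / 2)) := by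
    rw [← Real.rpow_add hH'pos]
    congr 1
    ring
  calc (r : ℝ) * ((r.factorial : ℝ) * Λ ^ r) * (2 * H' ^ (-δ))
      ≤ (r : ℝ) * ((r.factorial : ℝ) *
        ((((r:ℝ) + 1) ^ r * K₁ ^ r) * (H ^ (A * r) * H' ^ (δ / 2)))) * (2 * H' ^ (-δ)) := by
        apply mul_le_mul_of_nonneg_right _ (by positivity)
        apply mul_le_mul_of_nonneg_left _ hr0
        exact mul_le_mul_of_nonneg_left hΛr (by positivity)
    _ = (r:ℝ) * ((r.factorial : ℝ) * ((r:ℝ) + 1) ^ r * K₁ ^ r) * 2 * H ^ (A * r) *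
        (H' ^ (δ / 2) * H' ^ (-δ)) := by ring
    _ = _ := by rw [hexp]

end Pool.Agent.ExScale
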