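import Mathlib
import Pool.Agent.ExScale.Pair

/-!
# Separation of scales

The span of the logarithms of rationals near `1` at one scale meets the span of those at a much
later scale only in `0`.
-/

set_option autoImplicit false

namespace Pool.Agent.ExScale

open Filter Topology Pool.Agent.OneClass Pool.Agent.FewGroups

/-- Powers of the logarithm are eventually smaller than powers, in the form used below. -/
lemma eventually_log_le (c : ℕ) (K B η : ℝ) (hη : 0 < η) :
    ∃ H₀ : ℝ, ∀ H H'' : ℝ, H₀ ≤ H → H ≤ H'' → H'' ≤ H ^ B →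
      K * (Real.log (2 * H'') / Real.log 2) ^ c ≤ H ^ η := by
  have hlog2 : 0 < Real.log 2 := Real.log_pos (by norm_num)
  have h1 : Tendsto (fun H : ℝ => |K| * ((1 + |B|) / Real.log 2) ^ c *
      (Real.log H ^ c / H ^ η)) atTop (𝓝 (|K| * ((1 + |B|) / Real.log 2) ^ c * 0)) := by
    apply Tendsto.const_mul
    have h2 := isLittleO_log_rpow_rpow_atTop (c : ℝ) hη
    have h3 := h2.tendsto_div_nhds_zero
    refine h3.congr' ?_
    filter_upwards [eventually_gt_atTop 1] with x hx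
    rw [Real.rpow_natCast]
  rw [mul_zero] at h1
  obtain ⟨H₁, hH₁⟩ := eventually_atTop.mp ((h1.eventually_lt_const one_pos).and
    (eventually_ge_atTop (2:ℝ)))
  refine ⟨H₁, fun H H'' hH hHH'' hB => ?_⟩
  obtain ⟨h4, h5⟩ := hH₁ H hH
  have hH0 : 0 < H := by linarith
  have hlogH : 0 < Real.log H := Real.log_pos (by linarith)
  have hpow : 0 < H ^ η := Real.rpow_pos_of_pos hH0 _
  have h6 : Real.log (2 * H'') / Real.log 2 ≤ ((1 + |B|) / Real.log 2) * Real.log H := by
    rw [div_mul_eq_mul_div]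
    apply div_le_div_of_nonneg_right _ hlog2.le
    rw [Real.log_mul (by norm_num) (by linarith)]
    have h7 : Real.log 2 ≤ Real.log H := Real.log_le_log (by norm_num) h5
    have h8 : Real.log H'' ≤ B * Real.log H := by
      rw [← Real.log_rpow hH0]
      exact Real.log_le_log (by linarith) hB
    have h9 : B * Real.log H ≤ |B| * Real.log H :=
      mul_le_mul_of_nonneg_right (le_abs_self B) hlogH.le
    linarith
  have h10 : 0 ≤ Real.log (2 * H'') / Real.log 2 :=
    div_nonneg (Real.log_nonneg (by linarith)) hlog2.le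
  calc K * (Real.log (2 * H'') / Real.log 2) ^ c
      ≤ |K| * (((1 + |B|) / Real.log 2) * Real.log H) ^ c := by
        apply mul_le_mul (le_abs_self K) (pow_le_pow_left₀ h10 h6 c) (by positivity) (by positivity)
    _ = (|K| * ((1 + |B|) / Real.log 2) ^ c * (Real.log H ^ c / H ^ η)) * H ^ η := by
        rw [mul_pow]
        field_simp
    _ ≤ 1 * H ^ η := mul_le_mul_of_nonneg_right h4.le hpow.le
    _ = H ^ η := one_mul _

/-- The spans at separated scales meet in `0`. -/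
theorem sep (r R : ℕ) (δ : ℝ) (hδ : 0 < δ) :
    ∃ κ : ℝ, 1 ≤ κ ∧ ∀ B : ℝ, ∃ H₀ : ℝ, ∀ H H' H'' : ℝ, H₀ ≤ H → H ^ κ ≤ H' → H' ≤ H'' →
      H'' ≤ H ^ B → ∀ (g : Fin r → ℚ) (t : Fin R → ℚ),
      (∀ k, 0 < g k) → (∀ k, ((g k).den : ℝ) ≤ H) → (∀ k, |(g k : ℝ) - 1| ≤ H ^ (-δ)) →
      (∀ k, 0 < t k) → (∀ k, ((t k).den : ℝ) ≤ H'') → (∀ k, |(t k : ℝ) - 1| ≤ H' ^ (-δ)) →
      ∀ e : Fin r → ℤ, ∑ k, (e k : ℝ) * Real.log (g k) ∈ logSpan t →
      ∑ k, (e k : ℝ) * Real.log (g k) = 0 := by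
  have hlog2 : 0 < Real.log 2 := Real.log_pos (by norm_num)
  have hr0 : (0:ℝ) ≤ r := Nat.cast_nonneg r
  have hR0 : (0:ℝ) ≤ R := Nat.cast_nonneg R
  obtain ⟨C₁, H₁, hlow⟩ := lower r δ 1 hδ (by norm_num)
  refine ⟨max 1 ((max C₁ 0 + 2) / δ), le_max_left _ _, fun B => ?_⟩
  set κ : ℝ := max 1 ((max C₁ 0 + 2) / δ) with hκ
  have hκ1 : 1 ≤ κ := le_max_left _ _
  -- constants
  set N₀ : ℝ := ((R + r + 1).factorial : ℝ) with hN₀
  have hN₀1 : 1 ≤ N₀ := by
    rw [hN₀]
    exact_mod_cast Nat.factorial_pos _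
  set K₂ : ℝ := (r + 1) * N₀ with hK₂
  have hK₂1 : 1 ≤ K₂ := by
    rw [hK₂]
    nlinarith
  set K₃ : ℝ := (R : ℝ) * ((R.factorial : ℝ) * K₂ ^ R) * 2 with hK₃
  obtain ⟨H₂, hH₂⟩ := eventually_log_le (R + r) N₀ B 1 one_pos
  obtain ⟨H₃, hH₃⟩ := eventually_log_le ((R + r + 1) * R) K₃ B 1 one_pos
  refine ⟨max (max H₁ H₂) (max H₃ (max (2 ^ (1 / δ)) 2)),
    fun H H' H'' hH hκH hH'H'' hB g t hg hden hclose ht hdent hcloset e he => ?_⟩
  have a1 : H₁ ≤ H := ((le_max_left _ _).trans (le_max_left _ _)).trans hH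
  have a2 : H₂ ≤ H := ((le_max_right _ _).trans (le_max_left _ _)).trans hH
  have a3 : H₃ ≤ H := ((le_max_left _ _).trans (le_max_right _ _)).trans hH
  have a4 : (2:ℝ) ^ (1 / δ) ≤ H :=
    (((le_max_left _ _).trans (le_max_right _ _)).trans (le_max_right _ _)).trans hH
  have a5 : 2 ≤ H :=
    (((le_max_right _ _).trans (le_max_right _ _)).trans (le_max_right _ _)).trans hH
  have hH1 : 1 ≤ H := by linarith
  have hHpos : 0 < H := by linarith
  have hHH' : H ≤ H' := by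
    refine le_trans ?_ hκH
    conv_lhs => rw [← Real.rpow_one H]
    exact Real.rpow_le_rpow_of_exponent_le hH1 hκ1
  have hHH'' : H ≤ H'' := hHH'.trans hH'H''
  have hH'pos : 0 < H' := by linarith
  have hhalf : H ^ (-δ) ≤ 1 / 2 := by
    have h2 : ((2:ℝ) ^ (1 / δ)) ^ δ ≤ H ^ δ := by
      apply Real.rpow_le_rpow (by positivity) a4 hδ.le
    rw [← Real.rpow_mul (by norm_num), one_div_mul_cancel hδ.ne', Real.rpow_one] at h2
    rw [Real.rpow_neg hHpos.le, one_div]
    exact inv_anti₀ (by norm_num) h2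
  have hhalf' : H' ^ (-δ) ≤ 1 / 2 :=
    (Real.rpow_le_rpow_of_nonpos hHpos hHH' (by linarith)).trans hhalf
  set L : ℝ := Real.log (2 * H'') / Real.log 2 with hL
  have hL1 : 1 ≤ L := by
    rw [hL, le_div_iff₀ hlog2, one_mul]
    exact Real.log_le_log (by norm_num) (by linarith)
  have hbg : ∀ k (p : ℕ), p.Prime → |((padicValRat p (g k) : ℤ) : ℝ)| ≤ L := fun k p hp =>
    val_le (g k) (hg k) H'' ((hden k).trans hHH'') (by linarith) ((hclose k).trans hhalf) p hp
  have hbt : ∀ k (p : ℕ), p.Prime → |((padicValRat p (t k) : ℤ) : ℝ)| ≤ L := fun k p hp =>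
    val_le (t k) (ht k) H'' (hdent k) (by linarith) ((hcloset k).trans hhalf') p hp
  obtain ⟨n, hn1, hn2, hn3⟩ := small_generators t ht g hg L hL1 hbt hbg
  -- all generators vanish
  have hzero : ∀ i, ∑ k, (n i k : ℝ) * Real.log (g k) = 0 := by
    intro i
    by_contra hne
    have hnb : ∀ k, |(n i k : ℝ)| ≤ H ^ (1:ℝ) := fun k =>
      (hn1 i k).trans (hH₂ H H'' a2 hHH'' hB)
    have h1 := hlow H a1 g hg hden hclose (n i) hnb hne
    set a : ℚ := ∏ k, g k ^ n i k with ha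
    have ha0 : 0 < a := Finset.prod_pos (fun k _ => zpow_pos (hg k) _)
    have hlog : Real.log a = ∑ k, (n i k : ℝ) * Real.log (g k) := log_comb g hg (n i)
    have hmem := hn2 i
    rw [← hlog] at hmem h1
    have hΛ : ∀ (p : ℕ), p.Prime → |((padicValRat p a : ℤ) : ℝ)| ≤ K₂ * L ^ (R + r + 1) := by
      intro p hp
      have _i : Fact p.Prime := ⟨hp⟩
      rw [ha, padic_finset Finset.univ g hg (n i) p]
      push_cast
      refine (Finset.abs_sum_le_sum_abs _ _).trans ?_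
      have h2 : ∀ k ∈ (Finset.univ : Finset (Fin r)),
          |(n i k : ℝ) * ((padicValRat p (g k) : ℤ) : ℝ)| ≤ (N₀ * L ^ (R + r)) * L := by
        intro k _
        rw [abs_mul]
        exact mul_le_mul (hn1 i k) (hbg k p hp) (abs_nonneg _) (by positivity)
      refine (Finset.sum_le_sum h2).trans ?_
      rw [Finset.sum_const, nsmul_eq_mul, Finset.card_univ, Fintype.card_fin, hK₂]
      have h3 : 0 ≤ N₀ * L ^ (R + r) * L := by positivity
      have h4 : (r + 1) * N₀ * L ^ (R + r + 1) = (r:ℝ) * (N₀ * L ^ (R + r) * L) +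
          N₀ * L ^ (R + r) * L := by ring
      rw [h4]
      linarith
    have hΛ1 : 1 ≤ K₂ * L ^ (R + r + 1) := by
      have : 1 ≤ L ^ (R + r + 1) := one_le_pow₀ hL1
      nlinarith
    have hLΛ : L ≤ K₂ * L ^ (R + r + 1) := by
      have h5 : L ≤ L ^ (R + r + 1) := le_self_pow₀ hL1 (by omega)
      nlinarith
    have hsm := small_of_mem t ht a ha0 (K₂ * L ^ (R + r + 1)) hΛ1 (2 * H' ^ (-δ)) (by positivity)
      (fun k p hp => (hbt k p hp).trans hLΛ) hΛ
      (fun k => (abs_log_le_two _ ((hcloset k).trans hhalf')).trans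
        (mul_le_mul_of_nonneg_left (hcloset k) (by norm_num))) hmem
    have h6 : (R : ℝ) * ((R.factorial : ℝ) * (K₂ * L ^ (R + r + 1)) ^ R) * (2 * H' ^ (-δ)) =
        (K₃ * L ^ ((R + r + 1) * R)) * H' ^ (-δ) := by
      rw [hK₃, mul_pow, ← pow_mul]
      ring
    rw [h6] at hsm
    have h7 : K₃ * L ^ ((R + r + 1) * R) ≤ H ^ (1:ℝ) := hH₃ H H'' a3 hHH'' hB
    have h8 : H' ^ (-δ) ≤ H ^ (-(max C₁ 0 + 2)) := by
      have h9 : H' ^ (-δ) ≤ (H ^ κ) ^ (-δ) :=
        Real.rpow_le_rpow_of_nonpos (by positivity) hκH (by linarith)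
      refine h9.trans ?_
      rw [← Real.rpow_mul hHpos.le]
      apply Real.rpow_le_rpow_of_exponent_le hH1
      have h10 : (max C₁ 0 + 2) / δ ≤ κ := le_max_right _ _
      rw [div_le_iff₀ hδ] at h10
      linarith
    have h11 : |Real.log a| ≤ H ^ (1:ℝ) * H ^ (-(max C₁ 0 + 2)) :=
      hsm.trans (mul_le_mul h7 h8 (by positivity) (by positivity))
    rw [← Real.rpow_add hHpos] at h11
    have h12 : H ^ (1 + -(max C₁ 0 + 2)) < H ^ (-C₁) := by
      apply Real.rpow_lt_rpow_of_exponent_lt (by linarith)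
      have := le_max_left C₁ 0
      linarith
    linarith
  have hspan : Submodule.span ℚ (Set.range fun i => ∑ k, (n i k : ℝ) * Real.log (g k)) = ⊥ := by
    rw [Submodule.span_eq_bot]
    rintro x ⟨i, rfl⟩
    exact hzero i
  have h13 := hn3 e he
  rw [hspan, Submodule.mem_bot] at h13
  exact h13

end Pool.Agent.ExScale
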