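import Mathlib
import Pool.Agent.ExScale.Sep

/-!
# Independent subfamilies, bounded relations, and independence across scales
-/

set_option autoImplicit false

namespace Pool.Agent.ExScale

open Filter Topology Pool.Agent.OneClass Pool.Agent.FewGroups

lemma prod_eq_one_iff {ι : Type*} [Fintype ι] (u : ι → ℚ) (hu : ∀ i, 0 < u i) (e : ι → ℤ) :
    ∏ i, u i ^ e i = 1 ↔ ∑ i, (e i : ℚ) • val (u i) = 0 := by
  have h1 := log_zero_iff u hu (fun i => (e i : ℚ))
  have h2 : ∑ i, (((e i : ℚ) : ℚ) : ℝ) * Real.log (u i) = ∑ i, (e i : ℝ) * Real.log (u i) := by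
    push_cast
    rfl
  rw [h2, ← log_comb u hu e] at h1
  rw [← h1]
  have hpos : (0:ℝ) < ((∏ i, u i ^ e i : ℚ) : ℝ) := by
    exact_mod_cast Finset.prod_pos (fun i _ => zpow_pos (hu i) _)
  constructor
  · intro h
    rw [h]
    simp
  · intro h
    have := Real.eq_one_of_pos_of_log_eq_zero hpos h
    exact_mod_cast this

/-- A maximal independent subfamily. -/
lemma exists_basis_set {r : ℕ} (g : Fin r → ℚ) :
    ∃ J : Finset (Fin r), LinearIndepOn ℚ (fun k => val (g k)) (J : Set (Fin r)) ∧
      ∀ k, val (g k) ∈ Submodule.span ℚ ((fun k => val (g k)) '' (J : Set (Fin r))) := by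
  classical
  obtain ⟨b, -, -, hb1, hb2⟩ := exists_linearIndepOn_extension (K := ℚ)
    (v := fun k => val (g k)) (linearIndepOn_empty ℚ _) (Set.empty_subset (Set.univ))
  refine ⟨b.toFinset, ?_, ?_⟩
  · rw [Set.coe_toFinset]
    exact hb2
  · intro k
    rw [Set.coe_toFinset]
    exact hb1 ⟨k, Set.mem_univ _, rfl⟩

/-- A bounded relation expressing a member through a maximal independent subfamily. -/
lemma bounded_rel {r : ℕ} (g : Fin r → ℚ) (J : Finset (Fin r))
    (hJ : LinearIndepOn ℚ (fun k => val (g k)) (J : Set (Fin r))) (Λ : ℝ) (hΛ : 1 ≤ Λ)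
    (hb : ∀ k (p : ℕ), p.Prime → |((padicValRat p (g k) : ℤ) : ℝ)| ≤ Λ) (k : Fin r)
    (hk : val (g k) ∈ Submodule.span ℚ ((fun k => val (g k)) '' (J : Set (Fin r)))) :
    ∃ (D : ℤ) (c : Fin r → ℤ), D ≠ 0 ∧ |(D : ℝ)| ≤ (r.factorial : ℝ) * Λ ^ r ∧
      (∀ j, |(c j : ℝ)| ≤ (r.factorial : ℝ) * Λ ^ r) ∧ (∀ j, j ∉ J → c j = 0) ∧
      (D : ℚ) • val (g k) = ∑ j, (c j : ℚ) • val (g j) := by
  classical
  have hcard : Fintype.card J ≤ r := by
    rw [Fintype.card_coe]
    exact (Finset.card_le_univ J).trans_eq (Fintype.card_fin r)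
  have hmem : val (g k) ∈ Submodule.span ℚ (Set.range fun j : J => val (g j)) := by
    have h1 : (Set.range fun j : J => val (g j)) =
        (fun k => val (g k)) '' (J : Set (Fin r)) := by
      ext x
      constructor
      · rintro ⟨j, rfl⟩
        exact ⟨j, j.2, rfl⟩
      · rintro ⟨j, hj, rfl⟩
        exact ⟨⟨j, hj⟩, rfl⟩
    rw [h1]
    exact hk
  obtain ⟨D, c, hD, hDle, hcle, hrel⟩ := cramer_val (fun j : J => g j) hJ Λ
    (fun j p hp => hb j p hp) (g k) (fun p hp => hb k p hp) hmem
  have hle : ((Fintype.card J).factorial : ℝ) * Λ ^ Fintype.card J ≤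
      (r.factorial : ℝ) * Λ ^ r :=
    mul_le_mul (by exact_mod_cast Nat.factorial_le hcard) (pow_le_pow_right₀ hΛ hcard)
      (by positivity) (by positivity)
  refine ⟨D, fun j => if h : j ∈ J then c ⟨j, h⟩ else 0, hD, hDle.trans hle, ?_, ?_, ?_⟩
  · intro j
    by_cases h : j ∈ J
    · simp only [h, dif_pos]
      exact (hcle _).trans hle
    · simp only [h, dif_neg, not_false_iff, Int.cast_zero, abs_zero]
      positivity
  · intro j h
    simp only [h, dif_neg, not_false_iff]
  · rw [hrel]
    rw [← Finset.sum_subset (Finset.subset_univ J) (fun j _ hj => by simp [hj]),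
      ← Finset.sum_coe_sort J]
    apply Finset.sum_congr rfl
    rintro ⟨j, hj⟩ _
    simp [hj]

/-- Independence across separated scales. -/
theorem union_indep (t r : ℕ) (δ : ℝ) (hδ : 0 < δ) :
    ∃ κ : ℝ, 1 ≤ κ ∧ ∀ B : ℝ, ∃ H₀ : ℝ, ∀ H : Fin (t + 1) → ℝ, (∀ i, H₀ ≤ H i) →
      (∀ i j, i < j → H i ^ κ ≤ H j) → (∀ i j, H i ≤ H j ^ B) →
      ∀ g : Fin (t + 1) → Fin r → ℚ, (∀ i k, 0 < g i k) → (∀ i k, ((g i k).den : ℝ) ≤ H i) →
      (∀ i k, |(g i k : ℝ) - 1| ≤ H i ^ (-δ)) →
      ∀ J : Fin (t + 1) → Finset (Fin r),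
      (∀ i, LinearIndepOn ℚ (fun k => val (g i k)) (J i : Set (Fin r))) →
      ∀ e : (Σ i, J i) → ℤ, ∏ p, g p.1 p.2 ^ e p = 1 → e = 0 := by
  classical
  obtain ⟨κ, hκ1, hsep⟩ := sep r ((t + 1) * r) δ hδ
  refine ⟨κ, hκ1, fun B => ?_⟩
  obtain ⟨H₀, hH₀⟩ := hsep B
  refine ⟨max H₀ 1, fun H hH hHκ hHB g hg hden hclose J hJ e he => ?_⟩
  have hHH₀ : ∀ i, H₀ ≤ H i := fun i => (le_max_left _ _).trans (hH i)
  have hH1 : ∀ i, 1 ≤ H i := fun i => (le_max_right _ _).trans (hH i)
  have hmono : ∀ i j, i ≤ j → H i ≤ H j := by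
    intro i j hij
    rcases eq_or_lt_of_le hij with rfl | hlt
    · exact le_rfl
    · refine le_trans ?_ (hHκ i j hlt)
      conv_lhs => rw [← Real.rpow_one (H i)]
      exact Real.rpow_le_rpow_of_exponent_le (hH1 i) hκ1
  let E : Fin (t + 1) → Fin r → ℤ := fun i k => if h : k ∈ J i then e ⟨i, ⟨k, h⟩⟩ else 0
  let w : Fin (t + 1) → ℝ := fun i => ∑ k, (E i k : ℝ) * Real.log (g i k)
  have hw : ∀ i, w i = ∑ k : J i, (e ⟨i, k⟩ : ℝ) * Real.log (g i k) := by
    intro i
    simp only [w]
    rw [← Finset.sum_subset (Finset.subset_univ (J i)) (fun j _ hj => by simp [E, hj]),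
      ← Finset.sum_coe_sort (J i)]
    apply Finset.sum_congr rfl
    rintro ⟨j, hj⟩ _
    simp [E, hj]
  have hsum : ∑ i, w i = 0 := by
    have h1 := log_comb (fun p : (Σ i, J i) => g p.1 p.2) (fun p => hg _ _) e
    rw [he] at h1
    simp only [Rat.cast_one, Real.log_one] at h1
    rw [h1, Fintype.sum_sigma]
    exact Finset.sum_congr rfl (fun i _ => hw i)
  have hzero : ∀ m : ℕ, ∀ i : Fin (t + 1), (i : ℕ) = m → w i = 0 := by
    intro m
    induction m using Nat.strong_induction_on with
    | _ m ih =>
      intro i him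
      have hlow : ∀ j : Fin (t + 1), j < i → w j = 0 := fun j hj =>
        ih j (by rw [← him]; exact hj) j rfl
      have hsplit : w i = -∑ j ∈ Finset.univ.filter (fun j => i < j), w j := by
        have h1 : ∑ j, w j = w i + ∑ j ∈ Finset.univ.filter (fun j => i < j), w j := by
          rw [← Finset.add_sum_erase Finset.univ w (Finset.mem_univ i)]
          congr 1
          symm
          apply Finset.sum_subset
          · intro j hj
            rw [Finset.mem_filter] at hj
            rw [Finset.mem_erase]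
            exact ⟨hj.2.ne', Finset.mem_univ _⟩
          · intro j hj hj'
            rw [Finset.mem_erase] at hj
            rw [Finset.mem_filter] at hj'
            apply hlow
            have h2 : ¬ i < j := fun h => hj' ⟨Finset.mem_univ _, h⟩
            exact lt_of_le_of_ne (not_lt.mp h2) hj.1
        rw [hsum] at h1
        linarith
      by_cases hlast : (i : ℕ) = t
      · rw [hsplit, Finset.sum_eq_zero, neg_zero]
        intro j hj
        rw [Finset.mem_filter] at hj
        exfalso
        have h1 : (i : ℕ) < j := hj.2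
        have h2 := j.2
        omega
      · have hi1 : (i : ℕ) + 1 < t + 1 := by
          have := i.2
          omega
        let i' : Fin (t + 1) := ⟨(i : ℕ) + 1, hi1⟩
        have hii' : i < i' := by
          change (i : ℕ) < (i : ℕ) + 1
          omega
        let tf : Fin ((t + 1) * r) → ℚ := fun p =>
          if i < (finProdFinEquiv.symm p).1 then
            g (finProdFinEquiv.symm p).1 (finProdFinEquiv.symm p).2 else 1
        have htf : ∀ j k, i < j → tf (finProdFinEquiv (j, k)) = g j k := by
          intro j k hij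
          simp only [tf, Equiv.symm_apply_apply, hij, if_true]
        apply hH₀ (H i) (H i') (H (Fin.last t)) (hHH₀ i) (hHκ i i' hii')
          (hmono _ _ (Fin.le_last _)) (hHB _ _) (g i) tf (hg i) (hden i) (hclose i)
        · intro p
          simp only [tf]
          split_ifs
          · exact hg _ _
          · exact one_pos
        · intro p
          simp only [tf]
          split_ifs
          · exact (hden _ _).trans (hmono _ _ (Fin.le_last _))
          · simpa using hH1 _
        · intro p
          simp only [tf]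
          split_ifs with hp
          · refine (hclose _ _).trans ?_
            apply Real.rpow_le_rpow_of_nonpos (by linarith [hH1 i']) _ (by linarith)
            apply hmono
            change (i : ℕ) + 1 ≤ _
            have h1 : (i : ℕ) < (finProdFinEquiv.symm p).1 := hp
            omega
          · simp only [Rat.cast_one, sub_self, abs_zero]
            exact Real.rpow_nonneg (by linarith [hH1 i']) _
        · change w i ∈ logSpan tf
          rw [hsplit]
          apply Submodule.neg_mem
          apply Submodule.sum_mem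
          intro j hj
          rw [Finset.mem_filter] at hj
          simp only [w]
          apply Submodule.sum_mem
          intro k _
          have h1 : (E j k : ℝ) * Real.log (g j k) = (E j k : ℚ) • Real.log (g j k) := by
            rw [Rat.smul_def]
            push_cast
            rfl
          rw [h1, ← htf j k hj.2]
          exact Submodule.smul_mem _ _ (log_mem_logSpan tf _)
  funext ⟨i, k⟩
  have h1 := hzero i i rfl
  rw [hw] at h1
  have h2 := (log_zero_iff (fun k : J i => g i k) (fun k => hg i k)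
    (fun k => (e ⟨i, k⟩ : ℚ))).mp (by
      push_cast
      exact h1)
  have h3 := Fintype.linearIndependent_iff.mp (hJ i) (fun k => (e ⟨i, k⟩ : ℚ)) h2 k
  simpa using h3

end Pool.Agent.ExScale
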