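import Mathlib

/-!
# Linearly independent combinations of algebraically independent elements
-/

set_option autoImplicit false

namespace Pool.Agent.ExScale

open MvPolynomial

/-- Linearly independent linear combinations of algebraically independent elements are
algebraically independent. -/
theorem alg_lin {K E J ι : Type*} [Field K] [Field E] [Algebra K E] [Fintype J] [Fintype ι]
    (X : J → E) (hX : AlgebraicIndependent K X) (u : ι → J → K) (Y : ι → E)
    (hY : ∀ i, Y i = ∑ j, u i j • X j) (hYi : LinearIndependent K Y) :
    AlgebraicIndependent K Y := by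
  classical
  let φ : (ι → K) →ₗ[K] (J → K) := Fintype.linearCombination K u
  have hφ : LinearMap.ker φ = ⊥ := by
    rw [LinearMap.ker_eq_bot']
    intro c hc
    have h1 : ∑ i, c i • Y i = 0 := by
      have h2 : ∀ j, ∑ i, c i * u i j = 0 := by
        intro j
        have := congrFun hc j
        simpa [φ, Fintype.linearCombination_apply, Finset.sum_apply] using this
      calc ∑ i, c i • Y i = ∑ i, ∑ j, (c i * u i j) • X j := by
            apply Finset.sum_congr rfl
            intro i _
            rw [hY, Finset.smul_sum]
            exact Finset.sum_congr rfl (fun j _ => by rw [smul_smul])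
        _ = ∑ j, (∑ i, c i * u i j) • X j := by
            rw [Finset.sum_comm]
            exact Finset.sum_congr rfl (fun j _ => by rw [Finset.sum_smul])
        _ = 0 := by simp [h2]
    funext i
    exact Fintype.linearIndependent_iff.mp hYi c h1 i
  obtain ⟨ψ, hψ⟩ := φ.exists_leftInverse_of_injective hφ
  let w : J → ι → K := fun j i => ψ (Pi.single j 1) i
  have huw : ∀ i i', ∑ j, u i j * w j i' = if i = i' then 1 else 0 := by
    intro i i'
    have h1 : ψ (u i) = Pi.single i 1 := by
      have h2 : φ (Pi.single i 1) = u i := by
        simp [φ, Fintype.linearCombination_apply_single]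
      rw [← h2]
      exact LinearMap.congr_fun hψ _
    have h3 : u i = ∑ j, u i j • (Pi.single j (1:K) : J → K) := by
      funext j'
      simp [Finset.sum_apply, Pi.single_apply]
    have h4 : ψ (u i) i' = ∑ j, u i j * w j i' := by
      conv_lhs => rw [h3, map_sum, Finset.sum_apply]
      apply Finset.sum_congr rfl
      intro j _
      rw [map_smul]
      rfl
    rw [← h4, h1, Pi.single_apply]
    by_cases h : i = i'
    · rw [if_pos h, if_pos h.symm]
    · rw [if_neg h, if_neg (fun h' => h h'.symm)]
  let f : MvPolynomial ι K →ₐ[K] MvPolynomial J K :=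
    aeval (fun i => ∑ j, C (u i j) * MvPolynomial.X j)
  let g : MvPolynomial J K →ₐ[K] MvPolynomial ι K :=
    aeval (fun j => ∑ i, C (w j i) * MvPolynomial.X i)
  have hgf : g.comp f = AlgHom.id K _ := by
    apply MvPolynomial.algHom_ext
    intro i
    simp only [AlgHom.comp_apply, AlgHom.id_apply, f, g, aeval_X, map_sum, map_mul]
    have h1 : ∀ j, (aeval (fun j => ∑ i, C (w j i) * MvPolynomial.X i)
        (C (u i j) : MvPolynomial J K) : MvPolynomial ι K) = C (u i j) := by
      intro j
      rw [aeval_C]
      rfl
    simp only [h1, Finset.mul_sum]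
    rw [Finset.sum_comm]
    have h2 : ∀ i', ∑ j, C (u i j) * (C (w j i') * (MvPolynomial.X i' : MvPolynomial ι K)) =
        if i = i' then MvPolynomial.X i' else 0 := by
      intro i'
      calc ∑ j, C (u i j) * (C (w j i') * (MvPolynomial.X i' : MvPolynomial ι K))
          = C (∑ j, u i j * w j i') * MvPolynomial.X i' := by
            rw [map_sum, Finset.sum_mul]
            apply Finset.sum_congr rfl
            intro j _
            rw [map_mul, mul_assoc]
        _ = _ := by
            rw [huw]
            split_ifs <;> simp
    simp only [h2]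
    rw [Finset.sum_ite_eq Finset.univ i]
    simp
  have hinj : Function.Injective f := by
    intro p q hpq
    have h1 := congrArg g hpq
    have h2 : ∀ p, g (f p) = p := fun p => AlgHom.congr_fun hgf p
    rwa [h2, h2] at h1
  have hcomp : (aeval Y : MvPolynomial ι K →ₐ[K] E) = (aeval X : MvPolynomial J K →ₐ[K] E).comp f := by
    apply MvPolynomial.algHom_ext
    intro i
    simp only [AlgHom.comp_apply, f, aeval_X, map_sum, map_mul, aeval_C]
    rw [hY]
    exact Finset.sum_congr rfl (fun j _ => by rw [Algebra.smul_def])
  have hX' : Function.Injective (aeval X : MvPolynomial J K →ₐ[K] E) := hX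
  change Function.Injective (aeval Y : MvPolynomial ι K →ₐ[K] E)
  rw [hcomp]
  exact hX'.comp hinj

end Pool.Agent.ExScale
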