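import Mathlib
import Pool.Agent.ExScale.Rel
import Pool.Agent.ExScale.AlgI

/-!
# Coordinates of near-one logarithms over the bounded rational germs
-/

set_option autoImplicit false

namespace Pool.Agent.ExScale

open Filter Topology Pool.Agent.OneClass Pool.Agent.FewGroups

/-- The germs of the logarithms of near-one rationals are combinations, over the field of bounded
rational germs, of an algebraically independent subfamily. -/
theorem coords {r : ℕ} (Ω : ℕ → ℝ) (hΩ : ∀ n, 2 ≤ Ω n) (hlim : Tendsto Ω atTop atTop) (δ : ℝ)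
    (hδ : 0 < δ) (g : ℕ → Fin r → ℚ) (hpos : ∀ n k, 0 < g n k)
    (hden : ∀ n k, ((g n k).den : ℝ) ≤ Ω n) (hclose : ∀ n k, |(g n k : ℝ) - 1| ≤ Ω n ^ (-δ)) :
    ∃ (J₀ : Finset (Fin r)) (q : Fin r → J₀ → K0 Ω hΩ),
      AlgebraicIndependent (K0 Ω hΩ) (fun j : J₀ => gm (fun n => Real.log (g n j))) ∧
      ∀ k, gm (fun n => Real.log (g n k)) = ∑ j, q k j • gm (fun n => Real.log (g n j)) := by
  classical
  choose J hJ1 hJ2 using fun n => exists_basis_set (g n)
  obtain ⟨J₀, hJ₀⟩ : ∃ J₀ : Finset (Fin r), ∀ᶠ n in U, J n = J₀ := by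
    have h1 : ∀ᶠ n in (hyperfilter ℕ : Filter ℕ), ∃ b : Finset (Fin r), J n = b :=
      Eventually.of_forall (fun n => ⟨J n, rfl⟩)
    exact Ultrafilter.eventually_exists_iff.mp h1
  have hind : ∀ᶠ n in U, ∀ e : J₀ → ℤ, ∏ p : J₀, g n p ^ e p = 1 → e = 0 := by
    filter_upwards [hJ₀] with n hn e he
    have h1 := (prod_eq_one_iff (fun j : J₀ => g n j) (fun j => hpos n j) e).mp he
    have h2 : LinearIndependent ℚ (fun j : J₀ => val (g n j)) := by
      have h3 := hJ1 n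
      rw [hn] at h3
      exact h3
    funext j
    have h3 := Fintype.linearIndependent_iff.mp h2 (fun j => (e j : ℚ)) h1 j
    simpa using h3
  have hAI := algIndep_K0 (ι := J₀) Ω hΩ hlim δ hδ
    (fun p n => g n p) (fun p n => hpos n _) (fun p n => hden n _)
    (fun p n => hclose n _) hind
  -- bounded relations
  have hlog2 : 0 < Real.log 2 := Real.log_pos (by norm_num)
  have hval' : ∀ n, Ω n ^ (-δ) ≤ 1 / 2 → ∀ k (p : ℕ), p.Prime →
      |((padicValRat p (g n k) : ℤ) : ℝ)| ≤ Real.log (2 * Ω n) / Real.log 2 :=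
    fun n hn k p hp => val_le (g n k) (hpos n k) (Ω n) (hden n k) (by linarith [hΩ n])
      ((hclose n k).trans hn) p hp
  have hΛ1 : ∀ n, 1 ≤ Real.log (2 * Ω n) / Real.log 2 := by
    intro n
    rw [le_div_iff₀ hlog2, one_mul]
    exact Real.log_le_log (by norm_num) (by linarith [hΩ n])
  have hrels : ∀ n k, ∃ (D : ℤ) (c : Fin r → ℤ), D ≠ 0 ∧
      (Ω n ^ (-δ) ≤ 1 / 2 → |(D : ℝ)| ≤
        (r.factorial : ℝ) * (Real.log (2 * Ω n) / Real.log 2) ^ r) ∧
      (Ω n ^ (-δ) ≤ 1 / 2 → ∀ j, |(c j : ℝ)| ≤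
        (r.factorial : ℝ) * (Real.log (2 * Ω n) / Real.log 2) ^ r) ∧
      (Ω n ^ (-δ) ≤ 1 / 2 → ∀ j, j ∉ J n → c j = 0) ∧
      (Ω n ^ (-δ) ≤ 1 / 2 →
        (D : ℚ) • val (g n k) = ∑ j, (c j : ℚ) • val (g n j)) := by
    intro n k
    by_cases hn : Ω n ^ (-δ) ≤ 1 / 2
    · obtain ⟨D, c, h1, h2, h3, h4, h5⟩ := bounded_rel (g n) (J n) (hJ1 n) _ (hΛ1 n)
        (hval' n hn) k (hJ2 n k)
      exact ⟨D, c, h1, fun _ => h2, fun _ => h3, fun _ => h4, fun _ => h5⟩
    · exact ⟨1, 0, one_ne_zero, fun h => absurd h hn, fun h => absurd h hn,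
        fun h => absurd h hn, fun h => absurd h hn⟩
  choose D c hD hDle hcle hcJ hDrel using hrels
  have hhalf : ∀ᶠ n in U, Ω n ^ (-δ) ≤ 1 / 2 := by
    have h1 : Tendsto (fun n => Ω n ^ (-δ)) atTop (𝓝 0) :=
      (tendsto_rpow_neg_atTop hδ).comp hlim
    exact (h1.eventually_le_const (by norm_num)).filter_mono Nat.hyperfilter_le_atTop
  obtain ⟨H₂, hH₂⟩ := eventually_log_le r (r.factorial : ℝ) 1 1 one_pos
  have hΛΩ : ∀ᶠ n in U, (r.factorial : ℝ) * (Real.log (2 * Ω n) / Real.log 2) ^ r ≤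
      Ω n ^ 1 := by
    have h1 : ∀ᶠ n in U, H₂ ≤ Ω n :=
      (hlim.eventually_ge_atTop H₂).filter_mono Nat.hyperfilter_le_atTop
    filter_upwards [h1] with n hn
    have h2 := hH₂ (Ω n) (Ω n) hn le_rfl (by rw [Real.rpow_one])
    rw [Real.rpow_one] at h2
    rwa [pow_one]
  have hDb : ∀ k, Bdd Ω (fun n => D n k) := fun k => ⟨1, by
    filter_upwards [hhalf, hΛΩ] with n h1 h2
    exact (hDle n k h1).trans h2⟩
  have hcb : ∀ k j, Bdd Ω (fun n => c n k j) := fun k j => ⟨1, by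
    filter_upwards [hhalf, hΛΩ] with n h1 h2
    exact (hcle n k h1 j).trans h2⟩
  let q : Fin r → Fin r → Hyperreal := fun k j => gm (fun n => (c n k j : ℝ) / (D n k : ℝ))
  have hqK : ∀ k j, q k j ∈ K0 Ω hΩ := fun k j =>
    div_mem_K0 hΩ (hcb k j) (hDb k) (Eventually.of_forall (fun n => hD n k))
  have hq0 : ∀ k j, j ∉ J₀ → q k j = 0 := by
    intro k j hj
    rw [← gm_zero, gm_eq_iff]
    filter_upwards [hhalf, hJ₀] with n h1 h2
    rw [hcJ n k h1 j (by rw [h2]; exact hj)]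
    simp
  refine ⟨J₀, fun k j => ⟨q k j, hqK k j⟩, hAI, fun k => ?_⟩
  have h1 : ∑ j : J₀, (⟨q k j, hqK k j⟩ : K0 Ω hΩ) • gm (fun n => Real.log (g n j)) =
      ∑ j, q k j * gm (fun n => Real.log (g n j)) := by
    have h2 : ∀ j : J₀, (⟨q k j, hqK k j⟩ : K0 Ω hΩ) • gm (fun n => Real.log (g n j)) =
        q k j * gm (fun n => Real.log (g n j)) := fun j => rfl
    simp only [h2]
    rw [Finset.sum_coe_sort J₀ (fun j => q k j * gm (fun n => Real.log (g n j)))]
    apply Finset.sum_subset (Finset.subset_univ _)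
    intro j _ hj
    rw [hq0 k j hj, zero_mul]
  rw [h1]
  have h2 : ∑ j, q k j * gm (fun n => Real.log (g n j)) =
      gm (fun n => ∑ j, ((c n k j : ℝ) / (D n k : ℝ)) * Real.log (g n j)) := by
    rw [gm_sum]
    rfl
  rw [h2, gm_eq_iff]
  filter_upwards [hhalf] with n hn
  have h3 := (prod_eq_one_iff (g n) (hpos n)
    (fun j => (if j = k then D n k else 0) - c n k j)).mpr (by
      push_cast
      simp only [sub_smul, Finset.sum_sub_distrib, ite_smul, zero_smul, Finset.sum_ite_eq',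
        Finset.mem_univ, if_true]
      rw [hDrel n k hn, sub_self])
  have h4 : ∑ j, (((if j = k then D n k else 0) - c n k j : ℤ) : ℝ) * Real.log (g n j) = 0 := by
    rw [← log_comb (g n) (hpos n), h3]
    simp
  have h5 : (D n k : ℝ) * Real.log (g n k) = ∑ j, (c n k j : ℝ) * Real.log (g n j) := by
    push_cast at h4
    simp only [sub_mul, Finset.sum_sub_distrib, ite_mul, zero_mul, Finset.sum_ite_eq',
      Finset.mem_univ, if_true] at h4
    linarith
  have hD0 : (D n k : ℝ) ≠ 0 := by exact_mod_cast hD n k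
  rw [eq_comm]
  calc ∑ j, ((c n k j : ℝ) / (D n k : ℝ)) * Real.log (g n j)
      = (∑ j, (c n k j : ℝ) * Real.log (g n j)) / (D n k : ℝ) := by
        rw [Finset.sum_div]
        apply Finset.sum_congr rfl
        intro j _
        ring
    _ = Real.log (g n k) := by rw [← h5, mul_div_cancel_left₀ _ hD0]

end Pool.Agent.ExScale
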