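import Mathlib

/-!
# Linear spaces of singular `2 × 2` matrices translated by a matrix over a larger field
-/

set_option autoImplicit false

namespace Pool.Agent.ExScale

open Matrix

/-- A family of pairs with `a b = 0` and `a b' + b a' = 0` lies on one axis. -/
lemma one_axis {R ι : Type*} [CommRing R] [NoZeroDivisors R] (a b : ι → R)
    (h1 : ∀ i, a i * b i = 0) (h2 : ∀ i j, a i * b j + b i * a j = 0) :
    (∀ i, a i = 0) ∨ (∀ i, b i = 0) := by
  by_contra hcon
  push Not at hcon
  obtain ⟨⟨i, hi⟩, ⟨j, hj⟩⟩ := hcon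
  have hbi : b i = 0 := (mul_eq_zero.mp (h1 i)).resolve_left hi
  have := h2 i j
  rw [hbi, zero_mul, add_zero] at this
  exact (mul_ne_zero hi hj) this

/-- If `a + b z + c z²` vanishes at all points of an infinite field then `a = b = c = 0`. -/
lemma quad_zero {K E : Type*} [Field K] [CharZero K] [Field E] [Algebra K E] (a b c : E)
    (h : ∀ z : K, a + algebraMap K E z * b + algebraMap K E z ^ 2 * c = 0) :
    a = 0 ∧ b = 0 ∧ c = 0 := by
  have h0 := h 0
  have h1 := h 1
  have h2 := h (-1)
  simp only [map_zero, map_one, map_neg] at h0 h1 h2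
  have ha : a = 0 := by linear_combination h0
  have hchar : (2 : E) ≠ 0 := by
    have h3 : algebraMap K E 2 ≠ 0 := by
      rw [Ne, map_eq_zero]
      exact two_ne_zero
    have h4 : algebraMap K E 2 = 2 := map_ofNat _ 2
    rwa [h4] at h3
  have hc : (2:E) * c = 0 := by linear_combination h1 + h2 - 2 * ha
  have hb : (2:E) * b = 0 := by linear_combination h1 - h2
  exact ⟨ha, (mul_eq_zero.mp hb).resolve_left hchar, (mul_eq_zero.mp hc).resolve_left hchar⟩

/-- the polar form of the determinant -/
def pol2 {R : Type*} [CommRing R] (X Y : Matrix (Fin 2) (Fin 2) R) : R :=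
  X 0 0 * Y 1 1 + X 1 1 * Y 0 0 - X 0 1 * Y 1 0 - X 1 0 * Y 0 1

lemma det_add_smul {R : Type*} [CommRing R] (X Y : Matrix (Fin 2) (Fin 2) R) (z : R) :
    (X + z • Y).det = X.det + z * pol2 X Y + z ^ 2 * Y.det := by
  simp only [det_fin_two, Matrix.add_apply, Matrix.smul_apply, smul_eq_mul, pol2]
  ring

section

variable {K E : Type*} [Field K] [CharZero K] [Field E] [Algebra K E] {ι : Type*} [Fintype ι]
  [DecidableEq ι]

lemma relations (L : Matrix (Fin 2) (Fin 2) E) (e : ι → Matrix (Fin 2) (Fin 2) K)
    (h : ∀ z : ι → K, (L + (∑ j, z j • e j).map (algebraMap K E)).det = 0) :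
    L.det = 0 ∧ (∀ j, pol2 L ((e j).map (algebraMap K E)) = 0) ∧ (∀ j, (e j).det = 0) ∧
      ∀ j k, pol2 (e j) (e k) = 0 := by
  have key : ∀ X : Matrix (Fin 2) (Fin 2) K, (∃ z : ι → K, X = ∑ j, z j • e j) →
      L.det = 0 ∧ pol2 L (X.map (algebraMap K E)) = 0 ∧ X.det = 0 := by
    rintro X ⟨z, rfl⟩
    have h1 := quad_zero (K := K) L.det
      (pol2 L ((∑ j, z j • e j).map (algebraMap K E)))
      ((∑ j, z j • e j).map (algebraMap K E)).det (by
        intro y
        rw [← det_add_smul]
        have h2 := h (fun j => y * z j)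
        have h3 : (∑ j, (y * z j) • e j).map (algebraMap K E) =
            algebraMap K E y • (∑ j, z j • e j).map (algebraMap K E) := by
          have h4 : ∑ j, (y * z j) • e j = y • ∑ j, z j • e j := by
            rw [Finset.smul_sum]
            exact Finset.sum_congr rfl (fun j _ => by rw [smul_smul])
          rw [h4]
          ext a b
          simp only [map_apply, Matrix.smul_apply, smul_eq_mul, map_mul]
        rw [h3] at h2
        exact h2)
    refine ⟨h1.1, h1.2.1, ?_⟩
    have h2 := h1.2.2
    have h3 : ((∑ j, z j • e j).map (algebraMap K E)).det =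
        algebraMap K E (∑ j, z j • e j).det := by
      rw [RingHom.map_det]
      rfl
    rw [h3, map_eq_zero] at h2
    exact h2
  have hsingle : ∀ j, e j = ∑ k, (Pi.single j (1:K) : ι → K) k • e k := by
    intro j
    rw [Finset.sum_eq_single j]
    · simp
    · intro k _ hk
      simp [Pi.single_eq_of_ne hk]
    · intro hj
      exact absurd (Finset.mem_univ _) hj
  refine ⟨(key 0 ⟨0, by simp⟩).1, fun j => (key (e j) ⟨_, hsingle j⟩).2.1,
    fun j => (key (e j) ⟨_, hsingle j⟩).2.2, fun j k => ?_⟩
  have h1 := (key (e j + e k) ⟨Pi.single j (1:K) + Pi.single k (1:K), by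
    simp only [Pi.add_apply, add_smul, Finset.sum_add_distrib]
    rw [← hsingle, ← hsingle]⟩).2.2
  have h2 := (key (e j) ⟨_, hsingle j⟩).2.2
  have h3 := (key (e k) ⟨_, hsingle k⟩).2.2
  have h4 := det_add_smul (e j) (e k) 1
  rw [one_smul, h1, h2, h3] at h4
  linear_combination -h4

/-- Normalised case: one of the matrices is a nonzero multiple of a diagonal unit. -/
lemma deg_norm (L : Matrix (Fin 2) (Fin 2) E) (e : ι → Matrix (Fin 2) (Fin 2) K)
    (h : ∀ z : ι → K, (L + (∑ j, z j • e j).map (algebraMap K E)).det = 0)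
    (j₀ : ι) (D : Fin 2 → K) (hD : e j₀ = diagonal D) (hne : e j₀ ≠ 0) :
    ∃ w : Fin 2 → K, w ≠ 0 ∧
      (((fun i => algebraMap K E (w i)) ᵥ* L = 0 ∧ ∀ j, w ᵥ* e j = 0) ∨
        (L *ᵥ (fun i => algebraMap K E (w i)) = 0 ∧ ∀ j, e j *ᵥ w = 0)) := by
  obtain ⟨hL, hLe, hdet, hpol⟩ := relations L e h
  have hφ : Function.Injective (algebraMap K E) := (algebraMap K E).injective
  -- off-diagonal entries lie on one axis
  have haxis : ∀ (hdiag : (L 0 0 * L 1 1 = 0 ∧ ∀ j, e j 0 0 * e j 1 1 = 0) ∧
      (∀ j, L 0 0 * algebraMap K E (e j 1 1) + L 1 1 * algebraMap K E (e j 0 0) = 0) ∧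
      ∀ j k, e j 0 0 * e k 1 1 + e j 1 1 * e k 0 0 = 0),
      (L 0 1 = 0 ∧ ∀ j, e j 0 1 = 0) ∨ (L 1 0 = 0 ∧ ∀ j, e j 1 0 = 0) := by
    rintro ⟨⟨hd1, hd2⟩, hd3, hd4⟩
    have h1 := one_axis (R := E) (ι := Option ι)
      (fun o => o.elim (L 0 1) (fun j => algebraMap K E (e j 0 1)))
      (fun o => o.elim (L 1 0) (fun j => algebraMap K E (e j 1 0))) (by
        rintro (_ | j)
        · simp only [Option.elim_none]
          rw [det_fin_two] at hL
          linear_combination hd1 - hL
        · simp only [Option.elim_some]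
          rw [← map_mul, map_eq_zero]
          have := hdet j
          rw [det_fin_two] at this
          linear_combination hd2 j - this) (by
        have hLj : ∀ j, L 0 1 * algebraMap K E (e j 1 0) +
            L 1 0 * algebraMap K E (e j 0 1) = 0 := by
          intro j
          have := hLe j
          simp only [pol2, map_apply] at this
          linear_combination hd3 j - this
        have hjk : ∀ j k, algebraMap K E (e j 0 1) * algebraMap K E (e k 1 0) +
            algebraMap K E (e j 1 0) * algebraMap K E (e k 0 1) = 0 := by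
          intro j k
          rw [← map_mul, ← map_mul, ← map_add, map_eq_zero]
          have := hpol j k
          simp only [pol2] at this
          linear_combination hd4 j k - this
        rintro (_ | j) (_ | k)
        · simp only [Option.elim_none]
          rw [det_fin_two] at hL
          linear_combination 2 * (hd1 - hL)
        · simp only [Option.elim_none, Option.elim_some]
          exact hLj k
        · simp only [Option.elim_none, Option.elim_some]
          linear_combination hLj j
        · simp only [Option.elim_some]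
          exact hjk j k)
    rcases h1 with h1 | h1
    · left
      exact ⟨h1 none, fun j => hφ (by rw [map_zero]; exact h1 (some j))⟩
    · right
      exact ⟨h1 none, fun j => hφ (by rw [map_zero]; exact h1 (some j))⟩
  have hDdet : D 0 * D 1 = 0 := by
    have := hdet j₀
    rw [hD, det_diagonal, Fin.prod_univ_two] at this
    exact this
  have hpolL := hLe j₀
  rw [hD] at hpolL
  simp only [pol2, map_apply, diagonal_apply_eq] at hpolL
  have h01 : (diagonal D : Matrix (Fin 2) (Fin 2) K) 0 1 = 0 :=
    diagonal_apply_ne _ (by decide)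
  have h10 : (diagonal D : Matrix (Fin 2) (Fin 2) K) 1 0 = 0 :=
    diagonal_apply_ne _ (by decide)
  rw [h01, h10, map_zero] at hpolL
  have hpole : ∀ k, e k 0 0 * D 1 + e k 1 1 * D 0 = 0 := by
    intro k
    have := hpol k j₀
    rw [hD] at this
    simp only [pol2, diagonal_apply_eq] at this
    rw [h01, h10] at this
    linear_combination this
  rcases mul_eq_zero.mp hDdet with hD0 | hD1
  · -- `D 1 ≠ 0`, so the entries `0 0` vanish
    have hD1 : D 1 ≠ 0 := by
      intro hD1
      apply hne
      rw [hD]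
      ext a b
      fin_cases a <;> fin_cases b <;> simp [hD0, hD1]
    have hL00 : L 0 0 = 0 := by
      have h1 : L 0 0 * algebraMap K E (D 1) = 0 := by
        rw [hD0, map_zero] at hpolL
        linear_combination hpolL
      exact (mul_eq_zero.mp h1).resolve_right (by rwa [map_eq_zero])
    have he00 : ∀ k, e k 0 0 = 0 := by
      intro k
      have h1 : e k 0 0 * D 1 = 0 := by
        have := hpole k
        rw [hD0] at this
        linear_combination this
      exact (mul_eq_zero.mp h1).resolve_right hD1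
    have h1 := haxis ⟨⟨by rw [hL00, zero_mul], fun j => by rw [he00, zero_mul]⟩,
      fun j => by rw [hL00, he00, map_zero]; ring, fun j k => by rw [he00, he00]; ring⟩
    refine ⟨![1, 0], fun h => one_ne_zero (congrFun h 0 : (1:K) = 0), ?_⟩
    rcases h1 with ⟨h1, h2⟩ | ⟨h1, h2⟩
    · left
      constructor
      · ext b
        fin_cases b <;> simp [vecMul, dotProduct, Fin.sum_univ_two, hL00, h1]
      · intro j
        ext b
        fin_cases b <;> simp [vecMul, dotProduct, Fin.sum_univ_two, he00, h2]
    · right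
      constructor
      · ext b
        fin_cases b <;> simp [mulVec, dotProduct, Fin.sum_univ_two, hL00, h1]
      · intro j
        ext b
        fin_cases b <;> simp [mulVec, dotProduct, Fin.sum_univ_two, he00, h2]
  · have hD0 : D 0 ≠ 0 := by
      intro hD0
      apply hne
      rw [hD]
      ext a b
      fin_cases a <;> fin_cases b <;> simp [hD0, hD1]
    have hL11 : L 1 1 = 0 := by
      have h1 : L 1 1 * algebraMap K E (D 0) = 0 := by
        rw [hD1, map_zero] at hpolL
        linear_combination hpolL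
      exact (mul_eq_zero.mp h1).resolve_right (by rwa [map_eq_zero])
    have he11 : ∀ k, e k 1 1 = 0 := by
      intro k
      have h1 : e k 1 1 * D 0 = 0 := by
        have := hpole k
        rw [hD1] at this
        linear_combination this
      exact (mul_eq_zero.mp h1).resolve_right hD0
    have h1 := haxis ⟨⟨by rw [hL11, mul_zero], fun j => by rw [he11, mul_zero]⟩,
      fun j => by rw [hL11, he11, map_zero]; ring, fun j k => by rw [he11, he11]; ring⟩
    refine ⟨![0, 1], fun h => one_ne_zero (congrFun h 1 : (1:K) = 0), ?_⟩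
    rcases h1 with ⟨h1, h2⟩ | ⟨h1, h2⟩
    · right
      constructor
      · ext b
        fin_cases b <;> simp [mulVec, dotProduct, Fin.sum_univ_two, hL11, h1]
      · intro j
        ext b
        fin_cases b <;> simp [mulVec, dotProduct, Fin.sum_univ_two, he11, h2]
    · left
      constructor
      · ext b
        fin_cases b <;> simp [vecMul, dotProduct, Fin.sum_univ_two, hL11, h1]
      · intro j
        ext b
        fin_cases b <;> simp [vecMul, dotProduct, Fin.sum_univ_two, he11, h2]

/-- If `L + ∑ z_j e_j` is singular for all `z` then a nonzero vector over the small field kills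
`L` and all `e_j` on one side. -/
theorem deg (L : Matrix (Fin 2) (Fin 2) E) (e : ι → Matrix (Fin 2) (Fin 2) K)
    (h : ∀ z : ι → K, (L + (∑ j, z j • e j).map (algebraMap K E)).det = 0)
    (j₀ : ι) (hne : e j₀ ≠ 0) :
    ∃ w : Fin 2 → K, w ≠ 0 ∧
      (((fun i => algebraMap K E (w i)) ᵥ* L = 0 ∧ ∀ j, w ᵥ* e j = 0) ∨
        (L *ᵥ (fun i => algebraMap K E (w i)) = 0 ∧ ∀ j, e j *ᵥ w = 0)) := by
  classical
  obtain ⟨T, T', D, hD⟩ := Pivot.exists_list_transvec_mul_mul_list_transvec_eq_diagonal (e j₀)
  set P : Matrix (Fin 2) (Fin 2) K := (T.map TransvectionStruct.toMatrix).prod with hP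
  set Q : Matrix (Fin 2) (Fin 2) K := (T'.map TransvectionStruct.toMatrix).prod with hQ
  have hPdet : P.det = 1 := TransvectionStruct.det_toMatrix_prod T
  have hQdet : Q.det = 1 := TransvectionStruct.det_toMatrix_prod T'
  have hPP : P⁻¹ * P = 1 := nonsing_inv_mul _ (by rw [hPdet]; exact isUnit_one)
  have hQQ : Q * Q⁻¹ = 1 := mul_nonsing_inv _ (by rw [hQdet]; exact isUnit_one)
  have hmap : ∀ X Y : Matrix (Fin 2) (Fin 2) K, (X * Y).map (algebraMap K E) =
      X.map (algebraMap K E) * Y.map (algebraMap K E) := fun X Y =>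
    Matrix.map_mul (f := algebraMap K E)
  have hmap1 : (1 : Matrix (Fin 2) (Fin 2) K).map (algebraMap K E) = 1 := by simp
  let L' := P.map (algebraMap K E) * L * Q.map (algebraMap K E)
  let e' : ι → Matrix (Fin 2) (Fin 2) K := fun j => P * e j * Q
  have h' : ∀ z : ι → K, (L' + (∑ j, z j • e' j).map (algebraMap K E)).det = 0 := by
    intro z
    have h1 : ∑ j, z j • e' j = P * (∑ j, z j • e j) * Q := by
      simp only [e', Finset.mul_sum, Finset.sum_mul, Matrix.mul_smul, Matrix.smul_mul]
    have h2 : L' + (∑ j, z j • e' j).map (algebraMap K E) =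
        P.map (algebraMap K E) * (L + (∑ j, z j • e j).map (algebraMap K E)) *
          Q.map (algebraMap K E) := by
      rw [h1, hmap, hmap, Matrix.mul_add, Matrix.add_mul]
    rw [h2, det_mul, det_mul, h z, mul_zero, zero_mul]
  have hback : ∀ X Y : Matrix (Fin 2) (Fin 2) K, P * X * Q = Y → X = P⁻¹ * Y * Q⁻¹ := by
    rintro X Y rfl
    rw [← Matrix.mul_assoc, ← Matrix.mul_assoc, hPP, Matrix.one_mul, Matrix.mul_assoc, hQQ,
      Matrix.mul_one]
  have hne' : e' j₀ ≠ 0 := by
    intro h0
    apply hne
    rw [hback _ _ h0]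
    simp
  obtain ⟨w, hw, h1⟩ := deg_norm L' e' h' j₀ D hD hne'
  have hvm : ∀ (w : Fin 2 → K) (X : Matrix (Fin 2) (Fin 2) K),
      (fun i => algebraMap K E ((w ᵥ* X) i)) =
        (fun i => algebraMap K E (w i)) ᵥ* X.map (algebraMap K E) := by
    intro w X
    funext i
    simp [vecMul, dotProduct, map_sum, map_mul]
  have hmv : ∀ (w : Fin 2 → K) (X : Matrix (Fin 2) (Fin 2) K),
      (fun i => algebraMap K E ((X *ᵥ w) i)) =
        X.map (algebraMap K E) *ᵥ (fun i => algebraMap K E (w i)) := by
    intro w X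
    funext i
    simp [mulVec, dotProduct, map_sum, map_mul]
  have hQQ' : Q.map (algebraMap K E) * Q⁻¹.map (algebraMap K E) = 1 := by
    rw [← hmap, hQQ, hmap1]
  have hPP' : P⁻¹.map (algebraMap K E) * P.map (algebraMap K E) = 1 := by
    rw [← hmap, hPP, hmap1]
  rcases h1 with ⟨h1, h2⟩ | ⟨h1, h2⟩
  · refine ⟨w ᵥ* P, ?_, Or.inl ⟨?_, ?_⟩⟩
    · intro h0
      apply hw
      have h3 : w ᵥ* (P * P⁻¹) = 0 := by rw [← vecMul_vecMul, h0, zero_vecMul]
      rw [mul_nonsing_inv _ (by rw [hPdet]; exact isUnit_one), vecMul_one] at h3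
      exact h3
    · rw [hvm, vecMul_vecMul]
      have h3 : P.map (algebraMap K E) * L = L' * Q⁻¹.map (algebraMap K E) := by
        simp only [L']
        rw [Matrix.mul_assoc, hQQ', Matrix.mul_one]
      rw [h3, ← vecMul_vecMul, h1, zero_vecMul]
    · intro j
      rw [vecMul_vecMul]
      have h3 : P * e j = e' j * Q⁻¹ := by
        simp only [e']
        rw [Matrix.mul_assoc, hQQ, Matrix.mul_one]
      rw [h3, ← vecMul_vecMul, h2 j, zero_vecMul]
  · refine ⟨Q *ᵥ w, ?_, Or.inr ⟨?_, ?_⟩⟩
    · intro h0
      apply hw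
      have h3 : (Q⁻¹ * Q) *ᵥ w = 0 := by rw [← mulVec_mulVec, h0, mulVec_zero]
      rw [nonsing_inv_mul _ (by rw [hQdet]; exact isUnit_one), one_mulVec] at h3
      exact h3
    · rw [hmv, mulVec_mulVec]
      have h3 : L * Q.map (algebraMap K E) = P⁻¹.map (algebraMap K E) * L' := by
        simp only [L']
        rw [← Matrix.mul_assoc, ← Matrix.mul_assoc, hPP', Matrix.one_mul]
      rw [h3, ← mulVec_mulVec, h1, mulVec_zero]
    · intro j
      rw [mulVec_mulVec]
      have h3 : e j * Q = P⁻¹ * e' j := by
        simp only [e']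
        rw [← Matrix.mul_assoc, ← Matrix.mul_assoc, hPP, Matrix.one_mul]
      rw [h3, ← mulVec_mulVec, h2 j, mulVec_zero]

end

end Pool.Agent.ExScale
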