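import Mathlib

/-!
# One of `t + 1` disjoint blocks stays independent after adding `t` elements
-/

set_option autoImplicit false

namespace Pool.Agent.ExScale

open Function

lemma pick {α : Type*} (M : Matroid α) (L : Set α) (hLE : L ⊆ M.E) (t : ℕ) (hfin : L.Finite)
    (hLt : L.ncard ≤ t) (A : Fin (t + 1) → Set α) (hA : ∀ i, (A i).Finite)
    (hdisj : Pairwise (Disjoint on A)) (hind : M.Indep (⋃ i, A i)) :
    ∃ I, M.IsBasis I L ∧ ∃ i, Disjoint I (A i) ∧ M.Indep (I ∪ A i) := by
  obtain ⟨I, hI⟩ := M.exists_isBasis L hLE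
  refine ⟨I, hI, ?_⟩
  set U := ⋃ i, A i with hU
  have hUfin : U.Finite := Set.finite_iUnion hA
  have hUE : U ⊆ M.E := hind.subset_ground
  have hIfin : I.Finite := hfin.subset hI.subset
  obtain ⟨B, hB, hIB⟩ := hI.indep.subset_isBasis_of_subset
    (hI.subset.trans (Set.subset_union_left (t := U))) (Set.union_subset hLE hUE)
  obtain ⟨B', hB', hUB'⟩ := hind.subset_isBasis_of_subset
    (Set.subset_union_right (s := L)) (Set.union_subset hLE hUE)
  have hcardeq : B.encard = B'.encard := hB.encard_eq_encard hB'
  have hLUfin : (L ∪ U).Finite := hfin.union hUfin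
  have hBfin : B.Finite := hLUfin.subset hB.subset
  have hB'fin : B'.Finite := hLUfin.subset hB'.subset
  have hcard : U.ncard ≤ B.ncard := by
    have h1 : U.ncard ≤ B'.ncard := Set.ncard_le_ncard hUB' hB'fin
    have h2 : B.ncard = B'.ncard := by
      rw [Set.ncard_def, Set.ncard_def, hcardeq]
    omega
  have hsub : B \ I ⊆ U := by
    rintro b ⟨hbB, hbI⟩
    rcases hB.subset hbB with hbL | hbU
    · exfalso
      have h1 : M.Indep (insert b I) := hB.indep.subset (Set.insert_subset hbB hIB)
      exact hbI (hI.mem_of_insert_indep hbL h1)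
    · exact hbU
  have hBI : (B \ I).ncard + I.ncard = B.ncard := Set.ncard_sdiff_add_ncard_of_subset hIB hBfin
  have hUB : (U \ (B \ I)).ncard + (B \ I).ncard = U.ncard :=
    Set.ncard_sdiff_add_ncard_of_subset hsub hUfin
  have hIt : I.ncard ≤ t := (Set.ncard_le_ncard hI.subset hfin).trans hLt
  have hsmall : (U \ (B \ I)).ncard ≤ t := by omega
  by_contra hcon
  push Not at hcon
  have hex : ∀ i, ∃ a, a ∈ A i ∧ a ∉ B \ I := by
    intro i
    by_contra hne
    push Not at hne
    have h1 : A i ⊆ B \ I := fun a ha => hne a ha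
    refine hcon i ?_ (hB.indep.subset (Set.union_subset hIB (h1.trans Set.sdiff_subset)))
    rw [Set.disjoint_left]
    intro a haI haA
    exact (h1 haA).2 haI
  choose a ha1 ha2 using hex
  have hinj : Function.Injective a := by
    intro i j hij
    by_contra hne
    have h1 := hdisj hne
    rw [Function.onFun, Set.disjoint_left] at h1
    exact h1 (ha1 i) (hij ▸ ha1 j)
  have hrange : Set.range a ⊆ U \ (B \ I) := by
    rintro x ⟨i, rfl⟩
    exact ⟨Set.mem_iUnion.mpr ⟨i, ha1 i⟩, ha2 i⟩
  have h2 : (Set.range a).ncard ≤ (U \ (B \ I)).ncard :=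
    Set.ncard_le_ncard hrange (hUfin.subset Set.sdiff_subset)
  have h3 : (Set.range a).ncard = t + 1 := by
    rw [← Set.image_univ, Set.ncard_image_of_injective _ hinj, Set.ncard_univ]
    simp
  omega

/-- Algebraic version: if `t + 1` finite families are jointly algebraically independent over `K`,
one of them is algebraically independent over a subring whose elements include the given `t`
elements. -/
lemma exists_indep_over {K E : Type*} [Field K] [Field E] [Algebra K E] {t : ℕ} (ℓ : Fin t → E)
    {J : Fin (t + 1) → Type*} [∀ i, Finite (J i)] (x : (Σ i, J i) → E)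
    (hx : AlgebraicIndependent K x) :
    ∃ (i : Fin (t + 1)) (S : Subring E), (∀ s, ℓ s ∈ S) ∧ (∀ k : K, algebraMap K E k ∈ S) ∧
      AlgebraicIndependent S (fun j : J i => x ⟨i, j⟩) := by
  let M := AlgebraicIndependent.matroid K E
  have hinj : Function.Injective x := hx.injective
  let A : Fin (t + 1) → Set E := fun i => Set.range (fun j : J i => x ⟨i, j⟩)
  have hA : ∀ i, (A i).Finite := fun i => Set.finite_range _
  have hdisj : Pairwise (Disjoint on A) := by
    intro i j hij
    rw [Function.onFun, Set.disjoint_left]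
    rintro y ⟨a, rfl⟩ ⟨b, hb⟩
    have := hinj hb
    exact hij (congrArg Sigma.fst this).symm
  have hUeq : (⋃ i, A i) = Set.range x := by
    ext y
    simp only [A, Set.mem_iUnion, Set.mem_range, Sigma.exists]
  have hind : M.Indep (⋃ i, A i) := by
    rw [hUeq]
    exact AlgebraicIndependent.matroid_indep_iff.mpr hx.to_subtype_range
  obtain ⟨I, hI, i, hdis, hIA⟩ := pick M (Set.range ℓ) (Set.subset_univ _) t (Set.finite_range _)
    (by
      rw [← Set.image_univ]
      refine (Set.ncard_image_le (Set.finite_univ)).trans ?_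
      simp) A hA hdisj hind
  have hbasis := AlgebraicIndependent.matroid_isBasis_iff.mp hI
  have hIA' : AlgebraicIndepOn K id (I ∪ A i) := hIA
  -- independence of `A i` over `K[I]`
  let R := Algebra.adjoin K I
  have h1 : AlgebraicIndependent R (fun j : J i => x ⟨i, j⟩) := by
    have h2 : AlgebraicIndependent K (fun y : ((I ∪ A i : Set E) : Type _) => (y : E)) := hIA'
    have h3 := h2.adjoin_of_disjoint (s := {y | (y : E) ∈ I}) (t := {y | (y : E) ∈ A i}) (by
      rw [Set.disjoint_left]
      intro y hy1 hy2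
      exact Set.disjoint_left.mp hdis hy1 hy2)
    have h4 : (fun y : ((I ∪ A i : Set E) : Type _) => (y : E)) '' {y | (y : E) ∈ I} = I := by
      ext y
      constructor
      · rintro ⟨z, hz, rfl⟩
        exact hz
      · intro hy
        exact ⟨⟨y, Or.inl hy⟩, hy, rfl⟩
    rw [h4] at h3
    have h5 := h3.comp (fun j : J i => (⟨⟨x ⟨i, j⟩, Or.inr ⟨j, rfl⟩⟩, ⟨j, rfl⟩⟩ :
      {y : ((I ∪ A i : Set E) : Type _) | (y : E) ∈ A i})) (by
        intro j j' hjj'
        have h6 : x ⟨i, j⟩ = x ⟨i, j'⟩ := by
          have := congrArg (fun z => ((z : ((I ∪ A i : Set E) : Type _)) : E))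
            (congrArg Subtype.val hjj')
          exact this
        have h7 := hinj h6
        simpa using h7)
    exact h5
  have h2 := h1.subalgebraAlgebraicClosure
  refine ⟨i, (Subalgebra.algebraicClosure R E).toSubring, ?_, ?_, h2⟩
  · intro s
    change IsAlgebraic R (ℓ s)
    exact hbasis.2.2 _ ⟨s, rfl⟩
  · intro k
    change IsAlgebraic R (algebraMap K E k)
    exact isAlgebraic_algebraMap (algebraMap K R k)

end Pool.Agent.ExScale
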