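import Mathlib
import Pool.Agent.ExScale.Coords
import Pool.Agent.ExScale.Matr
import Pool.Agent.ExScale.AlgLin
import Pool.Agent.ExScale.Deg
import Pool.Agent.OneClass.Forms

/-!
# At most `t` independent singular matrices over `t` bases
-/

set_option autoImplicit false

namespace Pool.Agent.ExScale

open Filter Topology Pool.Agent.OneClass

/-- Clearing denominators in a rational combination. -/
lemma clear {ι : Type*} [Fintype ι] [DecidableEq ι] (a b : ι → ℤ) (hb : ∀ i, b i ≠ 0)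
    (y : ι → ℝ) (s : Finset ι) :
    ∑ i ∈ s, ((a i * ∏ j ∈ Finset.univ.erase i, b j : ℤ) : ℝ) * y i =
      ((∏ j, b j : ℤ) : ℝ) * ∑ i ∈ s, ((a i : ℝ) / (b i : ℝ)) * y i := by
  rw [Finset.mul_sum]
  apply Finset.sum_congr rfl
  intro i _
  rw [← Finset.mul_prod_erase Finset.univ b (Finset.mem_univ i)]
  have hb' : (b i : ℝ) ≠ 0 := by exact_mod_cast hb i
  push_cast
  field_simp

/-- `t + 1` independent singular matrices over `t` bases at scale `H`. -/
structure Sys (t R : ℕ) (δ A : ℝ) where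
  H : ℝ
  ℓ : Fin t → ℝ
  G : Fin R → ℚ
  c : Fin (t + 1) → Fin 2 → Fin 2 → Fin t → ℤ
  m : Fin (t + 1) → Fin 2 → Fin 2 → Fin R → ℤ
  M : Fin (t + 1) → Matrix (Fin 2) (Fin 2) ℝ
  pos : ∀ k, 0 < G k
  den : ∀ k, ((G k).den : ℝ) ≤ H
  close : ∀ k, |(G k : ℝ) - 1| ≤ H ^ (-δ)
  cb : ∀ i a b s, |(c i a b s : ℝ)| ≤ H ^ A
  mb : ∀ i a b k, |(m i a b k : ℝ)| ≤ H ^ A
  hM : ∀ i a b, M i a b = ∑ s, (c i a b s : ℝ) * ℓ s + ∑ k, (m i a b k : ℝ) * Real.log (G k)
  row : ∀ i, RowsIndep (M i)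
  col : ∀ i, RowsIndep (M i).transpose
  det : ∀ i, (M i).det = 0
  ne : ∀ i, ∃ p : Fin 2 × Fin 2, ∑ k, (m i p.1 p.2 k : ℝ) * Real.log (G k) ≠ 0
  dir : ∀ N : Fin (t + 1) → Fin 2 × Fin 2 → ℤ,
    ∑ i, ∑ p, (N i p : ℝ) * ∑ k, (m i p.1 p.2 k : ℝ) * Real.log (G k) = 0 →
    ∀ i, ∑ p, (N i p : ℝ) * ∑ k, (m i p.1 p.2 k : ℝ) * Real.log (G k) = 0

/-- the near-one part of an entry -/
noncomputable def Sys.near {t R : ℕ} {δ A : ℝ} (D : Sys t R δ A) (i : Fin (t + 1))
    (p : Fin 2 × Fin 2) : ℝ := ∑ k, (D.m i p.1 p.2 k : ℝ) * Real.log (D.G k)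

theorem sys_false (t R : ℕ) (δ A : ℝ) (hδ : 0 < δ) (D : ℕ → Sys t R δ A)
    (hΩn : ∀ n : ℕ, (n:ℝ) + 2 ≤ (D n).H) : False := by
  classical
  let Ω : ℕ → ℝ := fun n => (D n).H
  have hΩ : ∀ n, 2 ≤ Ω n := fun n => by
    have h1 := hΩn n
    have h2 : (0:ℝ) ≤ n := Nat.cast_nonneg n
    linarith
  have hlim : Tendsto Ω atTop atTop := by
    exact tendsto_atTop_mono (fun n : ℕ => (by linarith [hΩn n] : (n:ℝ) ≤ Ω n))
      tendsto_natCast_atTop_atTop
  obtain ⟨J₀, q, hAI, hq⟩ := coords Ω hΩ hlim δ hδ (fun n => (D n).G) (fun n => (D n).pos)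
    (fun n => (D n).den) (fun n => (D n).close)
  -- bounded integers
  obtain ⟨A', hA'⟩ := exists_nat_ge (max A 0)
  have hpow : ∀ n, Ω n ^ A ≤ Ω n ^ A' := by
    intro n
    have h1 : Ω n ^ A ≤ Ω n ^ (A' : ℝ) :=
      Real.rpow_le_rpow_of_exponent_le (by linarith [hΩ n]) ((le_max_left _ _).trans hA')
    rwa [Real.rpow_natCast] at h1
  have hcK : ∀ i a b s, gm (fun n => ((D n).c i a b s : ℝ)) ∈ K0 Ω hΩ := fun i a b s =>
    int_mem_K0 hΩ ⟨A', Eventually.of_forall (fun n => ((D n).cb i a b s).trans (hpow n))⟩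
  have hmK : ∀ i a b k, gm (fun n => ((D n).m i a b k : ℝ)) ∈ K0 Ω hΩ := fun i a b k =>
    int_mem_K0 hΩ ⟨A', Eventually.of_forall (fun n => ((D n).mb i a b k).trans (hpow n))⟩
  -- the near-one parts
  let Y : Fin (t + 1) → Fin 2 × Fin 2 → Hyperreal := fun i p => gm (fun n => (D n).near i p)
  let X : J₀ → Hyperreal := fun j => gm (fun n => Real.log ((D n).G j))
  let u : Fin (t + 1) → Fin 2 × Fin 2 → J₀ → K0 Ω hΩ := fun i p j =>
    ∑ k, (⟨_, hmK i p.1 p.2 k⟩ : K0 Ω hΩ) * q k j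
  have hYX : ∀ i p, Y i p = ∑ j, u i p j • X j := by
    intro i p
    calc Y i p = ∑ k, gm (fun n => ((D n).m i p.1 p.2 k : ℝ)) * gm (fun n => Real.log ((D n).G k)) := by
          simp only [Y, Sys.near]
          rw [gm_sum]
          rfl
      _ = ∑ k, ∑ j, ((⟨_, hmK i p.1 p.2 k⟩ : K0 Ω hΩ) * q k j) • X j := by
          apply Finset.sum_congr rfl
          intro k _
          rw [hq, Finset.mul_sum]
          apply Finset.sum_congr rfl
          intro j _
          rw [mul_smul]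
          rfl
      _ = ∑ j, u i p j • X j := by
          rw [Finset.sum_comm]
          apply Finset.sum_congr rfl
          intro j _
          rw [← Finset.sum_smul]
  -- bases of the spans of the near-one parts
  have hbas : ∀ i, ∃ I : Finset (Fin 2 × Fin 2), LinearIndepOn (K0 Ω hΩ) (Y i) (I : Set _) ∧
      ∀ p, ∃ e : I → K0 Ω hΩ, Y i p = ∑ x, e x • Y i x := by
    intro i
    obtain ⟨b, -, -, hb1, hb2⟩ := exists_linearIndepOn_extension (K := K0 Ω hΩ)
      (v := Y i) (linearIndepOn_empty (K0 Ω hΩ) _) (Set.empty_subset (Set.univ))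
    refine ⟨b.toFinset, ?_, fun p => ?_⟩
    · rw [Set.coe_toFinset]
      exact hb2
    · have h1 : Y i p ∈ Submodule.span (K0 Ω hΩ) (Set.range fun x : b.toFinset => Y i x) := by
        have h2 : (Set.range fun x : b.toFinset => Y i x) = Y i '' b := by
          ext y
          constructor
          · rintro ⟨⟨x, hx⟩, rfl⟩
            exact ⟨x, Set.mem_toFinset.mp hx, rfl⟩
          · rintro ⟨x, hx, rfl⟩
            exact ⟨⟨x, Set.mem_toFinset.mpr hx⟩, rfl⟩
        rw [h2]
        exact hb1 ⟨p, Set.mem_univ _, rfl⟩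
      obtain ⟨e, he⟩ := (Submodule.mem_span_range_iff_exists_fun (K0 Ω hΩ)).mp h1
      exact ⟨e, he.symm⟩
  choose I hI1 hI2 using hbas
  let YI : (Σ i, I i) → Hyperreal := fun p => Y p.1 p.2
  have hYind : LinearIndependent (K0 Ω hΩ) YI := by
    rw [Fintype.linearIndependent_iff]
    intro lam hlam
    choose a b ha hb hb0 hab using fun p => (lam p).2
    have hb0' : ∀ᶠ n in U, ∀ p, b p n ≠ 0 := by
      rw [Filter.eventually_all]
      exact hb0
    have hsum : ∀ᶠ n in U, ∑ p : (Σ i, I i), ((a p n : ℝ) / (b p n : ℝ)) * (D n).near p.1 p.2 =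
        0 := by
      rw [← gm_eq_iff (fun n => ∑ p : (Σ i, I i), ((a p n : ℝ) / (b p n : ℝ)) * (D n).near p.1 p.2)
        (fun _ => 0), gm_zero, gm_sum, ← hlam]
      apply Finset.sum_congr rfl
      intro p _
      rw [gm_mul, ← hab p]
      rfl
    have hpart : ∀ i, ∑ x : I i, lam ⟨i, x⟩ • Y i x = 0 := by
      intro i
      have h1 : ∑ x : I i, lam ⟨i, x⟩ • Y i x =
          gm (fun n => ∑ x : I i, ((a ⟨i, x⟩ n : ℝ) / (b ⟨i, x⟩ n : ℝ)) * (D n).near i x) := by
        rw [gm_sum]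
        apply Finset.sum_congr rfl
        intro x _
        rw [gm_mul, ← hab ⟨i, x⟩]
        rfl
      rw [h1, ← gm_zero, gm_eq_iff]
      filter_upwards [hb0', hsum] with n h2 h3
      let N : Fin (t + 1) → Fin 2 × Fin 2 → ℤ := fun i p =>
        if h : p ∈ I i then a ⟨i, ⟨p, h⟩⟩ n *
          ∏ y ∈ Finset.univ.erase (⟨i, ⟨p, h⟩⟩ : (Σ i, I i)), b y n else 0
      have hN : ∀ i, ∑ p, (N i p : ℝ) * (D n).near i p =
          ((∏ y, b y n : ℤ) : ℝ) *
            ∑ x : I i, ((a ⟨i, x⟩ n : ℝ) / (b ⟨i, x⟩ n : ℝ)) * (D n).near i x := by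
        intro i
        rw [← Finset.sum_subset (Finset.subset_univ (I i)) (fun p _ hp => by
          simp only [N, dif_neg hp, Int.cast_zero, zero_mul]), ← Finset.sum_coe_sort (I i),
          Finset.mul_sum]
        apply Finset.sum_congr rfl
        rintro ⟨p, hp⟩ _
        have h4 := clear (fun y : (Σ i, I i) => a y n) (fun y => b y n) h2
          (fun y => (D n).near y.1 y.2) {⟨i, ⟨p, hp⟩⟩}
        rw [Finset.sum_singleton, Finset.sum_singleton] at h4
        simp only [N, dif_pos hp]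
        exact h4
      have h4 := (D n).dir N (by
        change ∑ i, ∑ p, (N i p : ℝ) * (D n).near i p = 0
        simp only [hN]
        rw [← Finset.mul_sum]
        have h5 : ∑ i, ∑ x : I i, ((a ⟨i, x⟩ n : ℝ) / (b ⟨i, x⟩ n : ℝ)) * (D n).near i x =
            ∑ p : (Σ i, I i), ((a p n : ℝ) / (b p n : ℝ)) * (D n).near p.1 p.2 := by
          rw [Fintype.sum_sigma]
        rw [h5, h3, mul_zero]) i
      have h5 : ∑ p, (N i p : ℝ) * (D n).near i p = 0 := h4
      rw [hN] at h5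
      refine (mul_eq_zero.mp h5).resolve_left ?_
      exact_mod_cast Finset.prod_ne_zero_iff.mpr (fun y _ => h2 y)
    rintro ⟨i, x⟩
    exact Fintype.linearIndependent_iff.mp (hI1 i) (fun x => lam ⟨i, x⟩) (hpart i) x
  have hYX' : ∀ p : (Σ i, I i), YI p = ∑ j, (u p.1 p.2) j • X j := fun p => hYX _ _
  have hAI2 : AlgebraicIndependent (K0 Ω hΩ) YI :=
    alg_lin (K := K0 Ω hΩ) (E := Hyperreal) X hAI (fun p : (Σ i, I i) => u p.1 p.2) YI hYX' hYind
  obtain ⟨i, S, hS1, hS2, hS3⟩ := exists_indep_over (K := K0 Ω hΩ) (E := Hyperreal)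
    (fun s => gm (fun n => (D n).ℓ s)) (J := fun i => I i) YI hAI2
  have hKS : ∀ z : K0 Ω hΩ, (z : Hyperreal) ∈ S := fun z => hS2 z
  choose e he using hI2 i
  -- the pure parts
  let L : Matrix (Fin 2) (Fin 2) Hyperreal := fun a b =>
    gm (fun n => ∑ s, ((D n).c i a b s : ℝ) * (D n).ℓ s)
  have hLS : ∀ a b, L a b ∈ S := by
    intro a b
    simp only [L]
    rw [gm_sum]
    apply S.sum_mem
    intro s _
    rw [gm_mul]
    exact S.mul_mem (hKS ⟨_, hcK i a b s⟩) (hS1 s)
  have hML : ∀ a b, gm (fun n => (D n).M i a b) = L a b + Y i (a, b) := by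
    intro a b
    simp only [L, Y, Sys.near]
    rw [← gm_add]
    congr 1
    funext n
    exact (D n).hM i a b
  -- the determinant as a polynomial over `S`
  let P : Fin 2 → Fin 2 → MvPolynomial (I i) S := fun a b =>
    MvPolynomial.C ⟨L a b, hLS a b⟩ +
      ∑ x : I i, MvPolynomial.C ⟨_, hKS (e (a, b) x)⟩ * MvPolynomial.X x
  have hPev : ∀ (z : I i → Hyperreal) a b, MvPolynomial.aeval z (P a b) =
      L a b + ∑ x : I i, (e (a, b) x : Hyperreal) * z x := by
    intro z a b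
    simp only [P, map_add, map_sum, map_mul, MvPolynomial.aeval_C, MvPolynomial.aeval_X]
    rfl
  have hPY : ∀ a b, MvPolynomial.aeval (fun x : I i => YI ⟨i, x⟩) (P a b) =
      gm (fun n => (D n).M i a b) := by
    intro a b
    rw [hPev, hML, he (a, b)]
    rfl
  have hdet0 : P 0 0 * P 1 1 - P 0 1 * P 1 0 = 0 := by
    apply (algebraicIndependent_iff.mp hS3)
    rw [map_sub, map_mul, map_mul, hPY, hPY, hPY, hPY]
    have h1 : gm (fun n => (D n).M i 0 0) * gm (fun n => (D n).M i 1 1) -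
        gm (fun n => (D n).M i 0 1) * gm (fun n => (D n).M i 1 0) =
        gm (fun n => ((D n).M i).det) := by
      rw [← gm_mul, ← gm_mul, sub_eq_add_neg, ← gm_neg, ← gm_add]
      congr 1
      funext n
      rw [Matrix.det_fin_two]
      ring
    rw [h1, ← gm_zero, gm_eq_iff]
    exact Eventually.of_forall (fun n => (D n).det i)
  let e' : I i → Matrix (Fin 2) (Fin 2) (K0 Ω hΩ) := fun x => Matrix.of fun a b => e (a, b) x
  have hsing : ∀ z : I i → K0 Ω hΩ,
      (L + (∑ x, z x • e' x).map (algebraMap (K0 Ω hΩ) Hyperreal)).det = 0 := by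
    intro z
    have h1 : ∀ a b, (L + (∑ x, z x • e' x).map (algebraMap (K0 Ω hΩ) Hyperreal)) a b =
        MvPolynomial.aeval (fun x => (z x : Hyperreal)) (P a b) := by
      intro a b
      rw [hPev, Matrix.add_apply, Matrix.map_apply, Matrix.sum_apply, map_sum]
      congr 1
      apply Finset.sum_congr rfl
      intro x _
      rw [Matrix.smul_apply, smul_eq_mul, map_mul, mul_comm]
      rfl
    rw [Matrix.det_fin_two, h1, h1, h1, h1, ← map_mul, ← map_mul, ← map_sub, hdet0, map_zero]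
  have hne' : ∃ x, e' x ≠ 0 := by
    by_contra hcon
    push Not at hcon
    have h1 : ∀ p, Y i p = 0 := by
      intro p
      rw [he p]
      apply Finset.sum_eq_zero
      intro x _
      have h2 : e p x = 0 := by
        have h3 := congrFun (congrFun (hcon x) p.1) p.2
        exact h3
      rw [h2, zero_smul]
    have h2 : ∀ᶠ n in U, ∀ p, (D n).near i p = 0 := by
      rw [Filter.eventually_all]
      intro p
      have h3 := h1 p
      simp only [Y] at h3
      rw [← gm_zero, gm_eq_iff] at h3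
      exact h3
    obtain ⟨n, hn⟩ := h2.exists
    obtain ⟨p, hp⟩ := (D n).ne i
    exact hp (hn p)
  obtain ⟨x₀, hx₀⟩ := hne'
  obtain ⟨w, hw, hker⟩ := deg L e' hsing x₀ hx₀
  choose α β hα hβ hβ0 hw' using fun a => (w a).2
  have hβ' : ∀ᶠ n in U, ∀ a, β a n ≠ 0 := by
    rw [Filter.eventually_all]
    exact hβ0
  -- the vector of rationals is nonzero
  have hw0 : ¬ ∀ᶠ n in U, ∀ a, ((α a n : ℚ) / (β a n : ℚ)) = 0 := by
    intro hcon
    apply hw
    funext a
    apply Subtype.ext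
    rw [hw' a]
    change _ = (0 : Hyperreal)
    rw [← gm_zero, gm_eq_iff]
    filter_upwards [hcon] with n hn
    have := hn a
    exact_mod_cast this
  rcases hker with ⟨h1, h2⟩ | ⟨h1, h2⟩
  · have h3 : ∀ b, ∑ a, (w a : Hyperreal) * gm (fun n => (D n).M i a b) = 0 := by
      intro b
      have h4 : ∑ a, (w a : Hyperreal) * L a b = 0 := congrFun h1 b
      have h5 : ∀ x, ∑ a, (w a : Hyperreal) * (e (a, b) x : Hyperreal) = 0 := by
        intro x
        have h6 : ∑ a, w a * e (a, b) x = 0 := congrFun (h2 x) b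
        have h7 := congrArg (algebraMap (K0 Ω hΩ) Hyperreal) h6
        rw [map_sum, map_zero] at h7
        rw [← h7]
        exact Finset.sum_congr rfl (fun a _ => by rw [map_mul]; rfl)
      calc ∑ a, (w a : Hyperreal) * gm (fun n => (D n).M i a b)
          = ∑ a, (w a : Hyperreal) * L a b +
              ∑ x : I i, (∑ a, (w a : Hyperreal) * (e (a, b) x : Hyperreal)) * Y i x := by
            simp only [Finset.sum_mul]
            rw [Finset.sum_comm, ← Finset.sum_add_distrib]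
            apply Finset.sum_congr rfl
            intro a _
            rw [hML, he (a, b), mul_add, Finset.mul_sum]
            congr 1
            apply Finset.sum_congr rfl
            intro x _
            rw [mul_assoc]
            rfl
        _ = 0 := by
            rw [h4, zero_add]
            apply Finset.sum_eq_zero
            intro x _
            rw [h5, zero_mul]
    have h4 : ∀ᶠ n in U, ∀ b, ∑ a, ((α a n : ℝ) / (β a n : ℝ)) * (D n).M i a b = 0 := by
      rw [Filter.eventually_all]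
      intro b
      rw [← gm_eq_iff (fun n => ∑ a, ((α a n : ℝ) / (β a n : ℝ)) * (D n).M i a b) (fun _ => 0),
        gm_zero, gm_sum, ← h3 b]
      apply Finset.sum_congr rfl
      intro a _
      rw [gm_mul, hw' a]
    apply hw0
    filter_upwards [h4] with n hn
    have h5 := (D n).row i ((α 0 n : ℚ) / (β 0 n : ℚ)) ((α 1 n : ℚ) / (β 1 n : ℚ)) (by
      intro b
      have h6 := hn b
      rw [Fin.sum_univ_two] at h6
      push_cast
      exact h6)
    intro a
    fin_cases a
    · exact h5.1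
    · exact h5.2
  · have h3 : ∀ a, ∑ b, gm (fun n => (D n).M i a b) * (w b : Hyperreal) = 0 := by
      intro a
      have h4 : ∑ b, L a b * (w b : Hyperreal) = 0 := congrFun h1 a
      have h5 : ∀ x, ∑ b, (e (a, b) x : Hyperreal) * (w b : Hyperreal) = 0 := by
        intro x
        have h6 : ∑ b, e (a, b) x * w b = 0 := congrFun (h2 x) a
        have h7 := congrArg (algebraMap (K0 Ω hΩ) Hyperreal) h6
        rw [map_sum, map_zero] at h7
        rw [← h7]
        exact Finset.sum_congr rfl (fun a _ => by rw [map_mul]; rfl)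
      calc ∑ b, gm (fun n => (D n).M i a b) * (w b : Hyperreal)
          = ∑ b, L a b * (w b : Hyperreal) +
              ∑ x : I i, (∑ b, (e (a, b) x : Hyperreal) * (w b : Hyperreal)) * Y i x := by
            simp only [Finset.sum_mul]
            rw [Finset.sum_comm, ← Finset.sum_add_distrib]
            apply Finset.sum_congr rfl
            intro b _
            rw [hML, he (a, b), add_mul, Finset.sum_mul]
            congr 1
            apply Finset.sum_congr rfl
            intro x _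
            rw [mul_right_comm]
            rfl
        _ = 0 := by
            rw [h4, zero_add]
            apply Finset.sum_eq_zero
            intro x _
            rw [h5, zero_mul]
    have h4 : ∀ᶠ n in U, ∀ a, ∑ b, (D n).M i a b * ((α b n : ℝ) / (β b n : ℝ)) = 0 := by
      rw [Filter.eventually_all]
      intro a
      rw [← gm_eq_iff (fun n => ∑ b, (D n).M i a b * ((α b n : ℝ) / (β b n : ℝ))) (fun _ => 0),
        gm_zero, gm_sum, ← h3 a]
      apply Finset.sum_congr rfl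
      intro b _
      rw [gm_mul, hw' b]
    apply hw0
    filter_upwards [h4] with n hn
    have h5 := (D n).col i ((α 0 n : ℚ) / (β 0 n : ℚ)) ((α 1 n : ℚ) / (β 1 n : ℚ)) (by
      intro a
      have h6 := hn a
      rw [Fin.sum_univ_two] at h6
      push_cast
      rw [Matrix.transpose_apply, Matrix.transpose_apply]
      linear_combination h6)
    intro a
    fin_cases a
    · exact h5.1
    · exact h5.2

theorem indep_core (t R : ℕ) (δ A : ℝ) (hδ : 0 < δ) :
    ∃ H₀ : ℝ, ∀ H : ℝ, H₀ ≤ H → ∀ (ℓ : Fin t → ℝ) (G : Fin R → ℚ)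
      (c : Fin (t + 1) → Fin 2 → Fin 2 → Fin t → ℤ) (m : Fin (t + 1) → Fin 2 → Fin 2 → Fin R → ℤ)
      (M : Fin (t + 1) → Matrix (Fin 2) (Fin 2) ℝ),
      (∀ k, 0 < G k) → (∀ k, ((G k).den : ℝ) ≤ H) → (∀ k, |(G k : ℝ) - 1| ≤ H ^ (-δ)) →
      (∀ i a b s, |(c i a b s : ℝ)| ≤ H ^ A) → (∀ i a b k, |(m i a b k : ℝ)| ≤ H ^ A) →
      (∀ i a b, M i a b = ∑ s, (c i a b s : ℝ) * ℓ s + ∑ k, (m i a b k : ℝ) * Real.log (G k)) →
      (∀ i, RowsIndep (M i)) → (∀ i, RowsIndep (M i).transpose) → (∀ i, (M i).det = 0) →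
      (∀ i, ∃ a b, ∑ k, (m i a b k : ℝ) * Real.log (G k) ≠ 0) →
      ∃ N : Fin (t + 1) → Fin 2 × Fin 2 → ℤ,
        ∑ i, ∑ p, (N i p : ℝ) * ∑ k, (m i p.1 p.2 k : ℝ) * Real.log (G k) = 0 ∧
        ∃ i, ∑ p, (N i p : ℝ) * ∑ k, (m i p.1 p.2 k : ℝ) * Real.log (G k) ≠ 0 := by
  by_contra hcon
  push Not at hcon
  have hseq : ∀ n : ℕ, ∃ D : Sys t R δ A, (n:ℝ) + 2 ≤ D.H := by
    intro n
    obtain ⟨H, h1, ℓ, G, c, m, M, h2, h3, h4, h5, h6, h7, h8, h9, h10, h11, h12⟩ :=
      hcon ((n : ℝ) + 2)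
    refine ⟨⟨H, ℓ, G, c, m, M, h2, h3, h4, h5, h6, h7, h8, h9, h10, fun i => ?_, h12⟩, h1⟩
    obtain ⟨a, b, hab⟩ := h11 i
    exact ⟨(a, b), hab⟩
  choose D hD using hseq
  exact sys_false t R δ A hδ D hD

end Pool.Agent.ExScale
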