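import Mathlib
import Pool.Agent.ExScale.Core
import Pool.Agent.ExScale.Rel

/-!
# At most `t` independent counterexamples over `t` bases, at all scales
-/

set_option autoImplicit false

namespace Pool.Agent.ExScale

open Filter Topology Pool.Agent.OneClass Pool.Agent.FewGroups

/-- Integer combinations of near-one logarithms at separated scales are independent. -/
theorem direct_scales (t r : ℕ) (δ : ℝ) (hδ : 0 < δ) :
    ∃ κ : ℝ, 1 ≤ κ ∧ ∀ B : ℝ, ∃ H₀ : ℝ, ∀ H : Fin (t + 1) → ℝ, (∀ i, H₀ ≤ H i) →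
      (∀ i j, i < j → H i ^ κ ≤ H j) → (∀ i j, H i ≤ H j ^ B) →
      ∀ g : Fin (t + 1) → Fin r → ℚ, (∀ i k, 0 < g i k) → (∀ i k, ((g i k).den : ℝ) ≤ H i) →
      (∀ i k, |(g i k : ℝ) - 1| ≤ H i ^ (-δ)) →
      ∀ E : Fin (t + 1) → Fin r → ℤ,
      ∑ i, ∑ k, (E i k : ℝ) * Real.log (g i k) = 0 →
      ∀ i, ∑ k, (E i k : ℝ) * Real.log (g i k) = 0 := by
  classical
  obtain ⟨κ, hκ1, hsep⟩ := sep r ((t + 1) * r) δ hδ
  refine ⟨κ, hκ1, fun B => ?_⟩
  obtain ⟨H₀, hH₀⟩ := hsep B
  refine ⟨max H₀ 1, fun H hH hHκ hHB g hg hden hclose E hsum => ?_⟩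
  have hHH₀ : ∀ i, H₀ ≤ H i := fun i => (le_max_left _ _).trans (hH i)
  have hH1 : ∀ i, 1 ≤ H i := fun i => (le_max_right _ _).trans (hH i)
  have hmono : ∀ i j, i ≤ j → H i ≤ H j := by
    intro i j hij
    rcases eq_or_lt_of_le hij with rfl | hlt
    · exact le_rfl
    · refine le_trans ?_ (hHκ i j hlt)
      conv_lhs => rw [← Real.rpow_one (H i)]
      exact Real.rpow_le_rpow_of_exponent_le (hH1 i) hκ1
  let w : Fin (t + 1) → ℝ := fun i => ∑ k, (E i k : ℝ) * Real.log (g i k)
  have hsum : ∑ i, w i = 0 := hsum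
  have hzero : ∀ m : ℕ, ∀ i : Fin (t + 1), (i : ℕ) = m → w i = 0 := by
    intro m
    induction m using Nat.strong_induction_on with
    | _ m ih =>
      intro i him
      have hlow : ∀ j : Fin (t + 1), j < i → w j = 0 := fun j hj =>
        ih j (by rw [← him]; exact hj) j rfl
      have hsplit : w i = -∑ j ∈ Finset.univ.filter (fun j => i < j), w j := by
        have h1 : ∑ j, w j = w i + ∑ j ∈ Finset.univ.filter (fun j => i < j), w j := by
          rw [← Finset.add_sum_erase Finset.univ w (Finset.mem_univ i)]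
          congr 1
          symm
          apply Finset.sum_subset
          · intro j hj
            rw [Finset.mem_filter] at hj
            rw [Finset.mem_erase]
            exact ⟨hj.2.ne', Finset.mem_univ _⟩
          · intro j hj hj'
            rw [Finset.mem_erase] at hj
            rw [Finset.mem_filter] at hj'
            apply hlow
            have h2 : ¬ i < j := fun h => hj' ⟨Finset.mem_univ _, h⟩
            exact lt_of_le_of_ne (not_lt.mp h2) hj.1
        rw [hsum] at h1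
        linarith
      by_cases hlast : (i : ℕ) = t
      · rw [hsplit, Finset.sum_eq_zero, neg_zero]
        intro j hj
        rw [Finset.mem_filter] at hj
        exfalso
        have h1 : (i : ℕ) < j := hj.2
        have h2 := j.2
        omega
      · have hi1 : (i : ℕ) + 1 < t + 1 := by
          have := i.2
          omega
        let i' : Fin (t + 1) := ⟨(i : ℕ) + 1, hi1⟩
        have hii' : i < i' := by
          change (i : ℕ) < (i : ℕ) + 1
          omega
        let tf : Fin ((t + 1) * r) → ℚ := fun p =>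
          if i < (finProdFinEquiv.symm p).1 then
            g (finProdFinEquiv.symm p).1 (finProdFinEquiv.symm p).2 else 1
        have htf : ∀ j k, i < j → tf (finProdFinEquiv (j, k)) = g j k := by
          intro j k hij
          simp only [tf, Equiv.symm_apply_apply, hij, if_true]
        apply hH₀ (H i) (H i') (H (Fin.last t)) (hHH₀ i) (hHκ i i' hii')
          (hmono _ _ (Fin.le_last _)) (hHB _ _) (g i) tf (hg i) (hden i) (hclose i)
        · intro p
          simp only [tf]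
          split_ifs
          · exact hg _ _
          · exact one_pos
        · intro p
          simp only [tf]
          split_ifs
          · exact (hden _ _).trans (hmono _ _ (Fin.le_last _))
          · simpa using hH1 _
        · intro p
          simp only [tf]
          split_ifs with hp
          · refine (hclose _ _).trans ?_
            apply Real.rpow_le_rpow_of_nonpos (by linarith [hH1 i']) _ (by linarith)
            apply hmono
            change (i : ℕ) + 1 ≤ _
            have h1 : (i : ℕ) < (finProdFinEquiv.symm p).1 := hp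
            omega
          · simp only [Rat.cast_one, sub_self, abs_zero]
            exact Real.rpow_nonneg (by linarith [hH1 i']) _
        · change w i ∈ logSpan tf
          rw [hsplit]
          apply Submodule.neg_mem
          apply Submodule.sum_mem
          intro j hj
          rw [Finset.mem_filter] at hj
          simp only [w]
          apply Submodule.sum_mem
          intro k _
          have h1 : (E j k : ℝ) * Real.log (g j k) = (E j k : ℚ) • Real.log (g j k) := by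
            rw [Rat.smul_def]
            push_cast
            rfl
          rw [h1, ← htf j k hj.2]
          exact Submodule.smul_mem _ _ (log_mem_logSpan tf _)
  exact fun i => hzero i i rfl

/-- Unsorted scales. -/
theorem direct_scales' (t r : ℕ) (δ : ℝ) (hδ : 0 < δ) :
    ∃ κ : ℝ, 1 ≤ κ ∧ ∀ B : ℝ, ∃ H₀ : ℝ, ∀ H : Fin (t + 1) → ℝ, (∀ i, H₀ ≤ H i) →
      (∀ i j, i ≠ j → H i ≤ H j → H i ^ κ ≤ H j) → (∀ i j, H i ≤ H j ^ B) →
      ∀ g : Fin (t + 1) → Fin r → ℚ, (∀ i k, 0 < g i k) → (∀ i k, ((g i k).den : ℝ) ≤ H i) →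
      (∀ i k, |(g i k : ℝ) - 1| ≤ H i ^ (-δ)) →
      ∀ E : Fin (t + 1) → Fin r → ℤ,
      ∑ i, ∑ k, (E i k : ℝ) * Real.log (g i k) = 0 →
      ∀ i, ∑ k, (E i k : ℝ) * Real.log (g i k) = 0 := by
  obtain ⟨κ, hκ1, h⟩ := direct_scales t r δ hδ
  refine ⟨κ, hκ1, fun B => ?_⟩
  obtain ⟨H₀, hH₀⟩ := h B
  refine ⟨H₀, fun H hH hHκ hHB g hg hden hclose E hsum i => ?_⟩
  let σ := Tuple.sort H
  have hmono : Monotone (H ∘ σ) := Tuple.monotone_sort H
  have h1 := hH₀ (fun i => H (σ i)) (fun i => hH _)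
    (fun i j hij => hHκ _ _ (fun hc => hij.ne (σ.injective hc)) (hmono hij.le))
    (fun i j => hHB _ _) (fun i => g (σ i)) (fun i => hg _) (fun i => hden _)
    (fun i => hclose _) (fun i => E (σ i)) (by
      rw [← hsum]
      exact Equiv.sum_comp σ (fun i => ∑ k, (E i k : ℝ) * Real.log (g i k))) (σ.symm i)
  simpa using h1

theorem many (t r : ℕ) (δ : ℝ) (hδ : 0 < δ) :
    ∃ κ : ℝ, ∀ A B : ℝ, ∃ H₀ : ℝ, ∀ (ℓ : Fin t → ℝ) (H : Fin (t + 1) → ℝ)
      (g : Fin (t + 1) → Fin r → ℚ) (c : Fin (t + 1) → Fin 2 → Fin 2 → Fin t → ℤ)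
      (m : Fin (t + 1) → Fin 2 → Fin 2 → Fin r → ℤ) (M : Fin (t + 1) → Matrix (Fin 2) (Fin 2) ℝ),
      (∀ i, H₀ ≤ H i) → (∀ i j, H i ≤ H j ^ B) →
      (∀ i k, 0 < g i k) → (∀ i k, ((g i k).den : ℝ) ≤ H i) →
      (∀ i k, |(g i k : ℝ) - 1| ≤ H i ^ (-δ)) →
      (∀ i a b s, |(c i a b s : ℝ)| ≤ H i ^ A) → (∀ i a b k, |(m i a b k : ℝ)| ≤ H i ^ A) →
      (∀ i a b, M i a b =
        ∑ s, (c i a b s : ℝ) * ℓ s + ∑ k, (m i a b k : ℝ) * Real.log (g i k)) →
      (∀ i, RowsIndep (M i)) → (∀ i, RowsIndep (M i).transpose) → (∀ i, (M i).det = 0) →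
      (∀ i, ∃ a b, ∑ k, (m i a b k : ℝ) * Real.log (g i k) ≠ 0) →
      (∃ N : Fin (t + 1) → Fin 2 → Fin 2 → ℤ,
        ∑ i, ∑ a, ∑ b, (N i a b : ℝ) * ∑ k, (m i a b k : ℝ) * Real.log (g i k) = 0 ∧
        ∃ i, ∑ a, ∑ b, (N i a b : ℝ) * ∑ k, (m i a b k : ℝ) * Real.log (g i k) ≠ 0) ∧
      ∃ i j, i ≠ j ∧ H i ≤ H j ∧ H j < H i ^ κ := by
  classical
  obtain ⟨κ, hκ1, hds⟩ := direct_scales' t r δ hδ
  refine ⟨κ, fun A B => ?_⟩
  obtain ⟨H₁, hH₁⟩ := hds B
  set A₀ : ℝ := max A 0 with hA₀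
  have hA₀0 : 0 ≤ A₀ := le_max_right _ _
  set B₀ : ℝ := max B 1 with hB₀
  have hB₀1 : 1 ≤ B₀ := le_max_right _ _
  have hδ' : 0 < δ / B₀ := by positivity
  obtain ⟨H₂, hH₂⟩ := indep_core t ((t + 1) * r) (δ / B₀) A₀ hδ'
  refine ⟨max (max H₁ H₂) 1, fun ℓ H g c m M hH hHB hg hden hclose hc hm hM hrow hcol hdet hne =>
    ?_⟩
  have hHH₁ : ∀ i, H₁ ≤ H i := fun i => ((le_max_left _ _).trans (le_max_left _ _)).trans (hH i)
  have hHH₂ : ∀ i, H₂ ≤ H i := fun i => ((le_max_right _ _).trans (le_max_left _ _)).trans (hH i)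
  have hH1 : ∀ i, 1 ≤ H i := fun i => (le_max_right _ _).trans (hH i)
  obtain ⟨i₀, -, hi₀⟩ := Finset.exists_max_image Finset.univ H ⟨0, Finset.mem_univ _⟩
  have hmax : ∀ i, H i ≤ H i₀ := fun i => hi₀ i (Finset.mem_univ _)
  have hpos0 : 0 < H i₀ := by linarith [hH1 i₀]
  have hcl : ∀ i, H i ^ (-δ) ≤ H i₀ ^ (-(δ / B₀)) := by
    intro i
    have h1 : H i₀ ≤ H i ^ B₀ :=
      (hHB i₀ i).trans (Real.rpow_le_rpow_of_exponent_le (hH1 i) (le_max_left _ _))
    have h2 : (H i ^ B₀) ^ (-(δ / B₀)) ≤ H i₀ ^ (-(δ / B₀)) :=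
      Real.rpow_le_rpow_of_nonpos hpos0 h1 (by linarith)
    rw [← Real.rpow_mul (by linarith [hH1 i])] at h2
    have h3 : B₀ * -(δ / B₀) = -δ := by
      have : B₀ ≠ 0 := by positivity
      field_simp
    rwa [h3] at h2
  have hAA : ∀ i, H i ^ A ≤ H i₀ ^ A₀ := by
    intro i
    have h1 : H i ^ A ≤ H i ^ A₀ := Real.rpow_le_rpow_of_exponent_le (hH1 i) (le_max_left _ _)
    exact h1.trans (Real.rpow_le_rpow (by linarith [hH1 i]) (hmax i) hA₀0)
  -- flattening
  let G : Fin ((t + 1) * r) → ℚ := fun p => g (finProdFinEquiv.symm p).1 (finProdFinEquiv.symm p).2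
  let m' : Fin (t + 1) → Fin 2 → Fin 2 → Fin ((t + 1) * r) → ℤ := fun i a b p =>
    if (finProdFinEquiv.symm p).1 = i then m i a b (finProdFinEquiv.symm p).2 else 0
  have hflat : ∀ i a b, ∑ p, (m' i a b p : ℝ) * Real.log (G p) =
      ∑ k, (m i a b k : ℝ) * Real.log (g i k) := by
    intro i a b
    rw [← Equiv.sum_comp finProdFinEquiv (fun p => (m' i a b p : ℝ) * Real.log (G p)),
      Fintype.sum_prod_type]
    rw [Finset.sum_eq_single i]
    · apply Finset.sum_congr rfl
      intro k _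
      simp only [m', G, Equiv.symm_apply_apply, if_true]
    · intro j _ hj
      apply Finset.sum_eq_zero
      intro k _
      simp only [m', Equiv.symm_apply_apply, if_neg hj, Int.cast_zero, zero_mul]
    · intro h
      exact absurd (Finset.mem_univ _) h
  obtain ⟨N, hN0, hN1⟩ := hH₂ (H i₀) (hHH₂ i₀) ℓ G c m' M (fun p => hg _ _)
    (fun p => (hden _ _).trans (hmax _)) (fun p => (hclose _ _).trans (hcl _))
    (fun i a b s => (hc i a b s).trans (hAA i))
    (fun i a b p => by
      simp only [m']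
      split_ifs
      · exact (hm i a b _).trans (hAA i)
      · simp only [Int.cast_zero, abs_zero]
        exact Real.rpow_nonneg hpos0.le _)
    (fun i a b => by rw [hM, hflat]) hrow hcol hdet
    (fun i => by
      obtain ⟨a, b, hab⟩ := hne i
      exact ⟨a, b, by rw [hflat]; exact hab⟩)
  simp only [hflat, Fintype.sum_prod_type] at hN0 hN1
  refine ⟨⟨fun i a b => N i (a, b), hN0, hN1⟩, ?_⟩
  by_contra hcon
  push Not at hcon
  obtain ⟨i, hi⟩ := hN1
  apply hi
  have hE : ∀ i, ∑ a, ∑ b, (N i (a, b) : ℝ) * ∑ k, (m i a b k : ℝ) * Real.log (g i k) =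
      ∑ k, ((∑ a, ∑ b, N i (a, b) * m i a b k : ℤ) : ℝ) * Real.log (g i k) := by
    intro i
    simp only [Fin.sum_univ_two]
    push_cast
    simp only [Finset.mul_sum, ← Finset.sum_add_distrib]
    apply Finset.sum_congr rfl
    intro k _
    ring
  have h1 := hH₁ H hHH₁ hcon hHB g hg hden hclose
    (fun i k => ∑ a, ∑ b, N i (a, b) * m i a b k) (by
      rw [← hN0]
      exact Finset.sum_congr rfl (fun i _ => (hE i).symm)) i
  rw [hE]
  exact h1

end Pool.Agent.ExScale
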