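import Mathlib

/-!
# Sets whose elements cluster at sparse scales have logarithmic density zero
-/

set_option autoImplicit false

namespace Pool.Agent.ExScale

open Filter Topology

lemma block_sum (a m : ℕ) (ha : 1 ≤ a) (ham : a ≤ m) :
    ∑ n ∈ Finset.Icc a m, 1 / (n : ℝ) ≤ 1 / (a : ℝ) + (Real.log m - Real.log a) := by
  induction m, ham using Nat.le_induction with
  | base => simp
  | succ m hm ih =>
    rw [Finset.sum_Icc_succ_top (by omega)]
    have hm0 : (0:ℝ) < m := by exact_mod_cast (by omega : 0 < m)
    have h1 : 1 / ((m + 1 : ℕ) : ℝ) ≤ Real.log ((m + 1 : ℕ) : ℝ) - Real.log m := by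
      push_cast
      have h2 := Real.one_sub_inv_le_log_of_pos (x := ((m:ℝ) + 1) / m) (by positivity)
      rw [Real.log_div (by positivity) hm0.ne'] at h2
      refine le_trans (le_of_eq ?_) h2
      field_simp
      ring
    linarith

/-- A finite set without `κ`-separated chains of `s + 1` elements has a small sum of inverses. -/
lemma chain_sum (κ : ℝ) (hκ : 1 ≤ κ) (s : ℕ) :
    ∀ T : Finset ℕ, (∀ n ∈ T, 1 ≤ n) →
      (∀ f : Fin (s + 1) → ℕ, (∀ i, f i ∈ T) → (∀ i j, i < j → κ * (f i : ℝ) ≤ f j) → False) →
      ∑ n ∈ T, 1 / (n : ℝ) ≤ s * (1 + Real.log κ) := by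
  have hlogκ : 0 ≤ Real.log κ := Real.log_nonneg hκ
  induction s with
  | zero =>
    intro T _ hT
    have h1 : T = ∅ := by
      rw [Finset.eq_empty_iff_forall_notMem]
      intro n hn
      exact hT (fun _ => n) (fun _ => hn) (fun i j hij => by
        have h1 := i.2
        have h2 := j.2
        have h3 : (i : ℕ) < j := hij
        omega)
    rw [h1]
    simp
  | succ s ih =>
    intro T hT1 hT
    by_cases hTe : T.Nonempty
    · obtain ⟨a, haT, hamin⟩ := T.exists_min_image id hTe
      simp only [id] at hamin
      have ha1 : 1 ≤ a := hT1 a haT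
      have ha0 : (0:ℝ) < a := by exact_mod_cast ha1
      rw [← Finset.sum_filter_add_sum_filter_not T (fun n : ℕ => κ * (a : ℝ) ≤ n)]
      have h1 : ∑ n ∈ T.filter (fun n : ℕ => κ * (a : ℝ) ≤ n), 1 / (n : ℝ) ≤
          s * (1 + Real.log κ) := by
        apply ih
        · intro n hn
          exact hT1 n (Finset.mem_filter.mp hn).1
        · intro f hf1 hf2
          apply hT (Fin.cons a f)
          · intro i
            refine Fin.cases ?_ (fun i => ?_) i
            · simpa using haT
            · simpa using (Finset.mem_filter.mp (hf1 i)).1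
          · intro i j
            refine Fin.cases ?_ (fun i => ?_) i
            · refine Fin.cases ?_ (fun j => ?_) j
              · intro h
                exact absurd h (lt_irrefl _)
              · intro _
                simpa using (Finset.mem_filter.mp (hf1 j)).2
            · refine Fin.cases ?_ (fun j => ?_) j
              · intro h
                exact absurd h (Fin.not_lt_zero _)
              · intro h
                simpa using hf2 i j (Fin.succ_lt_succ_iff.mp h)
      have h2 : ∑ n ∈ T.filter (fun n : ℕ => ¬ κ * (a : ℝ) ≤ n), 1 / (n : ℝ) ≤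
          1 + Real.log κ := by
        set m := ⌊κ * a⌋₊ with hm
        have ham : a ≤ m := by
          rw [hm]
          apply Nat.le_floor
          nlinarith
        have hsub : T.filter (fun n : ℕ => ¬ κ * (a : ℝ) ≤ n) ⊆ Finset.Icc a m := by
          intro n hn
          rw [Finset.mem_filter] at hn
          rw [Finset.mem_Icc]
          refine ⟨hamin n hn.1, ?_⟩
          rw [hm]
          apply Nat.le_floor
          exact (not_le.mp hn.2).le
        refine (Finset.sum_le_sum_of_subset_of_nonneg hsub
          (fun _ _ _ => by positivity)).trans ?_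
        refine (block_sum a m ha1 ham).trans ?_
        have h3 : (m : ℝ) ≤ κ * a := Nat.floor_le (by positivity)
        have h4 : Real.log m ≤ Real.log κ + Real.log a := by
          rw [← Real.log_mul (by positivity) ha0.ne']
          apply Real.log_le_log _ h3
          have : (1:ℝ) ≤ m := by exact_mod_cast ha1.trans ham
          linarith
        have h5 : 1 / (a : ℝ) ≤ 1 := by
          rw [div_le_one ha0]
          exact_mod_cast ha1
        linarith
      have h3 : (((s + 1 : ℕ) : ℝ)) * (1 + Real.log κ) =
          s * (1 + Real.log κ) + (1 + Real.log κ) := by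
        push_cast
        ring
      rw [h3]
      linarith
    · rw [Finset.not_nonempty_iff_eq_empty] at hTe
      rw [hTe, Finset.sum_empty]
      positivity

/-- If `S` has no chains of `t + 1` elements which are `κ`-separated and lie in a window with
ratio `B`, with `κ` independent of `B`, then `S` has logarithmic density zero. -/
lemma logDensity_zero (S : Set ℕ) [DecidablePred (· ∈ S)] (t : ℕ) (κ : ℝ) (hκ : 1 ≤ κ)
    (h : ∀ B : ℝ, ∃ n₀ : ℕ, ∀ f : Fin (t + 1) → ℕ, (∀ i, f i ∈ S) → (∀ i, n₀ ≤ f i) →
      (∀ i j, i < j → κ * (f i : ℝ) ≤ f j) → (∀ i j, (f i : ℝ) ≤ B * f j) → False) :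
    Tendsto (fun N : ℕ => (∑ n ∈ (Finset.Icc 1 N).filter (· ∈ S), 1 / (n : ℝ)) / Real.log N)
      atTop (𝓝 0) := by
  set c : ℝ := t * (1 + Real.log κ) with hc
  have hlogκ : 0 ≤ Real.log κ := Real.log_nonneg hκ
  have hc0 : 0 ≤ c := by positivity
  -- the upper bound for a given `b`
  have hmain : ∀ b : ℕ, 2 ≤ b → ∃ D : ℝ, ∀ N : ℕ, 1 ≤ N →
      ∑ n ∈ (Finset.Icc 1 N).filter (· ∈ S), 1 / (n : ℝ) ≤
        D + c * (1 + Real.log N / Real.log b) := by
    intro b hb
    have hb2 : (2:ℝ) ≤ b := by exact_mod_cast hb
    have hb0 : (0:ℝ) < b := by linarith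
    have hlogb : 0 < Real.log b := Real.log_pos (by linarith)
    obtain ⟨n₀, hn₀⟩ := h b
    have hrec : ∀ N : ℕ, ∑ n ∈ (Finset.Icc (max n₀ 1) N).filter (· ∈ S), 1 / (n : ℝ) ≤
        c * (1 + Real.log N / Real.log b) := by
      intro N
      induction N using Nat.strong_induction_on with
      | _ N ih =>
        by_cases hN0 : N = 0
        · subst hN0
          rw [Finset.Icc_eq_empty (by omega)]
          simp only [Finset.filter_empty, Finset.sum_empty, Nat.cast_zero, Real.log_zero,
            zero_div, add_zero, mul_one]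
          exact hc0
        have hN1 : 1 ≤ N := by omega
        have hNlog : 0 ≤ Real.log N := Real.log_nonneg (by exact_mod_cast hN1)
        have hlt : N / b < N := Nat.div_lt_self (by omega) (by omega)
        have ih' := ih (N / b) hlt
        -- split
        have hsplit : (Finset.Icc (max n₀ 1) N).filter (· ∈ S) ⊆
            (Finset.Icc (max n₀ 1) (N / b)).filter (· ∈ S) ∪
            (Finset.Icc (max (max n₀ 1) (N / b + 1)) N).filter (· ∈ S) := by
          intro n hn
          rw [Finset.mem_filter, Finset.mem_Icc] at hn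
          rw [Finset.mem_union, Finset.mem_filter, Finset.mem_filter, Finset.mem_Icc,
            Finset.mem_Icc]
          by_cases h1 : n ≤ N / b
          · exact Or.inl ⟨⟨hn.1.1, h1⟩, hn.2⟩
          · exact Or.inr ⟨⟨by omega, hn.1.2⟩, hn.2⟩
        have hsum : ∑ n ∈ (Finset.Icc (max n₀ 1) N).filter (· ∈ S), 1 / (n : ℝ) ≤
            ∑ n ∈ (Finset.Icc (max n₀ 1) (N / b)).filter (· ∈ S), 1 / (n : ℝ) +
            ∑ n ∈ (Finset.Icc (max (max n₀ 1) (N / b + 1)) N).filter (· ∈ S), 1 / (n : ℝ) := by
          refine (Finset.sum_le_sum_of_subset_of_nonneg hsplit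
            (fun _ _ _ => by positivity)).trans ?_
          have hdisj : Disjoint ((Finset.Icc (max n₀ 1) (N / b)).filter (· ∈ S))
              ((Finset.Icc (max (max n₀ 1) (N / b + 1)) N).filter (· ∈ S)) := by
            rw [Finset.disjoint_left]
            intro n h1 h2
            rw [Finset.mem_filter, Finset.mem_Icc] at h1 h2
            omega
          rw [Finset.sum_union hdisj]
        -- the top block
        have htop : ∑ n ∈ (Finset.Icc (max (max n₀ 1) (N / b + 1)) N).filter (· ∈ S),
            1 / (n : ℝ) ≤ c := by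
          apply chain_sum κ hκ t
          · intro n hn
            rw [Finset.mem_filter, Finset.mem_Icc] at hn
            omega
          · intro f hf1 hf2
            have hf3 : ∀ i, f i ∈ S ∧ n₀ ≤ f i ∧ N / b < f i ∧ f i ≤ N := by
              intro i
              have h1 := hf1 i
              rw [Finset.mem_filter, Finset.mem_Icc] at h1
              exact ⟨h1.2, by omega, by omega, by omega⟩
            refine hn₀ f (fun i => (hf3 i).1) (fun i => (hf3 i).2.1) hf2 (fun i j => ?_)
            have h1 : N < b * f j :=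
              ((Nat.div_lt_iff_lt_mul (by omega)).mp (hf3 j).2.2.1).trans_eq (mul_comm _ _)
            have h2 : f i ≤ b * f j := by
              have := (hf3 i).2.2.2
              omega
            exact_mod_cast h2
        by_cases hdiv : N / b = 0
        · have h0 : ∑ n ∈ (Finset.Icc (max n₀ 1) (N / b)).filter (· ∈ S), 1 / (n : ℝ) = 0 := by
            rw [hdiv, Finset.Icc_eq_empty (by omega)]
            simp
          have h1 : 0 ≤ c * (Real.log N / Real.log b) := by positivity
          linarith
        · have h1 : Real.log ((N / b : ℕ) : ℝ) ≤ Real.log N - Real.log b := by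
            rw [← Real.log_div (by exact_mod_cast hN0) hb0.ne']
            apply Real.log_le_log
            · exact_mod_cast Nat.pos_of_ne_zero hdiv
            · exact Nat.cast_div_le
          have h2 : Real.log ((N / b : ℕ) : ℝ) / Real.log b ≤ Real.log N / Real.log b - 1 := by
            rw [div_le_iff₀ hlogb, sub_mul, div_mul_cancel₀ _ hlogb.ne', one_mul]
            exact h1
          have h3 : c * (1 + Real.log ((N / b : ℕ) : ℝ) / Real.log b) ≤
              c * (Real.log N / Real.log b) :=
            mul_le_mul_of_nonneg_left (by linarith) hc0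
          linarith
    refine ⟨∑ n ∈ Finset.Icc 1 n₀, 1 / (n : ℝ), fun N _ => ?_⟩
    have hsplit : (Finset.Icc 1 N).filter (· ∈ S) ⊆
        Finset.Icc 1 n₀ ∪ (Finset.Icc (max n₀ 1) N).filter (· ∈ S) := by
      intro n hn
      rw [Finset.mem_filter, Finset.mem_Icc] at hn
      rw [Finset.mem_union, Finset.mem_filter, Finset.mem_Icc, Finset.mem_Icc]
      by_cases h1 : n ≤ n₀
      · exact Or.inl ⟨hn.1.1, h1⟩
      · exact Or.inr ⟨⟨by omega, hn.1.2⟩, hn.2⟩
    refine (Finset.sum_le_sum_of_subset_of_nonneg hsplit (fun _ _ _ => by positivity)).trans ?_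
    have hun : ∑ n ∈ Finset.Icc 1 n₀ ∪ (Finset.Icc (max n₀ 1) N).filter (· ∈ S), 1 / (n : ℝ) ≤
        ∑ n ∈ Finset.Icc 1 n₀, 1 / (n : ℝ) +
        ∑ n ∈ (Finset.Icc (max n₀ 1) N).filter (· ∈ S), 1 / (n : ℝ) := by
      rw [← Finset.sum_union_inter]
      have : 0 ≤ ∑ n ∈ Finset.Icc 1 n₀ ∩ (Finset.Icc (max n₀ 1) N).filter (· ∈ S),
        1 / (n : ℝ) := Finset.sum_nonneg (fun _ _ => by positivity)
      linarith
    have := hrec N
    linarith
  rw [Metric.tendsto_atTop]
  intro ε hε
  obtain ⟨b, hb⟩ := exists_nat_ge (Real.exp (2 * c / ε) + 2)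
  have hb2 : 2 ≤ b := by
    have h1 := Real.exp_pos (2 * c / ε)
    have h2 : (2:ℝ) ≤ b := by linarith
    exact_mod_cast h2
  have hlogb : 2 * c / ε < Real.log b := by
    rw [Real.lt_log_iff_exp_lt (by positivity)]
    linarith
  have hlogb0 : 0 < Real.log b := lt_of_le_of_lt (by positivity) hlogb
  obtain ⟨D, hD⟩ := hmain b hb2
  have hlim : Tendsto (fun N : ℕ => Real.log (N : ℝ)) atTop atTop :=
    Real.tendsto_log_atTop.comp tendsto_natCast_atTop_atTop
  obtain ⟨N₁, hN₁⟩ := eventually_atTop.mp (hlim.eventually_gt_atTop (max 1 (2 * (|D| + c) / ε)))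
  refine ⟨max N₁ 1, fun N hN => ?_⟩
  have hN1 : 1 ≤ N := (le_max_right _ _).trans hN
  have hNlog := hN₁ N ((le_max_left _ _).trans hN)
  have hlog1 : 1 < Real.log N := lt_of_le_of_lt (le_max_left _ _) hNlog
  have hlog2 : 2 * (|D| + c) / ε < Real.log N := lt_of_le_of_lt (le_max_right _ _) hNlog
  have hlog0 : 0 < Real.log N := by linarith
  have hnn : 0 ≤ ∑ n ∈ (Finset.Icc 1 N).filter (· ∈ S), 1 / (n : ℝ) :=
    Finset.sum_nonneg (fun _ _ => by positivity)
  rw [Real.dist_eq, sub_zero, abs_of_nonneg (div_nonneg hnn hlog0.le), div_lt_iff₀ hlog0]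
  refine lt_of_le_of_lt (hD N hN1) ?_
  have e1 : D + c < ε / 2 * Real.log N := by
    rw [div_lt_iff₀ hε] at hlog2
    have := le_abs_self D
    linarith
  have e2 : c * (Real.log N / Real.log b) < ε / 2 * Real.log N := by
    rw [div_lt_iff₀ hε] at hlogb
    rw [mul_div_assoc', div_lt_iff₀ hlogb0]
    nlinarith
  linarith

end Pool.Agent.ExScale
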