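import Mathlib
import Pool.Agent.ExScale.Rel
import Pool.Agent.ExScale.AlgI
import Pool.Agent.ExScale.Matr

/-!
# Near-one logarithms over arbitrary finitely generated fields, at all but few scales
-/

set_option autoImplicit false

namespace Pool.Agent.ExScale

open Filter Topology Pool.Agent.OneClass Pool.Agent.FewGroups

/-- a bounded exponent vector as a finitely supported function -/
noncomputable def toFs' {σ : Type*} [Fintype σ] {d : ℕ} (γ : σ → Fin (d + 1)) : σ →₀ ℕ :=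
  Finsupp.equivFunOnFinite.symm (fun k => (γ k : ℕ))

lemma toFs'_apply {σ : Type*} [Fintype σ] {d : ℕ} (γ : σ → Fin (d + 1)) (k : σ) :
    toFs' γ k = (γ k : ℕ) := rfl

lemma toFs'_injective {σ : Type*} [Fintype σ] {d : ℕ} :
    Function.Injective (toFs' : (σ → Fin (d + 1)) → _) := by
  intro γ γ' h
  funext k
  have := DFunLike.congr_fun h k
  rw [toFs'_apply, toFs'_apply] at this
  exact Fin.ext this

lemma aeval_eq_sum' {σ : Type*} [Fintype σ] [DecidableEq σ] {d : ℕ} (F : MvPolynomial σ ℤ)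
    (hF : F.totalDegree ≤ d) (x : σ → ℝ) :
    MvPolynomial.aeval x F = ∑ γ : σ → Fin (d + 1),
      ((MvPolynomial.coeff (toFs' γ) F : ℤ) : ℝ) * ∏ k, x k ^ (γ k : ℕ) := by
  classical
  rw [MvPolynomial.aeval_def, MvPolynomial.eval₂_eq']
  have h1 : ∑ γ : σ → Fin (d + 1), ((MvPolynomial.coeff (toFs' γ) F : ℤ) : ℝ) *
      ∏ k, x k ^ (γ k : ℕ) =
      ∑ y ∈ Finset.univ.image (toFs' : (σ → Fin (d + 1)) → (σ →₀ ℕ)),
        ((MvPolynomial.coeff y F : ℤ) : ℝ) * ∏ k, x k ^ (y k) := by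
    rw [Finset.sum_image (fun a _ b _ h => toFs'_injective h)]
    rfl
  rw [h1]
  apply Finset.sum_subset
  · intro y hy
    rw [Finset.mem_image]
    have h2 : ∀ k, y k < d + 1 := by
      intro k
      have h3 := MvPolynomial.le_totalDegree hy
      have h4 : y k ≤ y.sum fun _ e => e := by
        change y k ≤ ∑ i ∈ y.support, y i
        by_cases hk : k ∈ y.support
        · exact Finset.single_le_sum (f := fun i => y i) (fun _ _ => Nat.zero_le _) hk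
        · rw [Finsupp.notMem_support_iff.mp hk]
          exact Nat.zero_le _
      omega
    refine ⟨fun k => ⟨y k, h2 k⟩, Finset.mem_univ _, ?_⟩
    ext k
    rw [toFs'_apply]
  · intro y _ hy
    rw [MvPolynomial.notMem_support_iff.mp hy]
    simp

theorem general (t r : ℕ) (δ : ℝ) (hδ : 0 < δ) :
    ∃ κ : ℝ, 1 ≤ κ ∧ ∀ (d : ℕ) (A B : ℝ), ∃ H₀ : ℝ, ∀ H : Fin (t + 1) → ℝ, (∀ i, H₀ ≤ H i) →
      (∀ i j, i < j → H i ^ κ ≤ H j) → (∀ i j, H i ≤ H j ^ B) →
      ∀ (ℓ : Fin t → ℝ) (g : Fin (t + 1) → Fin r → ℚ)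
        (F : Fin (t + 1) → MvPolynomial (Fin t ⊕ Fin r) ℤ),
      (∀ i k, 0 < g i k) → (∀ i k, ((g i k).den : ℝ) ≤ H i) →
      (∀ i k, |(g i k : ℝ) - 1| ≤ H i ^ (-δ)) →
      (∀ i, (F i).totalDegree ≤ d) →
      (∀ i α, |((MvPolynomial.coeff α (F i) : ℤ) : ℝ)| ≤ H i ^ A) →
      (∀ i, MvPolynomial.aeval (Sum.elim ℓ (fun k => Real.log (g i k))) (F i) = 0) →
      ∃ i, ∀ x : Fin r → ℝ,
        (∀ e : Fin r → ℤ, ∏ k, g i k ^ e k = 1 → ∑ k, (e k : ℝ) * x k = 0) →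
        MvPolynomial.aeval (Sum.elim ℓ x) (F i) = 0 := by
  classical
  obtain ⟨κ, hκ1, hunion⟩ := union_indep t r δ hδ
  refine ⟨κ, hκ1, fun d A B => ?_⟩
  obtain ⟨H₁, hH₁⟩ := hunion B
  by_contra hcon
  push Not at hcon
  have hseq : ∀ n : ℕ, ∃ (H : Fin (t + 1) → ℝ) (ℓ : Fin t → ℝ) (g : Fin (t + 1) → Fin r → ℚ)
      (F : Fin (t + 1) → MvPolynomial (Fin t ⊕ Fin r) ℤ) (x : Fin (t + 1) → Fin r → ℝ),
      (∀ i, max H₁ ((n : ℝ) + 2) ≤ H i) ∧
      (∀ i j, i < j → H i ^ κ ≤ H j) ∧ (∀ i j, H i ≤ H j ^ B) ∧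
      (∀ i k, 0 < g i k) ∧ (∀ i k, ((g i k).den : ℝ) ≤ H i) ∧
      (∀ i k, |(g i k : ℝ) - 1| ≤ H i ^ (-δ)) ∧
      (∀ i, (F i).totalDegree ≤ d) ∧
      (∀ i α, |((MvPolynomial.coeff α (F i) : ℤ) : ℝ)| ≤ H i ^ A) ∧
      (∀ i, MvPolynomial.aeval (Sum.elim ℓ (fun k => Real.log (g i k))) (F i) = 0) ∧
      (∀ i, ∀ e : Fin r → ℤ, ∏ k, g i k ^ e k = 1 → ∑ k, (e k : ℝ) * x i k = 0) ∧
      (∀ i, MvPolynomial.aeval (Sum.elim ℓ (x i)) (F i) ≠ 0) := by
    intro n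
    obtain ⟨H, h1, h2, h3, ℓ, g, F, h4, h5, h6, h7, h8, h9, h10⟩ := hcon (max H₁ ((n:ℝ) + 2))
    choose x hx1 hx2 using h10
    exact ⟨H, ℓ, g, F, x, h1, h2, h3, h4, h5, h6, h7, h8, h9, hx1, hx2⟩
  choose H ℓ g F x hH hHκ hHB hpos hden hclose hdeg hcoef hval hrel hne using hseq
  have hHn : ∀ (n : ℕ) i, (n:ℝ) + 2 ≤ H n i := fun n i => (le_max_right _ _).trans (hH n i)
  have hH1 : ∀ (n : ℕ) i, 1 ≤ H n i := fun n i => by
    have h1 := hHn n i
    have h2 : (0:ℝ) ≤ n := Nat.cast_nonneg n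
    linarith
  have hmono : ∀ n i j, i ≤ j → H n i ≤ H n j := by
    intro n i j hij
    rcases eq_or_lt_of_le hij with rfl | hlt
    · exact le_rfl
    · refine le_trans ?_ (hHκ n i j hlt)
      conv_lhs => rw [← Real.rpow_one (H n i)]
      exact Real.rpow_le_rpow_of_exponent_le (hH1 n i) hκ1
  let Ω : ℕ → ℝ := fun n => H n (Fin.last t)
  have hΩn : ∀ n : ℕ, (n:ℝ) + 2 ≤ Ω n := fun n => hHn n _
  have hΩ : ∀ n, 2 ≤ Ω n := fun n => by
    have h1 := hΩn n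
    have h2 : (0:ℝ) ≤ n := Nat.cast_nonneg n
    linarith
  have hlim : Tendsto Ω atTop atTop := by
    exact tendsto_atTop_mono (fun n : ℕ => (by linarith [hΩn n] : (n:ℝ) ≤ Ω n))
      tendsto_natCast_atTop_atTop
  have hHΩ : ∀ n i, H n i ≤ Ω n := fun n i => hmono n i _ (Fin.le_last i)
  set B₀ : ℝ := max B 1 with hB₀
  have hB₀1 : 1 ≤ B₀ := le_max_right _ _
  have hδ' : 0 < δ / B₀ := by positivity
  have hclose' : ∀ n i k, |(g n i k : ℝ) - 1| ≤ Ω n ^ (-(δ / B₀)) := by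
    intro n i k
    refine (hclose n i k).trans ?_
    have h1 : Ω n ≤ H n i ^ B₀ :=
      (hHB n _ i).trans (Real.rpow_le_rpow_of_exponent_le (hH1 n i) (le_max_left _ _))
    have h2 : (H n i ^ B₀) ^ (-(δ / B₀)) ≤ Ω n ^ (-(δ / B₀)) :=
      Real.rpow_le_rpow_of_nonpos (by linarith [hΩ n]) h1 (by linarith)
    rw [← Real.rpow_mul (by linarith [hH1 n i])] at h2
    have h3 : B₀ * -(δ / B₀) = -δ := by
      have : B₀ ≠ 0 := by positivity
      field_simp
    rwa [h3] at h2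
  have hden' : ∀ n i k, ((g n i k).den : ℝ) ≤ Ω n := fun n i k => (hden n i k).trans (hHΩ n i)
  -- the basis sets
  choose J hJ1 hJ2 using fun n i => exists_basis_set (g n i)
  obtain ⟨J₀, hJ₀⟩ : ∃ J₀ : Fin (t + 1) → Finset (Fin r), ∀ᶠ n in U, J n = J₀ := by
    have h1 : ∀ᶠ n in (hyperfilter ℕ : Filter ℕ), ∃ b : Fin (t + 1) → Finset (Fin r), J n = b :=
      Eventually.of_forall (fun n => ⟨J n, rfl⟩)
    exact Ultrafilter.eventually_exists_iff.mp h1
  have hind : ∀ᶠ n in U, ∀ e : (Σ i, J₀ i) → ℤ, ∏ p, g n p.1 p.2 ^ e p = 1 → e = 0 := by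
    filter_upwards [hJ₀] with n hn e he
    exact hH₁ (H n) (fun i => (le_max_left _ _).trans (hH n i)) (hHκ n) (hHB n) (g n) (hpos n)
      (hden n) (hclose n) J₀ (fun i => hn ▸ hJ1 n i) e he
  have hAI := algIndep_K0 (ι := (Σ i, J₀ i)) Ω hΩ hlim (δ / B₀) hδ'
    (fun p n => g n p.1 p.2) (fun p n => hpos n _ _) (fun p n => hden' n _ _)
    (fun p n => hclose' n _ _) hind
  obtain ⟨i, S, hS1, hS2, hS3⟩ := exists_indep_over (K := K0 Ω hΩ) (E := Hyperreal)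
    (fun s => gm (fun n => ℓ n s)) (J := fun i => J₀ i)
    (fun p => gm (fun n => Real.log (g n p.1 p.2))) hAI
  have hKS : ∀ z : Hyperreal, z ∈ K0 Ω hΩ → z ∈ S := fun z hz => hS2 ⟨z, hz⟩
  -- bounded relations
  have hlog2 : 0 < Real.log 2 := Real.log_pos (by norm_num)
  have hval' : ∀ n, Ω n ^ (-(δ / B₀)) ≤ 1 / 2 → ∀ k (p : ℕ), p.Prime →
      |((padicValRat p (g n i k) : ℤ) : ℝ)| ≤ Real.log (2 * Ω n) / Real.log 2 :=
    fun n hn k p hp => val_le (g n i k) (hpos n i k) (Ω n) (hden' n i k) (by linarith [hΩ n])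
      ((hclose' n i k).trans hn) p hp
  have hΛ1 : ∀ n, 1 ≤ Real.log (2 * Ω n) / Real.log 2 := by
    intro n
    rw [le_div_iff₀ hlog2, one_mul]
    exact Real.log_le_log (by norm_num) (by linarith [hΩ n])
  have hrels : ∀ n k, ∃ (D : ℤ) (c : Fin r → ℤ), D ≠ 0 ∧
      (Ω n ^ (-(δ / B₀)) ≤ 1 / 2 → |(D : ℝ)| ≤
        (r.factorial : ℝ) * (Real.log (2 * Ω n) / Real.log 2) ^ r) ∧
      (Ω n ^ (-(δ / B₀)) ≤ 1 / 2 → ∀ j, |(c j : ℝ)| ≤
        (r.factorial : ℝ) * (Real.log (2 * Ω n) / Real.log 2) ^ r) ∧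
      (Ω n ^ (-(δ / B₀)) ≤ 1 / 2 → ∀ j, j ∉ J n i → c j = 0) ∧
      (Ω n ^ (-(δ / B₀)) ≤ 1 / 2 →
        (D : ℚ) • val (g n i k) = ∑ j, (c j : ℚ) • val (g n i j)) := by
    intro n k
    by_cases hn : Ω n ^ (-(δ / B₀)) ≤ 1 / 2
    · obtain ⟨D, c, h1, h2, h3, h4, h5⟩ := bounded_rel (g n i) (J n i) (hJ1 n i) _ (hΛ1 n)
        (hval' n hn) k (hJ2 n i k)
      exact ⟨D, c, h1, fun _ => h2, fun _ => h3, fun _ => h4, fun _ => h5⟩
    · exact ⟨1, 0, one_ne_zero, fun h => absurd h hn, fun h => absurd h hn,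
        fun h => absurd h hn, fun h => absurd h hn⟩
  choose D c hD hDle hcle hcJ hDrel using hrels
  have hhalf : ∀ᶠ n in U, Ω n ^ (-(δ / B₀)) ≤ 1 / 2 := by
    have h1 : Tendsto (fun n => Ω n ^ (-(δ / B₀))) atTop (𝓝 0) :=
      (tendsto_rpow_neg_atTop hδ').comp hlim
    exact (h1.eventually_le_const (by norm_num)).filter_mono Nat.hyperfilter_le_atTop
  obtain ⟨H₂, hH₂⟩ := eventually_log_le r (r.factorial : ℝ) 1 1 one_pos
  have hΛΩ : ∀ᶠ n in U, (r.factorial : ℝ) * (Real.log (2 * Ω n) / Real.log 2) ^ r ≤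
      Ω n ^ 1 := by
    have h1 : ∀ᶠ n in U, H₂ ≤ Ω n :=
      (hlim.eventually_ge_atTop H₂).filter_mono Nat.hyperfilter_le_atTop
    filter_upwards [h1] with n hn
    have h2 := hH₂ (Ω n) (Ω n) hn le_rfl (by rw [Real.rpow_one])
    rw [Real.rpow_one] at h2
    rwa [pow_one]
  have hDb : ∀ k, Bdd Ω (fun n => D n k) := fun k => ⟨1, by
    filter_upwards [hhalf, hΛΩ] with n h1 h2
    exact (hDle n k h1).trans h2⟩
  have hcb : ∀ k j, Bdd Ω (fun n => c n k j) := fun k j => ⟨1, by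
    filter_upwards [hhalf, hΛΩ] with n h1 h2
    exact (hcle n k h1 j).trans h2⟩
  let q : Fin r → Fin r → Hyperreal := fun k j => gm (fun n => (c n k j : ℝ) / (D n k : ℝ))
  have hqK : ∀ k j, q k j ∈ K0 Ω hΩ := fun k j =>
    div_mem_K0 hΩ (hcb k j) (hDb k) (Eventually.of_forall (fun n => hD n k))
  have hq0 : ∀ k j, j ∉ J₀ i → q k j = 0 := by
    intro k j hj
    rw [← gm_zero, gm_eq_iff]
    filter_upwards [hhalf, hJ₀] with n h1 h2
    rw [hcJ n k h1 j (by rw [h2]; exact hj)]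
    simp
  -- transfer of the relations
  have htrans : ∀ y : ℕ → Fin r → ℝ, (∀ n, ∀ e : Fin r → ℤ, ∏ k, g n i k ^ e k = 1 →
      ∑ k, (e k : ℝ) * y n k = 0) → ∀ k,
      gm (fun n => y n k) = ∑ j : J₀ i, q k j * gm (fun n => y n j) := by
    intro y hy k
    have h1 : ∑ j : J₀ i, q k j * gm (fun n => y n j) =
        ∑ j, q k j * gm (fun n => y n j) := by
      rw [Finset.sum_coe_sort (J₀ i) (fun j => q k j * gm (fun n => y n j))]
      apply Finset.sum_subset (Finset.subset_univ _)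
      intro j _ hj
      rw [hq0 k j hj, zero_mul]
    rw [h1]
    have h2 : ∑ j, q k j * gm (fun n => y n j) =
        gm (fun n => ∑ j, ((c n k j : ℝ) / (D n k : ℝ)) * y n j) := by
      rw [gm_sum]
      rfl
    rw [h2, gm_eq_iff]
    filter_upwards [hhalf] with n hn
    have h3 := (prod_eq_one_iff (g n i) (hpos n i)
      (fun j => (if j = k then D n k else 0) - c n k j)).mpr (by
        push_cast
        simp only [sub_smul, Finset.sum_sub_distrib, ite_smul, zero_smul, Finset.sum_ite_eq',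
          Finset.mem_univ, if_true]
        rw [hDrel n k hn, sub_self])
    have h4 := hy n _ h3
    have h5 : (D n k : ℝ) * y n k = ∑ j, (c n k j : ℝ) * y n j := by
      push_cast at h4
      simp only [sub_mul, Finset.sum_sub_distrib, ite_mul, zero_mul, Finset.sum_ite_eq',
        Finset.mem_univ, if_true] at h4
      linarith
    have hD0 : (D n k : ℝ) ≠ 0 := by exact_mod_cast hD n k
    rw [eq_comm]
    calc ∑ j, ((c n k j : ℝ) / (D n k : ℝ)) * y n j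
        = (∑ j, (c n k j : ℝ) * y n j) / (D n k : ℝ) := by
          rw [Finset.sum_div]
          apply Finset.sum_congr rfl
          intro j _
          ring
      _ = y n k := by rw [← h5, mul_div_cancel_left₀ _ hD0]
  -- coefficients
  have hcoefK : ∀ γ : (Fin t ⊕ Fin r) → Fin (d + 1),
      gm (fun n => ((MvPolynomial.coeff (toFs' γ) (F n i) : ℤ) : ℝ)) ∈ K0 Ω hΩ := by
    intro γ
    apply int_mem_K0
    obtain ⟨m, hm⟩ := exists_nat_ge (max A 0)
    refine ⟨m, Eventually.of_forall (fun n => ?_)⟩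
    refine (hcoef n i _).trans ?_
    have h1 : H n i ^ A ≤ H n i ^ (m:ℝ) :=
      Real.rpow_le_rpow_of_exponent_le (hH1 n i) ((le_max_left _ _).trans hm)
    rw [Real.rpow_natCast] at h1
    exact h1.trans (pow_le_pow_left₀ (by linarith [hH1 n i]) (hHΩ n i) m)
  -- the polynomial over `S`
  let Z : Fin r → MvPolynomial (J₀ i) S := fun k =>
    ∑ j : J₀ i, MvPolynomial.C (⟨q k j, hKS _ (hqK k j)⟩ : S) * MvPolynomial.X j
  let Q : MvPolynomial (J₀ i) S := ∑ γ : (Fin t ⊕ Fin r) → Fin (d + 1),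
    MvPolynomial.C ((⟨_, hKS _ (hcoefK γ)⟩ : S) *
      ∏ s, (⟨gm (fun n => ℓ n s), hS1 s⟩ : S) ^ (γ (Sum.inl s) : ℕ)) *
      ∏ k, Z k ^ (γ (Sum.inr k) : ℕ)
  have hQ : ∀ y : ℕ → Fin r → ℝ, (∀ n, ∀ e : Fin r → ℤ, ∏ k, g n i k ^ e k = 1 →
      ∑ k, (e k : ℝ) * y n k = 0) →
      MvPolynomial.aeval (fun j : J₀ i => gm (fun n => y n j)) Q =
        gm (fun n => MvPolynomial.aeval (Sum.elim (ℓ n) (y n)) (F n i)) := by
    intro y hy
    have h1 : ∀ k, MvPolynomial.aeval (fun j : J₀ i => gm (fun n => y n j)) (Z k) =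
        gm (fun n => y n k) := by
      intro k
      rw [htrans y hy k]
      simp only [Z, map_sum, map_mul, MvPolynomial.aeval_C, MvPolynomial.aeval_X]
      rfl
    have h2 : (fun n => MvPolynomial.aeval (Sum.elim (ℓ n) (y n)) (F n i)) = fun n =>
        ∑ γ : (Fin t ⊕ Fin r) → Fin (d + 1),
          ((MvPolynomial.coeff (toFs' γ) (F n i) : ℤ) : ℝ) *
          ((∏ s, (ℓ n s) ^ (γ (Sum.inl s) : ℕ)) * ∏ k, (y n k) ^ (γ (Sum.inr k) : ℕ)) := by
      funext n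
      rw [aeval_eq_sum' (F n i) (hdeg n i)]
      apply Finset.sum_congr rfl
      intro γ _
      rw [Fintype.prod_sum_type]
      rfl
    rw [h2, gm_sum]
    simp only [Q, map_sum, map_mul, map_prod, map_pow, MvPolynomial.aeval_C, h1]
    apply Finset.sum_congr rfl
    intro γ _
    rw [gm_mul, gm_mul, gm_prod, gm_prod, mul_assoc]
    congr 1
  have hQ0 : Q = 0 := by
    have h1 := hQ (fun n k => Real.log (g n i k)) (fun n e he => by
      rw [← log_comb (g n i) (hpos n i) e, he]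
      simp)
    have h2 : gm (fun n => MvPolynomial.aeval (Sum.elim (ℓ n) (fun k => Real.log (g n i k)))
        (F n i)) = 0 := by
      rw [← gm_zero, gm_eq_iff]
      exact Eventually.of_forall (fun n => hval n i)
    rw [h2] at h1
    exact (algebraicIndependent_iff.mp hS3) Q h1
  have h1 := hQ (fun n k => x n i k) (fun n e he => hrel n i e he)
  rw [hQ0, map_zero, ← gm_zero, gm_eq_iff] at h1
  obtain ⟨n, hn⟩ := h1.exists
  exact hne n i hn.symm

end Pool.Agent.ExScale
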