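import Mathlib

/-!
# The sum of the absolute values of the coefficients, arbitrary variables
-/

set_option autoImplicit false

namespace Pool.Agent.ExScale

open MvPolynomial

variable {σ : Type*}

/-- The sum of the absolute values of the coefficients. -/
noncomputable def l1 (F : MvPolynomial (σ) ℤ) : ℝ :=
  ∑ α ∈ F.support, |((coeff α F : ℤ) : ℝ)|

lemma l1_eq (F : MvPolynomial (σ) ℤ) (t : Finset (σ →₀ ℕ)) (h : F.support ⊆ t) :
    l1 F = ∑ α ∈ t, |((coeff α F : ℤ) : ℝ)| := by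
  apply Finset.sum_subset h
  intro α _ hα
  rw [MvPolynomial.notMem_support_iff.mp hα]
  simp

lemma l1_nonneg (F : MvPolynomial (σ) ℤ) : 0 ≤ l1 F :=
  Finset.sum_nonneg fun _ _ => abs_nonneg _

lemma coeff_le_l1 (F : MvPolynomial (σ) ℤ) (α : σ →₀ ℕ) :
    |((coeff α F : ℤ) : ℝ)| ≤ l1 F := by
  by_cases h : α ∈ F.support
  · exact Finset.single_le_sum (f := fun α => |((coeff α F : ℤ) : ℝ)|)
      (fun _ _ => abs_nonneg _) h
  · rw [MvPolynomial.notMem_support_iff.mp h]
    simpa using l1_nonneg F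

lemma l1_add_le (F G : MvPolynomial (σ) ℤ) : l1 (F + G) ≤ l1 F + l1 G := by
  classical
  rw [l1_eq (F + G) (F.support ∪ G.support) MvPolynomial.support_add,
    l1_eq F (F.support ∪ G.support) Finset.subset_union_left,
    l1_eq G (F.support ∪ G.support) Finset.subset_union_right, ← Finset.sum_add_distrib]
  apply Finset.sum_le_sum
  intro α _
  rw [coeff_add]
  push_cast
  exact abs_add_le _ _

lemma l1_zero : l1 (0 : MvPolynomial (σ) ℤ) = 0 := by simp [l1]

lemma l1_sum_le {ι : Type*} (t : Finset ι) (F : ι → MvPolynomial (σ) ℤ) :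
    l1 (∑ i ∈ t, F i) ≤ ∑ i ∈ t, l1 (F i) := by
  classical
  induction t using Finset.induction_on with
  | empty => simp [l1_zero]
  | insert a t ha ih =>
    rw [Finset.sum_insert ha, Finset.sum_insert ha]
    exact (l1_add_le _ _).trans (by linarith)

lemma l1_monomial_le (α : σ →₀ ℕ) (a : ℤ) : l1 (monomial α a) ≤ |(a : ℝ)| := by
  classical
  rw [l1_eq _ {α} MvPolynomial.support_monomial_subset, Finset.sum_singleton, coeff_monomial,
    if_pos rfl]

lemma l1_C_le (a : ℤ) : l1 (C a : MvPolynomial (σ) ℤ) ≤ |(a : ℝ)| := l1_monomial_le 0 a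

lemma l1_X_le (k : σ) : l1 (X k : MvPolynomial (σ) ℤ) ≤ 1 := by
  have := l1_monomial_le (Finsupp.single k 1) 1
  simpa [X] using this

lemma l1_mul_le (F G : MvPolynomial (σ) ℤ) : l1 (F * G) ≤ l1 F * l1 G := by
  classical
  have h : F * G = ∑ α ∈ F.support, ∑ β ∈ G.support,
      monomial (α + β) (coeff α F * coeff β G) := by
    conv_lhs => rw [F.as_sum, G.as_sum]
    rw [Finset.sum_mul_sum]
    simp only [MvPolynomial.monomial_mul]
  rw [h]
  refine (l1_sum_le _ _).trans ?_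
  rw [l1, l1, Finset.sum_mul_sum]
  apply Finset.sum_le_sum
  intro α _
  refine (l1_sum_le _ _).trans ?_
  apply Finset.sum_le_sum
  intro β _
  refine (l1_monomial_le _ _).trans ?_
  push_cast
  rw [abs_mul]

lemma l1_neg (F : MvPolynomial (σ) ℤ) : l1 (-F) = l1 F := by
  rw [l1, l1, MvPolynomial.support_neg]
  apply Finset.sum_congr rfl
  intro α _
  rw [coeff_neg]
  push_cast
  rw [abs_neg]

lemma l1_sub_le (F G : MvPolynomial (σ) ℤ) : l1 (F - G) ≤ l1 F + l1 G := by
  rw [sub_eq_add_neg]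
  exact (l1_add_le _ _).trans (by rw [l1_neg])

lemma l1_C_mul_le (a : ℤ) (F : MvPolynomial (σ) ℤ) : l1 (C a * F) ≤ |(a : ℝ)| * l1 F :=
  (l1_mul_le _ _).trans (mul_le_mul_of_nonneg_right (l1_C_le a) (l1_nonneg F))

/-- The integral linear form with coefficients `n`. -/
noncomputable def linS [Fintype σ] (n : σ → ℤ) : MvPolynomial (σ) ℤ := ∑ k, C (n k) * X k

lemma linS_hom [Fintype σ] (n : σ → ℤ) : (linS n).IsHomogeneous 1 :=
  IsHomogeneous.sum _ _ _ fun _ _ => isHomogeneous_C_mul_X _ _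

lemma aeval_linS [Fintype σ] (n : σ → ℤ) (x : σ → ℝ) : aeval x (linS n) = ∑ k, (n k : ℝ) * x k := by
  simp [linS]

lemma l1_linS_le [Fintype σ] (n : σ → ℤ) (T : ℝ) (hT : 0 ≤ T) (h : ∀ k, |(n k : ℝ)| ≤ T) :
    l1 (linS n) ≤ ((Fintype.card σ : ℝ) + 1) * T := by
  refine (l1_sum_le _ _).trans ?_
  have h1 : ∀ k ∈ (Finset.univ : Finset (σ)), l1 (C (n k) * X k) ≤ T := by
    intro k _
    refine (l1_C_mul_le _ _).trans ?_
    have := mul_le_mul (h k) (l1_X_le k) (l1_nonneg _) hT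
    linarith
  refine (Finset.sum_le_sum h1).trans ?_
  rw [Finset.sum_const, Finset.card_univ, nsmul_eq_mul]
  nlinarith

end Pool.Agent.ExScale
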