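import Mathlib
import Pool.Agent.ExScale.Pair

/-!
# A singular matrix at one scale repels all matrices at later scales
-/

set_option autoImplicit false

namespace Pool.Agent.ExScale

open MvPolynomial Pool.Agent.OneClass Pool.Agent.FewGroups Pool.Agent.Results.MP_bbc1fa_nt

theorem repel (r : ℕ) (δ A : ℝ) (hδ : 0 < δ) :
    ∃ κ : ℝ, 1 ≤ κ ∧ ∀ B : ℝ, ∃ C H₀ : ℝ, ∀ H H' ℓ : ℝ, H₀ ≤ H → H ^ κ ≤ H' → H' ≤ H ^ B →
      ∀ (g g' : Fin r → ℚ),
      (∀ k, 0 < g k) → (∀ k, ((g k).den : ℝ) ≤ H) → (∀ k, |(g k : ℝ) - 1| ≤ H ^ (-δ)) →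
      (∀ k, 0 < g' k) → (∀ k, ((g' k).den : ℝ) ≤ H') → (∀ k, |(g' k : ℝ) - 1| ≤ H' ^ (-δ)) →
      ∀ (c c' : Fin 2 → Fin 2 → ℤ) (m m' : Fin 2 → Fin 2 → Fin r → ℤ)
        (M M' : Matrix (Fin 2) (Fin 2) ℝ),
      (∀ i j, |(c i j : ℝ)| ≤ H ^ A) → (∀ i j k, |(m i j k : ℝ)| ≤ H ^ A) →
      (∀ i j, |(c' i j : ℝ)| ≤ H' ^ A) → (∀ i j k, |(m' i j k : ℝ)| ≤ H' ^ A) →
      (∀ i j, M i j = (c i j : ℝ) * ℓ + ∑ k, (m i j k : ℝ) * Real.log (g k)) →
      (∀ i j, M' i j = (c' i j : ℝ) * ℓ + ∑ k, (m' i j k : ℝ) * Real.log (g' k)) →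
      RowsIndep M → RowsIndep M.transpose → RowsIndep M' → RowsIndep M'.transpose →
      M.det = 0 → H' ^ (-C) ≤ |M'.det| := by
  set A₀ : ℝ := max A 0 with hA₀
  have hA₀0 : 0 ≤ A₀ := le_max_right _ _
  have hr0 : (0:ℝ) ≤ r := Nat.cast_nonneg r
  obtain ⟨C₁, H₁, hlow⟩ := lower r δ A₀ hδ hA₀0
  obtain ⟨K, hup⟩ := upper r δ A₀ hδ hA₀0
  set κ₀ : ℝ := (A₀ * r + max C₁ 0 + 1) * (2 / δ) with hκ₀
  refine ⟨max 1 κ₀, le_max_left _ _, fun B => ?_⟩
  set B₀ : ℝ := max B 1 with hB₀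
  have hB₀1 : 1 ≤ B₀ := le_max_right _ _
  have hδ' : 0 < δ / B₀ := by positivity
  have hδ'le : δ / B₀ ≤ δ := div_le_self hδ.le hB₀1
  obtain ⟨C₂, H₂, hform⟩ := formal_at_scale (r + r) (δ / B₀) A₀ hδ'
  refine ⟨C₂, max (max H₁ H₂) (max (2 ^ (1 / δ)) (max 1 (|K| + 1))),
    fun H H' ℓ hH hκH hHB g g' hg hden hclose hg' hden' hclose' c c' m m' M M' hc hm hc' hm'
      hM hM' hr hcol hr' hcol' hd => ?_⟩
  have hHH₁ : H₁ ≤ H := ((le_max_left _ _).trans (le_max_left _ _)).trans hH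
  have hHH₂ : H₂ ≤ H := ((le_max_right _ _).trans (le_max_left _ _)).trans hH
  have hH3 : (2:ℝ) ^ (1 / δ) ≤ H := ((le_max_left _ _).trans (le_max_right _ _)).trans hH
  have hH1 : 1 ≤ H :=
    (((le_max_left _ _).trans (le_max_right _ _)).trans (le_max_right _ _)).trans hH
  have hHK : |K| + 1 ≤ H :=
    (((le_max_right _ _).trans (le_max_right _ _)).trans (le_max_right _ _)).trans hH
  have hHpos : 0 < H := by linarith
  have hHH' : H ≤ H' := by
    refine le_trans ?_ hκH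
    conv_lhs => rw [← Real.rpow_one H]
    exact Real.rpow_le_rpow_of_exponent_le hH1 (le_max_left _ _)
  have hH'1 : 1 ≤ H' := hH1.trans hHH'
  have hH'pos : 0 < H' := by linarith
  have hhalf : H ^ (-δ) ≤ 1 / 2 := by
    have h2 : ((2:ℝ) ^ (1 / δ)) ^ δ ≤ H ^ δ := by
      apply Real.rpow_le_rpow (by positivity) hH3 hδ.le
    rw [← Real.rpow_mul (by norm_num), one_div_mul_cancel hδ.ne', Real.rpow_one] at h2
    rw [Real.rpow_neg hHpos.le, one_div]
    exact inv_anti₀ (by norm_num) h2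
  have hAA : ∀ X : ℝ, 1 ≤ X → X ^ A ≤ X ^ A₀ := fun X hX =>
    Real.rpow_le_rpow_of_exponent_le hX (le_max_left _ _)
  have hAH : H ^ A₀ ≤ H' ^ A₀ := Real.rpow_le_rpow hHpos.le hHH' hA₀0
  have hcl : H ^ (-δ) ≤ H' ^ (-(δ / B₀)) := by
    have h1 : H' ≤ H ^ B₀ := hHB.trans (Real.rpow_le_rpow_of_exponent_le hH1 (le_max_left _ _))
    have h2 : (H ^ B₀) ^ (-(δ / B₀)) ≤ H' ^ (-(δ / B₀)) :=
      Real.rpow_le_rpow_of_nonpos hH'pos h1 (by linarith)
    rw [← Real.rpow_mul hHpos.le] at h2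
    have h3 : B₀ * -(δ / B₀) = -δ := by
      have : B₀ ≠ 0 := by positivity
      field_simp
    rwa [h3] at h2
  have hcl' : H' ^ (-δ) ≤ H' ^ (-(δ / B₀)) :=
    Real.rpow_le_rpow_of_exponent_le hH'1 (by linarith)
  by_contra hcon
  push Not at hcon
  obtain ⟨κ, hκ, hfm⟩ := hform H' (hHH₂.trans hHH') (Fin.append g g') ℓ
    (by intro k; refine Fin.addCases (fun k => ?_) (fun k => ?_) k
        · rw [Fin.append_left]; exact hg k
        · rw [Fin.append_right]; exact hg' k)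
    (by intro k; refine Fin.addCases (fun k => ?_) (fun k => ?_) k
        · rw [Fin.append_left]; exact (hden k).trans hHH'
        · rw [Fin.append_right]; exact hden' k)
    (by intro k; refine Fin.addCases (fun k => ?_) (fun k => ?_) k
        · rw [Fin.append_left]; exact (hclose k).trans hcl
        · rw [Fin.append_right]; exact (hclose' k).trans hcl')
    c' c (fun i j => Fin.append (fun _ => (0 : ℤ)) (m' i j))
    (fun i j => Fin.append (m i j) (fun _ => (0 : ℤ))) M' M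
    (fun i j => (hc' i j).trans (hAA H' hH'1))
    (by intro i j k; refine Fin.addCases (fun k => ?_) (fun k => ?_) k
        · rw [Fin.append_left]; simp only [Int.cast_zero, abs_zero]; positivity
        · rw [Fin.append_right]; exact (hm' i j k).trans (hAA H' hH'1))
    (fun i j => ((hc i j).trans (hAA H hH1)).trans hAH)
    (by intro i j k; refine Fin.addCases (fun k => ?_) (fun k => ?_) k
        · rw [Fin.append_left]; exact ((hm i j k).trans (hAA H hH1)).trans hAH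
        · rw [Fin.append_right]; simp only [Int.cast_zero, abs_zero]; positivity)
    (by intro i j
        rw [hM', Fin.sum_univ_add]
        simp only [Fin.append_left, Fin.append_right, Int.cast_zero, zero_mul,
          Finset.sum_const_zero, zero_add])
    (by intro i j
        rw [hM, Fin.sum_univ_add]
        simp only [Fin.append_left, Fin.append_right, Int.cast_zero, zero_mul,
          Finset.sum_const_zero, add_zero])
    hr' hcol' hr hcol hd hcon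
  obtain ⟨i, j, hne⟩ := exists_near_ne c (fun i j => ∑ k, (m i j k : ℝ) * Real.log (g k)) ℓ M
    hM hd hr
  have hmem := near_mem g g' ℓ c c' m m' M hM hd hr hcol κ hκ hfm i j
  have hmb : ∀ k, |(m i j k : ℝ)| ≤ H ^ A₀ := fun k => (hm i j k).trans (hAA H hH1)
  have h1 := hlow H hHH₁ g hg hden hclose (m i j) hmb hne
  have h2 := hup H H' hH1 hHH' hhalf g g' hg hden hclose hg' hden' hclose' (m i j) hmb hmem
  have h3 : H ^ (-C₁) ≤ K * H ^ (A₀ * r) * H' ^ (-(δ / 2)) := h1.trans h2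
  have h4 : H' ^ (-(δ / 2)) ≤ H ^ (-(A₀ * r + max C₁ 0 + 1)) := by
    have h5 : H ^ κ₀ ≤ H' :=
      (Real.rpow_le_rpow_of_exponent_le hH1 (le_max_right _ _)).trans hκH
    have h6 : H' ^ (-(δ / 2)) ≤ (H ^ κ₀) ^ (-(δ / 2)) :=
      Real.rpow_le_rpow_of_nonpos (by positivity) h5 (by linarith)
    refine h6.trans (le_of_eq ?_)
    rw [← Real.rpow_mul hHpos.le, hκ₀]
    congr 1
    field_simp
  have h7 : K * H ^ (A₀ * r) * H' ^ (-(δ / 2)) ≤
      |K| * H ^ (A₀ * r) * H ^ (-(A₀ * r + max C₁ 0 + 1)) := by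
    refine mul_le_mul ?_ h4 (by positivity) (by positivity)
    exact mul_le_mul_of_nonneg_right (le_abs_self K) (by positivity)
  have h8 : |K| * H ^ (A₀ * r) * H ^ (-(A₀ * r + max C₁ 0 + 1)) =
      |K| * H⁻¹ * H ^ (-(max C₁ 0)) := by
    rw [mul_assoc, ← Real.rpow_add hHpos, mul_assoc |K| H⁻¹, ← Real.rpow_neg_one H,
      ← Real.rpow_add hHpos]
    congr 2
    ring
  have h9 : |K| * H⁻¹ < 1 := by
    rw [mul_inv_lt_iff₀ hHpos]
    linarith
  have h10 : H ^ (-(max C₁ 0)) ≤ H ^ (-C₁) :=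
    Real.rpow_le_rpow_of_exponent_le hH1 (by linarith [le_max_left C₁ 0])
  have h11 : 0 < H ^ (-(max C₁ 0)) := Real.rpow_pos_of_pos hHpos _
  have h12 : |K| * H⁻¹ * H ^ (-(max C₁ 0)) < 1 * H ^ (-(max C₁ 0)) :=
    mul_lt_mul_of_pos_right h9 h11
  linarith

end Pool.Agent.ExScale
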