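import Mathlib
import Pool.Agent.ExScale.General
import Pool.Agent.ExScale.NormS
import Pool.Agent.ExScale.Main

/-!
# Four exponentials with several fixed bases
-/

set_option autoImplicit false

namespace Pool.Agent.ExScale

open Filter Topology MvPolynomial Pool.Agent.OneClass Pool.Agent.FewGroups

/-- The determinant polynomial. -/
noncomputable def detP {t r : ℕ} (c : Fin 2 → Fin 2 → Fin t → ℤ) (m : Fin 2 → Fin 2 → Fin r → ℤ) :
    MvPolynomial (Fin t ⊕ Fin r) ℤ :=
  linS (Sum.elim (c 0 0) (m 0 0)) * linS (Sum.elim (c 1 1) (m 1 1)) -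
    linS (Sum.elim (c 0 1) (m 0 1)) * linS (Sum.elim (c 1 0) (m 1 0))

lemma detP_hom {t r : ℕ} (c : Fin 2 → Fin 2 → Fin t → ℤ) (m : Fin 2 → Fin 2 → Fin r → ℤ) :
    (detP c m).IsHomogeneous 2 :=
  ((linS_hom _).mul (linS_hom _)).sub ((linS_hom _).mul (linS_hom _))

lemma l1_detP_le {t r : ℕ} (c : Fin 2 → Fin 2 → Fin t → ℤ) (m : Fin 2 → Fin 2 → Fin r → ℤ)
    (T : ℝ) (hT : 0 ≤ T) (hc : ∀ i j s, |(c i j s : ℝ)| ≤ T) (hm : ∀ i j k, |(m i j k : ℝ)| ≤ T) :
    l1 (detP c m) ≤ 2 * (((t:ℝ) + r + 1) * T) ^ 2 := by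
  have h0 : ∀ i j, l1 (linS (Sum.elim (c i j) (m i j))) ≤ ((t:ℝ) + r + 1) * T := by
    intro i j
    have h := l1_linS_le (Sum.elim (c i j) (m i j)) T hT (by
      rintro (s | k)
      · exact hc i j s
      · exact hm i j k)
    rwa [Fintype.card_sum, Fintype.card_fin, Fintype.card_fin, Nat.cast_add] at h
  have h1 : ∀ i j i' j', l1 (linS (Sum.elim (c i j) (m i j)) *
      linS (Sum.elim (c i' j') (m i' j'))) ≤ (((t:ℝ) + r + 1) * T) ^ 2 := by
    intro i j i' j'
    rw [sq]
    exact (l1_mul_le _ _).trans (mul_le_mul (h0 i j) (h0 i' j') (l1_nonneg _) (by positivity))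
  refine (l1_sub_le _ _).trans ?_
  have := h1 0 0 1 1
  have := h1 0 1 1 0
  linarith

lemma aeval_linS_elim {t r : ℕ} (a : Fin t → ℤ) (b : Fin r → ℤ) (ℓ : Fin t → ℝ) (y : Fin r → ℝ) :
    aeval (Sum.elim ℓ y) (linS (Sum.elim a b)) =
      ∑ s, (a s : ℝ) * ℓ s + ∑ k, (b k : ℝ) * y k := by
  rw [aeval_linS, Fintype.sum_sum_type]
  rfl

/-- If the determinant vanishes for all logarithms replaced by vectors satisfying the same
relations, then the near-one parts vanish. -/
lemma near_zero {t r : ℕ} (ℓ : Fin t → ℝ) (g : Fin r → ℚ) (hg : ∀ k, 0 < g k)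
    (c : Fin 2 → Fin 2 → Fin t → ℤ) (m : Fin 2 → Fin 2 → Fin r → ℤ)
    (M : Matrix (Fin 2) (Fin 2) ℝ)
    (hM : ∀ i j, M i j = ∑ s, (c i j s : ℝ) * ℓ s + ∑ k, (m i j k : ℝ) * Real.log (g k))
    (hd : M.det = 0) (hr : RowsIndep M) (hc : RowsIndep M.transpose)
    (h : ∀ x : Fin r → ℝ,
      (∀ e : Fin r → ℤ, ∏ k, g k ^ e k = 1 → ∑ k, (e k : ℝ) * x k = 0) →
      aeval (Sum.elim ℓ x) (detP c m) = 0) :
    ∀ i j, ∑ k, (m i j k : ℝ) * Real.log (g k) = 0 := by
  by_contra hcon
  push Not at hcon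
  obtain ⟨i₀, j₀, hne⟩ := hcon
  have hnot : (∑ k, (m i₀ j₀ k : ℝ) * Real.log (g k)) ∉ (⊥ : Submodule ℚ ℝ) := by
    rwa [Submodule.mem_bot]
  obtain ⟨f, hf, -⟩ := Submodule.exists_le_ker_of_notMem hnot
  let X : Matrix (Fin 2) (Fin 2) ℚ := fun i j => ∑ k, (m i j k : ℚ) * f (Real.log (g k))
  have hfs : ∀ i j, f (∑ k, (m i j k : ℝ) * Real.log (g k)) = X i j := by
    intro i j
    rw [map_sum]
    apply Finset.sum_congr rfl
    intro k _
    have : ((m i j k : ℝ) * Real.log (g k)) = (m i j k : ℤ) • Real.log (g k) := by simp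
    rw [this, map_zsmul]
    simp
  have key : ∀ s : ℝ, (M + s • toR X).det = 0 := by
    intro s
    have h1 := h (fun k => Real.log (g k) + s * ((f (Real.log (g k)) : ℚ) : ℝ)) (by
      intro e he
      have h2 : ∑ k, (e k : ℝ) * Real.log (g k) = 0 := by
        rw [← log_comb g hg e, he]
        simp
      have h3 : f (∑ k, (e k : ℝ) * Real.log (g k)) = ∑ k, (e k : ℚ) * f (Real.log (g k)) := by
        rw [map_sum]
        apply Finset.sum_congr rfl
        intro k _
        have : ((e k : ℝ) * Real.log (g k)) = (e k : ℤ) • Real.log (g k) := by simp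
        rw [this, map_zsmul]
        simp
      rw [h2, map_zero] at h3
      have h4 : ∑ k, (e k : ℝ) * ((f (Real.log (g k)) : ℚ) : ℝ) = 0 := by
        exact_mod_cast h3.symm
      simp only [mul_add, Finset.sum_add_distrib]
      rw [h2, zero_add]
      calc ∑ k, (e k : ℝ) * (s * ((f (Real.log (g k)) : ℚ) : ℝ))
          = s * ∑ k, (e k : ℝ) * ((f (Real.log (g k)) : ℚ) : ℝ) := by
            rw [Finset.mul_sum]
            apply Finset.sum_congr rfl
            intro k _
            ring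
        _ = 0 := by rw [h4, mul_zero])
    have h5 : ∀ i j, ∑ a, (c i j a : ℝ) * ℓ a + ∑ k, (m i j k : ℝ) *
        (Real.log (g k) + s * ((f (Real.log (g k)) : ℚ) : ℝ)) = (M + s • toR X) i j := by
      intro i j
      have h6 : toR X i j = ∑ k, (m i j k : ℝ) * ((f (Real.log (g k)) : ℚ) : ℝ) := by
        change ((∑ k, (m i j k : ℚ) * f (Real.log (g k)) : ℚ) : ℝ) = _
        push_cast
        rfl
      rw [Matrix.add_apply, Matrix.smul_apply, smul_eq_mul, h6, hM]
      simp only [mul_add, Finset.sum_add_distrib, Finset.mul_sum]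
      rw [add_assoc]
      congr 2
      apply Finset.sum_congr rfl
      intro k _
      ring
    rw [detP, map_sub, map_mul, map_mul, aeval_linS_elim, aeval_linS_elim, aeval_linS_elim,
      aeval_linS_elim, h5, h5, h5, h5] at h1
    rw [Matrix.det_fin_two]
    exact h1
  have k1 := key 1
  have k2 := key (-1)
  rw [one_smul, det_add_two, hd] at k1
  rw [neg_smul, one_smul, det_add_two, hd] at k2
  have e1 : (-toR X).det = (toR X).det := by
    simp only [Matrix.det_fin_two, Matrix.neg_apply]; ring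
  have e2 : pol M (-toR X) = -pol M (toR X) := by
    simp only [pol, Matrix.neg_apply]; ring
  rw [e1, e2] at k2
  have e3 : (toR X).det = 0 := by linarith
  have e4 : pol (toR X) M = 0 := by rw [pol_comm]; linarith
  have e5 : X.det = 0 := by
    simp only [Matrix.det_fin_two, toR, Matrix.map_apply] at e3 ⊢
    exact_mod_cast e3
  have e6 := isotropic_zero M hd hr hc X e5 e4
  apply hf
  rw [hfs, e6]
  rfl

end Pool.Agent.ExScale
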