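import Mathlib
import Pool.Agent.ExScale.Repel
import Pool.Agent.ExScale.OneScale

/-!
# One exceptional class and one exceptional window of scales
-/

set_option autoImplicit false

namespace Pool.Agent.ExScale

open Pool.Agent.OneClass

lemma mapQ_mul (P Q : Matrix (Fin 2) (Fin 2) ℚ) :
    (P * Q).map (fun x : ℚ => (x : ℝ)) =
      P.map (fun x : ℚ => (x : ℝ)) * Q.map (fun x : ℚ => (x : ℝ)) :=
  Matrix.map_mul (f := Rat.castHom ℝ)

lemma mapQ_inv_left (P : Matrix (Fin 2) (Fin 2) ℚ) (hP : P.det ≠ 0) :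
    P⁻¹.map (fun x : ℚ => (x : ℝ)) * P.map (fun x : ℚ => (x : ℝ)) = 1 := by
  rw [← mapQ_mul, Matrix.nonsing_inv_mul _ (isUnit_iff_ne_zero.mpr hP)]
  simp

lemma mapQ_inv_right (P : Matrix (Fin 2) (Fin 2) ℚ) (hP : P.det ≠ 0) :
    P.map (fun x : ℚ => (x : ℝ)) * P⁻¹.map (fun x : ℚ => (x : ℝ)) = 1 := by
  rw [← mapQ_mul, Matrix.mul_nonsing_inv _ (isUnit_iff_ne_zero.mpr hP)]
  simp

lemma inv_det_ne (P : Matrix (Fin 2) (Fin 2) ℚ) (hP : P.det ≠ 0) : P⁻¹.det ≠ 0 := by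
  rw [Matrix.det_nonsing_inv, Ring.inverse_eq_inv']
  exact inv_ne_zero hP

lemma transpose_det_ne (P : Matrix (Fin 2) (Fin 2) ℚ) (hP : P.det ≠ 0) : P.transpose.det ≠ 0 := by
  rwa [Matrix.det_transpose]

/-- the equivalence is symmetric -/
lemma equiv_symm {M M' : Matrix (Fin 2) (Fin 2) ℝ}
    (h : ∃ P Q : Matrix (Fin 2) (Fin 2) ℚ, P.det ≠ 0 ∧ Q.det ≠ 0 ∧
        (M = P.map (fun x : ℚ => (x : ℝ)) * M' * Q.map (fun x : ℚ => (x : ℝ)) ∨
          M = P.map (fun x : ℚ => (x : ℝ)) * M'.transpose * Q.map (fun x : ℚ => (x : ℝ)))) :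
    ∃ P Q : Matrix (Fin 2) (Fin 2) ℚ, P.det ≠ 0 ∧ Q.det ≠ 0 ∧
        (M' = P.map (fun x : ℚ => (x : ℝ)) * M * Q.map (fun x : ℚ => (x : ℝ)) ∨
          M' = P.map (fun x : ℚ => (x : ℝ)) * M.transpose * Q.map (fun x : ℚ => (x : ℝ))) := by
  obtain ⟨P, Q, hP, hQ, h | h⟩ := h
  · refine ⟨P⁻¹, Q⁻¹, inv_det_ne P hP, inv_det_ne Q hQ, Or.inl ?_⟩
    rw [h, ← Matrix.mul_assoc, ← Matrix.mul_assoc, mapQ_inv_left P hP, Matrix.one_mul,
      Matrix.mul_assoc, mapQ_inv_right Q hQ, Matrix.mul_one]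
  · have h1 : M'.transpose = P⁻¹.map (fun x : ℚ => (x : ℝ)) * M *
        Q⁻¹.map (fun x : ℚ => (x : ℝ)) := by
      rw [h, ← Matrix.mul_assoc, ← Matrix.mul_assoc, mapQ_inv_left P hP, Matrix.one_mul,
        Matrix.mul_assoc, mapQ_inv_right Q hQ, Matrix.mul_one]
    refine ⟨Q⁻¹.transpose, P⁻¹.transpose, transpose_det_ne _ (inv_det_ne Q hQ),
      transpose_det_ne _ (inv_det_ne P hP), Or.inr ?_⟩
    have h2 := congrArg Matrix.transpose h1
    rw [Matrix.transpose_transpose, Matrix.transpose_mul, Matrix.transpose_mul] at h2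
    rw [h2, Matrix.mul_assoc]
    rfl

theorem window (r : ℕ) (δ A : ℝ) (hδ : 0 < δ) :
    ∃ κ : ℝ, ∀ B : ℝ, ∃ C H₀ : ℝ, ∀ H H' ℓ : ℝ, H₀ ≤ H → H ≤ H' → H' ≤ H ^ B →
      ∀ (g g' : Fin r → ℚ),
      (∀ k, 0 < g k) → (∀ k, ((g k).den : ℝ) ≤ H) → (∀ k, |(g k : ℝ) - 1| ≤ H ^ (-δ)) →
      (∀ k, 0 < g' k) → (∀ k, ((g' k).den : ℝ) ≤ H') → (∀ k, |(g' k : ℝ) - 1| ≤ H' ^ (-δ)) →
      ∀ (c c' : Fin 2 → Fin 2 → ℤ) (m m' : Fin 2 → Fin 2 → Fin r → ℤ)
        (M M' : Matrix (Fin 2) (Fin 2) ℝ),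
      (∀ i j, |(c i j : ℝ)| ≤ H ^ A) → (∀ i j k, |(m i j k : ℝ)| ≤ H ^ A) →
      (∀ i j, |(c' i j : ℝ)| ≤ H' ^ A) → (∀ i j k, |(m' i j k : ℝ)| ≤ H' ^ A) →
      (∀ i j, M i j = (c i j : ℝ) * ℓ + ∑ k, (m i j k : ℝ) * Real.log (g k)) →
      (∀ i j, M' i j = (c' i j : ℝ) * ℓ + ∑ k, (m' i j k : ℝ) * Real.log (g' k)) →
      LinearIndependent ℚ (fun i : Fin 2 => fun j : Fin 2 => M i j) →
      LinearIndependent ℚ (fun j : Fin 2 => fun i : Fin 2 => M i j) →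
      LinearIndependent ℚ (fun i : Fin 2 => fun j : Fin 2 => M' i j) →
      LinearIndependent ℚ (fun j : Fin 2 => fun i : Fin 2 => M' i j) →
      M.det * M'.det = 0 →
      H' ^ (-C) ≤ |M.det| + |M'.det| ∨
      H' < H ^ κ ∧ ∃ P Q : Matrix (Fin 2) (Fin 2) ℚ, P.det ≠ 0 ∧ Q.det ≠ 0 ∧
        (M' = P.map (fun x : ℚ => (x : ℝ)) * M * Q.map (fun x : ℚ => (x : ℝ)) ∨
          M' = P.map (fun x : ℚ => (x : ℝ)) * M.transpose * Q.map (fun x : ℚ => (x : ℝ))) := by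
  obtain ⟨κ, hκ1, hrep⟩ := repel r δ A hδ
  refine ⟨κ, fun B => ?_⟩
  set A₀ : ℝ := max A 0 with hA₀
  have hA₀0 : 0 ≤ A₀ := le_max_right _ _
  set B₀ : ℝ := max B 1 with hB₀
  have hB₀1 : 1 ≤ B₀ := le_max_right _ _
  have hδ' : 0 < δ / B₀ := by positivity
  have hδ'le : δ / B₀ ≤ δ := div_le_self hδ.le hB₀1
  obtain ⟨C₁, H₁, hR⟩ := hrep B
  obtain ⟨C₂, H₂, hE⟩ := one_scale (r + r) (δ / B₀) A₀ hδ'
  refine ⟨max C₁ C₂, max (max H₁ H₂) 1, fun H H' ℓ hH hHH' hHB g g' hg hden hclose hg' hden'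
    hclose' c c' m m' M M' hc hm hc' hm' hM hM' hr hcol hr' hcol' hdd => ?_⟩
  have hHH₁ : H₁ ≤ H := ((le_max_left _ _).trans (le_max_left _ _)).trans hH
  have hHH₂ : H₂ ≤ H := ((le_max_right _ _).trans (le_max_left _ _)).trans hH
  have hH1 : 1 ≤ H := (le_max_right _ _).trans hH
  have hHpos : 0 < H := by linarith
  have hH'1 : 1 ≤ H' := hH1.trans hHH'
  have hH'pos : 0 < H' := by linarith
  have hAA : ∀ X : ℝ, 1 ≤ X → X ^ A ≤ X ^ A₀ := fun X hX =>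
    Real.rpow_le_rpow_of_exponent_le hX (le_max_left _ _)
  have hAH : H ^ A₀ ≤ H' ^ A₀ := Real.rpow_le_rpow hHpos.le hHH' hA₀0
  have hcl : H ^ (-δ) ≤ H' ^ (-(δ / B₀)) := by
    have h1 : H' ≤ H ^ B₀ := hHB.trans (Real.rpow_le_rpow_of_exponent_le hH1 (le_max_left _ _))
    have h2 : (H ^ B₀) ^ (-(δ / B₀)) ≤ H' ^ (-(δ / B₀)) :=
      Real.rpow_le_rpow_of_nonpos hH'pos h1 (by linarith)
    rw [← Real.rpow_mul hHpos.le] at h2
    have h3 : B₀ * -(δ / B₀) = -δ := by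
      have : B₀ ≠ 0 := by positivity
      field_simp
    rwa [h3] at h2
  have hcl' : H' ^ (-δ) ≤ H' ^ (-(δ / B₀)) :=
    Real.rpow_le_rpow_of_exponent_le hH'1 (by linarith)
  have hexp : ∀ C : ℝ, C ≤ max C₁ C₂ → H' ^ (-(max C₁ C₂)) ≤ H' ^ (-C) := fun C hC =>
    Real.rpow_le_rpow_of_exponent_le hH'1 (by linarith)
  rw [or_iff_not_imp_left, not_le]
  intro hsmall
  -- the two matrices over the joint system of generators
  have h1 : ∀ k, 0 < Fin.append g g' k := by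
    intro k
    refine Fin.addCases (fun k => ?_) (fun k => ?_) k
    · rw [Fin.append_left]; exact hg k
    · rw [Fin.append_right]; exact hg' k
  have h2 : ∀ k, ((Fin.append g g' k).den : ℝ) ≤ H' := by
    intro k
    refine Fin.addCases (fun k => ?_) (fun k => ?_) k
    · rw [Fin.append_left]; exact (hden k).trans hHH'
    · rw [Fin.append_right]; exact hden' k
  have h3 : ∀ k, |((Fin.append g g' k : ℚ) : ℝ) - 1| ≤ H' ^ (-(δ / B₀)) := by
    intro k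
    refine Fin.addCases (fun k => ?_) (fun k => ?_) k
    · rw [Fin.append_left]; exact (hclose k).trans hcl
    · rw [Fin.append_right]; exact (hclose' k).trans hcl'
  have h4 : ∀ i j, |(c i j : ℝ)| ≤ H' ^ A₀ := fun i j =>
    ((hc i j).trans (hAA H hH1)).trans hAH
  have h5 : ∀ i j, |(c' i j : ℝ)| ≤ H' ^ A₀ := fun i j => (hc' i j).trans (hAA H' hH'1)
  have h6 : ∀ i j k, |((Fin.append (m i j) (fun _ : Fin r => (0 : ℤ)) k : ℤ) : ℝ)| ≤
      H' ^ A₀ := by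
    intro i j k
    refine Fin.addCases (fun k => ?_) (fun k => ?_) k
    · rw [Fin.append_left]; exact ((hm i j k).trans (hAA H hH1)).trans hAH
    · rw [Fin.append_right]; simp only [Int.cast_zero, abs_zero]; positivity
  have h7 : ∀ i j k, |((Fin.append (fun _ : Fin r => (0 : ℤ)) (m' i j) k : ℤ) : ℝ)| ≤
      H' ^ A₀ := by
    intro i j k
    refine Fin.addCases (fun k => ?_) (fun k => ?_) k
    · rw [Fin.append_left]; simp only [Int.cast_zero, abs_zero]; positivity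
    · rw [Fin.append_right]; exact (hm' i j k).trans (hAA H' hH'1)
  have h8 : ∀ i j, M i j = (c i j : ℝ) * ℓ +
      ∑ k, ((Fin.append (m i j) (fun _ : Fin r => (0 : ℤ)) k : ℤ) : ℝ) *
        Real.log ((Fin.append g g' k : ℚ) : ℝ) := by
    intro i j
    rw [hM, Fin.sum_univ_add]
    simp only [Fin.append_left, Fin.append_right, Int.cast_zero, zero_mul,
      Finset.sum_const_zero, add_zero]
  have h9 : ∀ i j, M' i j = (c' i j : ℝ) * ℓ +
      ∑ k, ((Fin.append (fun _ : Fin r => (0 : ℤ)) (m' i j) k : ℤ) : ℝ) *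
        Real.log ((Fin.append g g' k : ℚ) : ℝ) := by
    intro i j
    rw [hM', Fin.sum_univ_add]
    simp only [Fin.append_left, Fin.append_right, Int.cast_zero, zero_mul,
      Finset.sum_const_zero, zero_add]
  -- both are singular and equivalent
  have hboth : M.det = 0 ∧ ∃ P Q : Matrix (Fin 2) (Fin 2) ℚ, P.det ≠ 0 ∧ Q.det ≠ 0 ∧
        (M' = P.map (fun x : ℚ => (x : ℝ)) * M * Q.map (fun x : ℚ => (x : ℝ)) ∨
          M' = P.map (fun x : ℚ => (x : ℝ)) * M.transpose * Q.map (fun x : ℚ => (x : ℝ))) := by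
    rcases mul_eq_zero.mp hdd with hd | hd
    · refine ⟨hd, ?_⟩
      rcases hE H' (hHH₂.trans hHH') (Fin.append g g') ℓ h1 h2 h3 c' c _ _ M' M h5 h7 h4 h6 h9 h8
        hr' hcol' hr hcol hd with h | h
      · exfalso
        rw [hd, abs_zero, zero_add] at hsmall
        have := hexp C₂ (le_max_right _ _)
        linarith
      · exact h
    · rcases hE H' (hHH₂.trans hHH') (Fin.append g g') ℓ h1 h2 h3 c c' _ _ M M' h4 h6 h5 h7 h8 h9
        hr hcol hr' hcol' hd with h | h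
      · exfalso
        rw [hd, abs_zero, add_zero] at hsmall
        have := hexp C₂ (le_max_right _ _)
        linarith
      · refine ⟨?_, equiv_symm h⟩
        obtain ⟨P, Q, -, -, h | h⟩ := h
        · rw [h, Matrix.det_mul, Matrix.det_mul, hd, mul_zero, zero_mul]
        · rw [h, Matrix.det_mul, Matrix.det_mul, Matrix.det_transpose, hd, mul_zero, zero_mul]
  refine ⟨?_, hboth.2⟩
  by_contra hκ
  push Not at hκ
  have h10 := hR H H' ℓ hHH₁ hκ hHB g g' hg hden hclose hg' hden' hclose' c c' m m' M M' hc hm hc'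
    hm' hM hM' (rowsIndep_of M hr) (rowsIndep_of M.transpose hcol)
    (rowsIndep_of M' hr') (rowsIndep_of M'.transpose hcol')
    hboth.1
  rw [hboth.1, abs_zero, zero_add] at hsmall
  have := hexp C₁ (le_max_left _ _)
  linarith

end Pool.Agent.ExScale
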